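import Mathlib
import Pool.Agent.H378R2.M1c
import Pool.Agent.H307R2.Sg6

/-!
# Real characters near one: either `L(s,χ)` is not small, or there is one simple real zero
-/

set_option autoImplicit false

open MeasureTheory Filter Topology Set

namespace Run7.h402.PT

open Pool.Agent.H378R2.M1 Pool.Agent.H307R2
open Pool.Agent.Erdos456 (four_prod zeta_bound)
open DirichletCharacter

noncomputable section

/-- lower bound to the right of one -/
theorem real_lower : ∃ Z : ℝ, 1 ≤ Z ∧ ∀ (q : ℕ) [NeZero q] (χ : DirichletCharacter ℂ q), χ ^ 2 = 1 →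
    ∀ x : ℝ, 1 < x → x ≤ 2 → (x - 1) / Z ≤ ‖LFunction χ (x : ℂ)‖ := by
  obtain ⟨Z, hZ, hz⟩ := zeta_bound
  refine ⟨Z, hZ, fun q _ χ hχ x hx1 hx2 => ?_⟩
  have p := four_prod χ (1 : DirichletCharacter ℂ 1) χ hχ (one_pow 2) (fun n => by
    have : (1 : DirichletCharacter ℂ 1) (n : ZMod 1) = 1 := by
      apply MulChar.one_apply
      exact isUnit_of_subsingleton _
    rw [this, mul_one]) (s := x) hx1
  have z1 := hz x hx1 hx2
  rw [LFunction_modOne_eq] at p
  have hL0 := norm_nonneg (LFunction χ (x : ℂ))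
  have hz0 := norm_nonneg (riemannZeta (x : ℂ))
  have h1 : 1 ≤ (‖riemannZeta (x : ℂ)‖ * ‖LFunction χ (x : ℂ)‖) ^ 2 := by
    calc (1 : ℝ) ≤ _ := p
      _ = _ := by ring
  have h2 : 1 ≤ ‖riemannZeta (x : ℂ)‖ * ‖LFunction χ (x : ℂ)‖ := by
    by_contra hcon
    push Not at hcon
    have : 0 ≤ ‖riemannZeta (x : ℂ)‖ * ‖LFunction χ (x : ℂ)‖ := by positivity
    nlinarith
  have hx0 : 0 < x - 1 := by linarith
  rw [div_le_iff₀ (by linarith)]
  rw [le_div_iff₀ hx0] at z1
  calc x - 1 = (x - 1) * 1 := (mul_one _).symm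
    _ ≤ (x - 1) * (‖riemannZeta (x : ℂ)‖ * ‖LFunction χ (x : ℂ)‖) := by gcongr
    _ = (‖riemannZeta (x : ℂ)‖ * (x - 1)) * ‖LFunction χ (x : ℂ)‖ := by ring
    _ ≤ Z * ‖LFunction χ (x : ℂ)‖ := by gcongr
    _ = _ := by ring

/-- second derivative bound near one -/
theorem second_deriv {C l : ℝ} (hC : 1 ≤ C) (hl : 4 ≤ l) {f : ℂ → ℂ} (hf : Differentiable ℂ f)
    (hb : ∀ s : ℂ, ‖s - 1‖ ≤ 1 / (2 * l) → ‖f s‖ ≤ C * l ^ 2) (s : ℂ) (hs : ‖s - 1‖ ≤ 1 / (4 * l)) :
    ‖deriv f s‖ ≤ 4 * C * l ^ 3 := by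
  have hl0 : 0 < l := by linarith
  have key := Complex.norm_deriv_le_of_forall_mem_sphere_norm_le (c := s) (R := 1 / (4 * l))
    (C := C * l ^ 2) (f := f) (by positivity) hf.diffContOnCl (by
      intro z hz
      rw [mem_sphere_iff_norm] at hz
      apply hb
      have h1 := norm_add_le (z - s) (s - 1)
      rw [sub_add_sub_cancel, hz] at h1
      have e : 1 / (2 * l) = 1 / (4 * l) + 1 / (4 * l) := by field_simp; norm_num
      rw [e]
      linarith)
  refine key.trans (le_of_eq ?_)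
  field_simp

/-- the disc around one is convex -/
theorem lip_disc {M r : ℝ} {f : ℂ → ℂ} (hf : Differentiable ℂ f)
    (hb : ∀ s : ℂ, ‖s - 1‖ ≤ r → ‖deriv f s‖ ≤ M) {s t : ℂ} (hs : ‖s - 1‖ ≤ r) (ht : ‖t - 1‖ ≤ r) :
    ‖f t - f s‖ ≤ M * ‖t - s‖ := by
  have hconv : Convex ℝ (Metric.closedBall (1 : ℂ) r) := convex_closedBall _ _
  exact Convex.norm_image_sub_le_of_norm_deriv_le (fun x _ => hf x)
    (fun x hx => hb x (by rwa [mem_closedBall_iff_norm] at hx)) hconv
    (by rwa [mem_closedBall_iff_norm]) (by rwa [mem_closedBall_iff_norm])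

/-- the dichotomy for a real character near one -/
theorem dich : ∃ c c' : ℝ, 0 < c ∧ c ≤ 1 / 4 ∧ 0 < c' ∧ c' ≤ c ∧ ∀ l : ℝ, 4 ≤ l → ∀ (q : ℕ) [NeZero q]
    (χ : DirichletCharacter ℂ q), χ ^ 2 = 1 → χ ≠ 1 → Real.log q ≤ l →
      (∀ s : ℂ, ‖s - 1‖ ≤ c' / l ^ 6 → c' / l ^ 4 ≤ ‖LFunction χ s‖) ∨
      ∃ β : ℝ, 1 - c / l ^ 3 ≤ β ∧ β < 1 ∧ LFunction χ (β : ℂ) = 0 ∧
        ∀ s : ℂ, ‖s - 1‖ ≤ c / l ^ 3 → c ≤ ‖dslope (LFunction χ) (β : ℂ) s‖ ∧
          ‖deriv (dslope (LFunction χ) (β : ℂ)) s‖ ≤ l ^ 4 / c := by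
  obtain ⟨C, hC, h1, h2, h3⟩ := L_lip
  obtain ⟨Z, hZ, hz⟩ := real_lower
  have hC0 : 0 < C := by linarith
  have hZ0 : 0 < Z := by linarith
  have hCZ : 1 ≤ Z * C := one_le_mul_of_one_le_of_one_le hZ hC
  set c1 : ℝ := 1 / (64 * Z * C) with hc1
  have hc10 : 0 < c1 := by positivity
  have hc11 : c1 ≤ 1 / 64 := by
    rw [hc1]
    apply one_div_le_one_div_of_le (by norm_num)
    nlinarith
  -- the final constant
  set c : ℝ := c1 ^ 3 with hc
  have hc0 : 0 < c := by positivity
  have hcc1 : c ≤ c1 := by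
    rw [hc]
    calc c1 ^ 3 = c1 * c1 ^ 2 := by ring
      _ ≤ c1 * 1 := by
        gcongr
        nlinarith
      _ = c1 := mul_one _
  set c' : ℝ := c / (8 * Z * C) with hc'
  have hc'0 : 0 < c' := by positivity
  have hc'c : c' ≤ c := by
    rw [hc']
    apply div_le_self hc0.le
    nlinarith
  refine ⟨c, c', hc0, by linarith, hc'0, hc'c, fun l hl q _ χ hχ2 hχ1 hql => ?_⟩
  have hl0 : 0 < l := by linarith
  have hl1 : 1 ≤ l := by linarith
  have hdiff : Differentiable ℂ (LFunction χ) := differentiable_LFunction hχ1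
  -- geometry of the discs
  have hre : ∀ s : ℂ, ∀ r : ℝ, ‖s - 1‖ ≤ r → 1 - r ≤ s.re ∧ s.re ≤ 1 + r ∧ |s.im| ≤ r := by
    intro s r hs
    have a1 := (Complex.abs_re_le_norm (s - 1)).trans hs
    have a2 := (Complex.abs_im_le_norm (s - 1)).trans hs
    rw [Complex.sub_re, Complex.one_re, abs_le] at a1
    rw [Complex.sub_im, Complex.one_im, sub_zero] at a2
    exact ⟨by linarith [a1.1], by linarith [a1.2], a2⟩
  have h2l : 1 / (2 * l) ≤ 1 / 8 := one_div_le_one_div_of_le (by norm_num) (by linarith)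
  have hlog : ∀ y : ℝ, y ≤ 1 / 8 → 0 ≤ y → Real.log (y + 3) ≤ l := by
    intro y hy hy0
    have := Real.log_le_sub_one_of_pos (show 0 < y + 3 by linarith)
    linarith
  have hderiv : ∀ s : ℂ, ‖s - 1‖ ≤ 1 / (2 * l) → ‖deriv (LFunction χ) s‖ ≤ C * l ^ 2 := by
    intro s hs
    obtain ⟨a1, a2, a3⟩ := hre s _ hs
    exact h2 l hl q χ hχ1 hql s a1 (by linarith) (hlog _ (by linarith) (abs_nonneg _))
  have hdd : Differentiable ℂ (deriv (LFunction χ)) := by
    intro s
    exact (hdiff.analyticAt s).deriv.differentiableAt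
  have hd2 : ∀ s : ℂ, ‖s - 1‖ ≤ 1 / (4 * l) → ‖deriv (deriv (LFunction χ)) s‖ ≤ 4 * C * l ^ 3 :=
    fun s hs => second_deriv hC hl hdd hderiv s hs
  set η : ℝ := c1 / l ^ 3 with hη
  have hη0 : 0 < η := by positivity
  have hl3 : l ≤ l ^ 3 := le_self_pow₀ hl1 (by norm_num)
  have hη1 : η ≤ 1 / (4 * l) := by
    rw [hη, div_le_div_iff₀ (by positivity) (by positivity)]
    nlinarith
  have h4l : 1 / (4 * l) ≤ 1 / 16 := one_div_le_one_div_of_le (by norm_num) (by linarith)
  have h42 : 1 / (4 * l) ≤ 1 / (2 * l) := one_div_le_one_div_of_le (by positivity) (by linarith)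
  have hη16 : η ≤ 1 / 16 := hη1.trans h4l
  have hηC : C * l ^ 3 * η = C * c1 := by rw [hη]; field_simp
  have hCc1 : C * c1 = 1 / (64 * Z) := by rw [hc1]; field_simp
  have hcη : c / l ^ 3 ≤ η := by
    rw [hη]; gcongr
  have hlow := hz q χ hχ2 (1 + η) (by linarith) (by linarith)
  rw [add_sub_cancel_left] at hlow
  by_cases hex : ∃ β : ℝ, 1 - c / l ^ 3 ≤ β ∧ β < 1 ∧ LFunction χ (β : ℂ) = 0
  · right
    obtain ⟨β, hβ1, hβ2, hβ0⟩ := hex
    refine ⟨β, hβ1, hβ2, hβ0, ?_⟩
    set F : ℂ → ℂ := dslope (LFunction χ) (β : ℂ) with hF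
    have hFd : Differentiable ℂ F := by
      rw [← differentiableOn_univ]
      exact (Complex.differentiableOn_dslope (by simp)).2 hdiff.differentiableOn
    have hβd : ‖(β : ℂ) - 1‖ ≤ η := by
      have e : (β : ℂ) - 1 = ((β - 1 : ℝ) : ℂ) := by push_cast; ring
      rw [e, Complex.norm_real, Real.norm_eq_abs, abs_le]
      constructor <;> linarith
    -- bound for F
    have hFb : ∀ s : ℂ, ‖s - 1‖ ≤ 1 / (2 * l) → ‖F s‖ ≤ C * l ^ 2 := by
      intro s hs
      by_cases hsb : s = (β : ℂ)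
      · rw [hF, hsb, dslope_same]
        exact hderiv _ (by rw [← hsb]; exact hs)
      · rw [hF, dslope_of_ne _ hsb, slope_def_field, norm_div]
        have a1 := lip_disc hdiff hderiv (s := (β : ℂ)) (t := s) (hβd.trans (hη1.trans h42)) hs
        rw [div_le_iff₀ (norm_pos_iff.2 (sub_ne_zero.2 hsb))]
        exact a1
    have hFd1 : ∀ s : ℂ, ‖s - 1‖ ≤ 1 / (4 * l) → ‖deriv F s‖ ≤ 4 * C * l ^ 3 :=
      fun s hs => second_deriv hC hl hFd hFb s hs
    -- the value at `1 + η`
    have h1η : ‖((1 + η : ℝ) : ℂ) - 1‖ ≤ η := by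
      have e : ((1 + η : ℝ) : ℂ) - 1 = ((η : ℝ) : ℂ) := by push_cast; ring
      rw [e, Complex.norm_real, Real.norm_of_nonneg hη0.le]
    have hval : 1 / (2 * Z) ≤ ‖F ((1 + η : ℝ) : ℂ)‖ := by
      have hne : ((1 + η : ℝ) : ℂ) ≠ (β : ℂ) := by
        intro h
        have : 1 + η = β := by exact_mod_cast h
        linarith
      rw [hF, dslope_of_ne _ hne, slope_def_field, norm_div, hβ0, sub_zero]
      have e : ((1 + η : ℝ) : ℂ) - (β : ℂ) = ((1 + η - β : ℝ) : ℂ) := by push_cast; ring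
      rw [e, Complex.norm_real, Real.norm_of_nonneg (by linarith)]
      have e2 : 1 + η - β ≤ 2 * η := by linarith
      calc 1 / (2 * Z) = (η / Z) / (2 * η) := by field_simp
        _ ≤ (η / Z) / (1 + η - β) := by
          apply div_le_div_of_nonneg_left (by positivity) (by linarith) e2
        _ ≤ _ := by
          apply div_le_div_of_nonneg_right hlow (by linarith)
    intro s hs
    have hs' : ‖s - 1‖ ≤ η := hs.trans hcη
    constructor
    · have a1 := lip_disc hFd hFd1 (s := s) (t := ((1 + η : ℝ) : ℂ)) (hs'.trans hη1) (h1η.trans hη1)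
      have a2 : ‖((1 + η : ℝ) : ℂ) - s‖ ≤ 2 * η := by
        have := norm_sub_le (((1 + η : ℝ) : ℂ) - 1) (s - 1)
        rw [sub_sub_sub_cancel_right] at this
        linarith
      have a3 : 4 * C * l ^ 3 * ‖((1 + η : ℝ) : ℂ) - s‖ ≤ 1 / (8 * Z) := by
        calc 4 * C * l ^ 3 * ‖((1 + η : ℝ) : ℂ) - s‖ ≤ 4 * C * l ^ 3 * (2 * η) := by gcongr
          _ = 8 * (C * l ^ 3 * η) := by ring
          _ = 1 / (8 * Z) := by rw [hηC, hCc1]; field_simp; norm_num
      have a4 : ‖F ((1 + η : ℝ) : ℂ)‖ ≤ ‖F s‖ + ‖F ((1 + η : ℝ) : ℂ) - F s‖ := by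
        have := norm_add_le (F s) (F ((1 + η : ℝ) : ℂ) - F s)
        rwa [add_sub_cancel] at this
      have a5 : 1 / (2 * Z) = 4 * (1 / (8 * Z)) := by field_simp; norm_num
      have a6 : c ≤ 1 / (8 * Z) := by
        refine hcc1.trans ?_
        rw [hc1]
        apply one_div_le_one_div_of_le (by positivity)
        have : Z ≤ Z * C := le_mul_of_one_le_right hZ0.le hC
        nlinarith
      have a7 : 0 < 1 / (8 * Z) := by positivity
      linarith
    · refine (hFd1 s (hs'.trans hη1)).trans ?_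
      rw [le_div_iff₀ hc0]
      have a1 : 4 * C * c ≤ 1 := by
        calc 4 * C * c ≤ 4 * C * c1 := by gcongr
          _ = 4 * (C * c1) := by ring
          _ = 4 * (1 / (64 * Z)) := by rw [hCc1]
          _ ≤ 1 := by
            rw [mul_one_div, div_le_one (by positivity)]
            linarith
      calc 4 * C * l ^ 3 * c = (4 * C * c) * l ^ 3 := by ring
        _ ≤ 1 * l ^ 3 := by gcongr
        _ ≤ l ^ 4 := by
          rw [one_mul]
          exact pow_le_pow_right₀ hl1 (by norm_num)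
  · left
    push Not at hex
    -- a smaller step
    set ε : ℝ := c / l ^ 3 with hε
    have hε0 : 0 < ε := by positivity
    have hεη : ε ≤ η := hcη
    have hposE : 0 < (LFunction χ ((1 - ε : ℝ) : ℂ)).re :=
      L_pos hχ2 hχ1 (by linarith) (by linarith) (fun y hy1 hy2 => hex y hy1 hy2)
    have hlowE := hz q χ hχ2 (1 + ε) (by linarith) (by linarith)
    rw [add_sub_cancel_left] at hlowE
    -- real parts
    have hreal : ∀ x : ℝ, 0 < x → LFunction χ (x : ℂ) = (((LFunction χ (x : ℂ)).re : ℝ) : ℂ) := by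
      intro x hx
      apply Complex.ext
      · simp
      · simpa using LFunction_im hχ2 hχ1 hx
    have hpos1 : ∀ x : ℝ, 1 - ε ≤ x → x ≤ 2 → 0 < (LFunction χ (x : ℂ)).re := by
      intro x hx1 hx2
      by_contra hcon
      push Not at hcon
      have hcont : ContinuousOn (fun y : ℝ => (LFunction χ (y : ℂ)).re) (Icc x 2) := by
        apply Continuous.continuousOn
        exact Complex.continuous_re.comp (hdiff.continuous.comp Complex.continuous_ofReal)
      have e2 : (0 : ℝ) ≤ (LFunction χ ((2 : ℝ) : ℂ)).re := by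
        have := LFunction_two_re (χ := χ)
        have e : ((2 : ℝ) : ℂ) = 2 := by norm_num
        rw [e]
        linarith
      obtain ⟨y, ⟨hy1, hy2⟩, hy3⟩ := intermediate_value_Icc hx2 hcont ⟨hcon, e2⟩
      have hy0 : LFunction χ (y : ℂ) = 0 := by
        rw [hreal y (by linarith)]
        simpa using hy3
      rcases lt_or_ge y 1 with h4 | h4
      · exact hex y (by linarith) h4 hy0
      · exact LFunction_ne_zero_of_one_le_re χ (Or.inl hχ1) (by simpa using h4) hy0
    have hnorm : ∀ x : ℝ, 1 - ε ≤ x → x ≤ 2 → ‖LFunction χ (x : ℂ)‖ = (LFunction χ (x : ℂ)).re := by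
      intro x hx1 hx2
      rw [hreal x (by linarith), Complex.norm_real, Real.norm_of_nonneg (hpos1 x hx1 hx2).le]
      simp
    -- second difference
    have hdiff2 : ‖LFunction χ ((1 + ε : ℝ) : ℂ) + LFunction χ ((1 - ε : ℝ) : ℂ) - 2 * LFunction χ 1‖ ≤
        8 * C * l ^ 3 * ε ^ 2 := by
      have hε4 : ε ≤ 1 / (4 * l) := hεη.trans hη1
      set g : ℂ → ℂ := fun t => LFunction χ (1 + t) + LFunction χ (1 - t) with hg
      have hgd : Differentiable ℂ g := by
        intro t
        exact ((hdiff _).comp t (by fun_prop)).add ((hdiff _).comp t (by fun_prop))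
      have hgder : ∀ t : ℂ, deriv g t = deriv (LFunction χ) (1 + t) - deriv (LFunction χ) (1 - t) := by
        intro t
        have a1 : HasDerivAt (fun t : ℂ => LFunction χ (1 + t)) (deriv (LFunction χ) (1 + t)) t :=
          HasDerivAt.comp_const_add 1 t (hdiff (1 + t)).hasDerivAt
        have a2 : HasDerivAt (fun t : ℂ => LFunction χ (1 - t)) (-deriv (LFunction χ) (1 - t)) t :=
          HasDerivAt.comp_const_sub 1 t (hdiff (1 - t)).hasDerivAt
        have a3 : HasDerivAt g (deriv (LFunction χ) (1 + t) + -deriv (LFunction χ) (1 - t)) t := a1.add a2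
        rw [a3.deriv]
        ring
      have hgb : ∀ t ∈ Metric.closedBall (0 : ℂ) ε, ‖deriv g t‖ ≤ 8 * C * l ^ 3 * ε := by
        intro t ht
        rw [mem_closedBall_zero_iff] at ht
        rw [hgder]
        have a1 := lip_disc (f := deriv (LFunction χ)) hdd hd2 (s := 1 - t) (t := 1 + t)
          (by rw [sub_sub_cancel_left, norm_neg]; linarith) (by rw [add_sub_cancel_left]; linarith)
        refine a1.trans ?_
        have e : (1 : ℂ) + t - (1 - t) = 2 * t := by ring
        rw [e, norm_mul, Complex.norm_ofNat]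
        calc 4 * C * l ^ 3 * (2 * ‖t‖) ≤ 4 * C * l ^ 3 * (2 * ε) := by gcongr
          _ = _ := by ring
      have key := Convex.norm_image_sub_le_of_norm_deriv_le (fun t _ => hgd t) hgb
        (convex_closedBall (0 : ℂ) ε) (x := 0) (y := (ε : ℂ)) (by simp [hε0.le])
        (by rw [mem_closedBall_zero_iff, Complex.norm_real, Real.norm_of_nonneg hε0.le])
      have e1 : g (ε : ℂ) - g 0 = LFunction χ ((1 + ε : ℝ) : ℂ) + LFunction χ ((1 - ε : ℝ) : ℂ) - 2 * LFunction χ 1 := by
        rw [hg]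
        simp only
        push_cast
        rw [add_zero, sub_zero]
        ring
      rw [e1, sub_zero, Complex.norm_real, Real.norm_of_nonneg hε0.le] at key
      calc _ ≤ 8 * C * l ^ 3 * ε * ε := key
        _ = _ := by ring
    -- lower bound at one
    have hone : ε / (4 * Z) ≤ ‖LFunction χ 1‖ := by
      have n1 := hnorm (1 + ε) (by linarith) (by linarith)
      have a1 : (LFunction χ ((1 + ε : ℝ) : ℂ)).re + (LFunction χ ((1 - ε : ℝ) : ℂ)).re -
          2 * (LFunction χ 1).re ≤ 8 * C * l ^ 3 * ε ^ 2 := by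
        have := (Complex.re_le_norm _).trans hdiff2
        simpa using this
      have a2 : 8 * C * l ^ 3 * ε ^ 2 ≤ ε / (2 * Z) := by
        have b1 : 8 * C * l ^ 3 * ε ≤ 1 / (2 * Z) := by
          calc 8 * C * l ^ 3 * ε ≤ 8 * C * l ^ 3 * η := by gcongr
            _ = 8 * (C * l ^ 3 * η) := by ring
            _ = 1 / (8 * Z) := by rw [hηC, hCc1]; field_simp; norm_num
            _ ≤ 1 / (2 * Z) := one_div_le_one_div_of_le (by positivity) (by linarith)
        calc 8 * C * l ^ 3 * ε ^ 2 = (8 * C * l ^ 3 * ε) * ε := by ring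
          _ ≤ 1 / (2 * Z) * ε := by gcongr
          _ = _ := by ring
      have a3 : (LFunction χ 1).re ≤ ‖LFunction χ 1‖ := Complex.re_le_norm _
      have a4 : ε / Z = 4 * (ε / (4 * Z)) := by field_simp
      have a5 : ε / (2 * Z) = 2 * (ε / (4 * Z)) := by field_simp; norm_num
      linarith
    -- around one
    intro s hs
    have hs1 : ‖s - 1‖ ≤ 1 / (2 * l) := by
      refine hs.trans ?_
      rw [div_le_div_iff₀ (by positivity) (by positivity)]
      have : l ≤ l ^ 6 := le_self_pow₀ hl1 (by norm_num)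
      nlinarith
    have a1 := lip_disc hdiff hderiv (s := s) (t := 1) hs1 (by rw [sub_self, norm_zero]; positivity)
    rw [norm_sub_rev 1 s] at a1
    have a2 : ‖LFunction χ 1‖ ≤ ‖LFunction χ s‖ + ‖LFunction χ 1 - LFunction χ s‖ := by
      have := norm_add_le (LFunction χ s) (LFunction χ 1 - LFunction χ s)
      rwa [add_sub_cancel] at this
    have a3 : C * l ^ 2 * ‖s - 1‖ ≤ C * c' / l ^ 4 := by
      calc C * l ^ 2 * ‖s - 1‖ ≤ C * l ^ 2 * (c' / l ^ 6) := by gcongr
        _ = _ := by field_simp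
    have hεZ : ε / (4 * Z) = c * l / (4 * Z) / l ^ 4 := by
      rw [hε]; field_simp
    have a4 : C * c' + c' ≤ c * l / (4 * Z) := by
      have b1 : C * c' + c' ≤ 2 * (C * c') := by nlinarith
      have b2 : 2 * (C * c') = c / (4 * Z) := by rw [hc']; field_simp; norm_num
      have b3 : c / (4 * Z) ≤ c * l / (4 * Z) := by
        apply div_le_div_of_nonneg_right _ (by positivity)
        nlinarith
      linarith
    have a5 : C * c' / l ^ 4 + c' / l ^ 4 ≤ ε / (4 * Z) := by
      rw [hεZ, ← add_div]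
      exact div_le_div_of_nonneg_right a4 (by positivity)
    linarith

end

end Run7.h402.PT
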