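import Mathlib
import Pool.Agent.H378R2.M1b

/-! The 3-4-1 inequality away from the real axis (for real characters, including exceptional ones). -/

set_option autoImplicit false

open MeasureTheory Filter Topology Set

namespace Run7.h402.PT

open Pool.Agent.H378R2.M1
open Pool.Agent.Erdos456 (zeta_bound triv_bound four_prod two_pow_omega_le)
open DirichletCharacter

noncomputable section

/-- the region away from the real axis -/
theorem off_axis : ∃ d1 d2 : ℝ, 0 < d1 ∧ d1 ≤ 1 / 2 ∧ 0 < d2 ∧ d2 ≤ 1 / 2 ∧
    (∀ l : ℝ, 4 ≤ l → ∀ (q : ℕ) [NeZero q] (χ : DirichletCharacter ℂ q), χ ≠ 1 →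
      Real.log q ≤ l →
      ∀ s : ℂ, |s.re - 1| ≤ d2 / l ^ 18 → Real.log (2 * |s.im| + 3) ≤ l →
        (χ ^ 2 = 1 → d1 / l ^ 9 < |s.im|) →
        LFunction χ s ≠ 0 ∧ ‖deriv (LFunction χ) s / LFunction χ s‖ ≤ l ^ 18 / d2) := by
  obtain ⟨C, hC, h1, h2, h3⟩ := L_lip
  obtain ⟨Z, hZ, hz⟩ := zeta_bound
  have hC0 : 0 < C := by linarith
  have hZ0 : 0 < Z := by linarith
  set d1 : ℝ := 1 / (64 * Z * C ^ 3) with hd1
  have hC3 : 1 ≤ C ^ 3 := one_le_pow₀ hC
  have hC4 : 1 ≤ C ^ 4 := one_le_pow₀ hC
  have hZ3 : 1 ≤ Z ^ 3 := one_le_pow₀ hZ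
  have hd1p : 0 < d1 := by positivity
  have hd1le : d1 ≤ 1 / 64 := by
    rw [hd1]
    apply one_div_le_one_div_of_le (by norm_num)
    have : 1 ≤ Z * C ^ 3 := one_le_mul_of_one_le_of_one_le hZ hC3
    linarith
  set B1 : ℝ := 15 + 2 / d1 with hB1
  have hB1p : 15 ≤ B1 := by
    have : 0 < 2 / d1 := by positivity
    linarith
  have hB0 : 0 < B1 := by linarith
  set D : ℝ := 256 * C ^ 5 * Z ^ 3 * B1 with hD
  have hC5 : 1 ≤ C ^ 5 := one_le_pow₀ hC
  have hDB : B1 ≤ D := aux2 hC hZ hB0.le
  have hD0 : 0 < D := by linarith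
  set d2 : ℝ := 1 / D with hd2
  have hd2p : 0 < d2 := by positivity
  have hd2d1 : d2 ≤ d1 := by
    have e : 1 / B1 ≤ d1 := by
      rw [div_le_iff₀ hB0, hB1]
      have : d1 * (15 + 2 / d1) = 15 * d1 + 2 := by field_simp
      rw [this]
      linarith
    exact (one_div_le_one_div_of_le hB0 hDB).trans e
  refine ⟨d1, d2, hd1p, by linarith, hd2p, by linarith, ?_⟩
  · intro l hl q _ χ hχ hql s hsre hsim hoff
    have hl0 : 0 < l := by linarith
    have hl1 : 1 ≤ l := by linarith
    have hl18 : 1 ≤ l ^ 18 := one_le_pow₀ hl1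
    have hl17 : 1 ≤ l ^ 17 := one_le_pow₀ hl1
    set x : ℝ := d2 / l ^ 18 with hx
    have hx0 : 0 < x := by positivity
    have hx2l : x ≤ 1 / (4 * l) := aux1 hd2p.le (by linarith) hl1 (by norm_num)
    have h4l : 1 / (4 * l) ≤ 1 / 16 := one_div_le_one_div_of_le (by norm_num) (by linarith)
    have h24 : 1 / (2 * l) = 1 / (4 * l) + 1 / (4 * l) := by field_simp; norm_num
    have hx16 : x ≤ 1 / 16 := by linarith
    rw [abs_le] at hsre
    have hsr1 : 1 - 1 / (2 * l) ≤ s.re := by linarith [hsre.1]
    have hsr2 : s.re ≤ 3 / 2 := by linarith [hsre.2]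
    have hY0 := abs_nonneg s.im
    have hlog3 : Real.log (|s.im| + 3) ≤ l :=
      (Real.log_le_log (by positivity) (by linarith)).trans hsim
    -- the lower bound
    have hlow : C * d2 / l ^ 16 ≤ ‖LFunction χ s‖ := by
      · -- 3-4-1
        have hBound : ‖LFunction (χ ^ 2) (1 + x + 2 * Complex.I * s.im)‖ ≤ C * B1 * l ^ 10 := by
          have hre : (1 + (x:ℂ) + 2 * Complex.I * s.im).re = 1 + x := by simp
          have him : (1 + (x:ℂ) + 2 * Complex.I * s.im).im = 2 * s.im := by simp
          have hlog2 : Real.log (|2 * s.im| + 2) ≤ l := by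
            rw [abs_mul, abs_of_pos (by norm_num : (0:ℝ) < 2)]
            exact (Real.log_le_log (by positivity) (by linarith)).trans hsim
          have hl10 : l ≤ l ^ 10 := le_self_pow₀ hl1 (by norm_num)
          by_cases hsq : χ ^ 2 = 1
          · have him2 : d1 / l ^ 9 < |s.im| := by
              exact hoff hsq
            have hp0 : 0 < d1 / l ^ 9 := by positivity
            have hne : (1 + (x:ℂ) + 2 * Complex.I * s.im) ≠ 1 := by
              intro h
              have := congrArg Complex.re h
              rw [hre, Complex.one_re] at this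
              linarith
            rw [hsq]
            have key := triv_upper hl hql (s := 1 + (x:ℂ) + 2 * Complex.I * s.im)
              (by rw [hre]; linarith) (by rw [hre]; linarith) hne (by rw [him]; exact hlog2)
            have hn : 2 * (d1 / l ^ 9) ≤ ‖(1 + (x:ℂ) + 2 * Complex.I * s.im) - 1‖ := by
              have h5 := Complex.abs_im_le_norm ((1 + (x:ℂ) + 2 * Complex.I * s.im) - 1)
              rw [Complex.sub_im, him, Complex.one_im, sub_zero, abs_mul,
                abs_of_pos (by norm_num : (0:ℝ) < 2)] at h5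
              linarith
            have h6 : 1 / ‖(1 + (x:ℂ) + 2 * Complex.I * s.im) - 1‖ ≤ l ^ 9 / (2 * d1) := by
              refine (one_div_le_one_div_of_le (by positivity) hn).trans (le_of_eq ?_)
              field_simp
            have h7 : 3 * l * (5 * l + 1 / ‖(1 + (x:ℂ) + 2 * Complex.I * s.im) - 1‖) ≤
                B1 * l ^ 10 := by
              calc _ ≤ 3 * l * (5 * l + l ^ 9 / (2 * d1)) := by gcongr
                _ = 15 * l ^ 2 + (3 / 2) / d1 * l ^ 10 := by field_simp; ring
                _ ≤ 15 * l ^ 10 + 2 / d1 * l ^ 10 := by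
                    gcongr
                    · norm_num
                    · norm_num
                _ = B1 * l ^ 10 := by rw [hB1]; ring
            have h8 : B1 * l ^ 10 ≤ C * B1 * l ^ 10 := by
              have : B1 ≤ C * B1 := le_mul_of_one_le_left hB0.le hC
              gcongr
            exact key.trans (h7.trans h8)
          · have key := h1 l hl q (χ ^ 2) hsq hql (1 + (x:ℂ) + 2 * Complex.I * s.im)
              (by rw [hre]; have : 0 < 1 / l := by positivity
                  linarith) (by rw [hre]; linarith) (by rw [him]; exact hlog2)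
            refine key.trans ?_
            calc C * l ≤ C * l ^ 10 := by gcongr
              _ ≤ C * B1 * l ^ 10 := by
                have : C ≤ C * B1 := le_mul_of_one_le_right hC0.le (by linarith)
                gcongr
        have hm : 3 * C * l ^ 2 * x ≤ ‖LFunction χ (1 + x + Complex.I * s.im)‖ := by
          apply three_four_one hZ hz χ hx0 (by linarith) (B := C * B1 * l ^ 10) (by positivity)
            (by positivity) hBound
          exact aux3 hC0 hZ0 hB0 hx0 (by rw [hx]; field_simp) hd2
        have hre2 : (1 + (x:ℂ) + Complex.I * s.im).re = 1 + x := by simp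
        have h4lp : 0 < 1 / (4 * l) := by positivity
        have key := h3 l hl q χ hχ hql (1 + x + Complex.I * s.im) s
          (by rw [hre2]; linarith) (by rw [hre2]; linarith) hsr1 hsr2 |s.im| (by simp) le_rfl hlog3
        have hdist : ‖(1 + (x:ℂ) + Complex.I * s.im) - s‖ ≤ 2 * x := by
          have e : (1 + (x:ℂ) + Complex.I * s.im) - s = ((1 + x - s.re : ℝ) : ℂ) := by
            apply Complex.ext <;> simp
          rw [e, Complex.norm_real, Real.norm_eq_abs, abs_le]
          constructor <;> linarith [hsre.1, hsre.2]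
        have h6 : C * l ^ 2 * ‖(1 + (x:ℂ) + Complex.I * s.im) - s‖ ≤ 2 * C * l ^ 2 * x := by
          calc _ ≤ C * l ^ 2 * (2 * x) := by gcongr
            _ = _ := by ring
        have h7 : ‖LFunction χ (1 + x + Complex.I * s.im)‖ ≤ ‖LFunction χ s‖ +
            ‖LFunction χ (1 + x + Complex.I * s.im) - LFunction χ s‖ := by
          have := norm_add_le (LFunction χ s)
            (LFunction χ (1 + x + Complex.I * s.im) - LFunction χ s)
          rwa [add_sub_cancel] at this
        have h8 : C * d2 / l ^ 16 = C * l ^ 2 * x := by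
          rw [hx]; field_simp
        rw [h8]
        have e9 : 3 * C * l ^ 2 * x = 2 * C * l ^ 2 * x + C * l ^ 2 * x := by ring
        linarith
    have hpos : 0 < C * d2 / l ^ 16 := by positivity
    have hne : LFunction χ s ≠ 0 := by
      intro h
      rw [h, norm_zero] at hlow
      linarith
    refine ⟨hne, ?_⟩
    rw [norm_div]
    calc ‖deriv (LFunction χ) s‖ / ‖LFunction χ s‖ ≤ (C * l ^ 2) / (C * d2 / l ^ 16) := by
          apply div_le_div₀ (by positivity) _ hpos hlow
          exact h2 l hl q χ hχ hql s hsr1 hsr2 hlog3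
      _ = l ^ 18 / d2 := by field_simp

end

end Run7.h402.PT
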