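import Mathlib
import Pool.Agent.N658.SP.ZP
import Pool.Agent.N475.SP.SC
import Pool.Agent.N457.SP.TEL
import Pool.Agent.Run7.h402.PT.A1
import Pool.Agent.Run7.h402.PT.A2

/-!
# The prime number theorem for an exceptional character: `∑ Λ(n) χ(n) + n ^ (β - 1)` is small
-/

set_option autoImplicit false

open MeasureTheory Filter Topology Set

namespace Run7.h402.PT

open Pool.Agent.H378R2.M1
open Pool.Agent.H378R2 (Phi)
open Pool.Agent.N728.SP (PP PL S_TEL)
open Pool.Agent.N475.SP (dom)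
open DirichletCharacter
open ArithmeticFunction (vonMangoldt)

noncomputable section

theorem zeta0_bound : ∃ B : ℝ, 1 ≤ B ∧ ∀ s : ℂ, 1 / 2 ≤ s.re → ‖riemannZeta₀ s‖ ≤ B * (‖s‖ + 1) := by
  obtain ⟨B0, hB0⟩ := (isCompact_closedBall (1 : ℂ) 1).exists_bound_of_continuousOn
    (f := riemannZeta₀) differentiable_riemannZeta₀.continuous.continuousOn
  refine ⟨max B0 10, le_trans (by norm_num) (le_max_right _ _), fun s hs => ?_⟩
  have hn := norm_nonneg s
  rcases le_or_gt ‖s - 1‖ 1 with h | h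
  · have h1 := hB0 s (by rwa [mem_closedBall_iff_norm])
    calc ‖riemannZeta₀ s‖ ≤ B0 := h1
      _ ≤ max B0 10 := le_max_left _ _
      _ = max B0 10 * 1 := (mul_one _).symm
      _ ≤ _ := by
        gcongr
        linarith
  · have hd0 : 0 < ‖s - 1‖ := by linarith
    have hne : s - 1 ≠ 0 := norm_pos_iff.1 hd0
    have e1 : riemannZeta₀ s = (riemannZeta₁ s - 1) / (s - 1) := by
      unfold riemannZeta₁
      field_simp
      ring
    have h2 := Pool.Agent.H437R2.z1_norm_le hs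
    have h3 := norm_sub_le (riemannZeta₁ s) 1
    rw [norm_one] at h3
    have h4 : ‖s‖ + 1 ≤ 3 * ‖s - 1‖ := by
      have := norm_add_le (s - 1) 1
      rw [sub_add_cancel, norm_one] at this
      linarith
    rw [e1, norm_div, div_le_iff₀ hd0]
    have h5 : (1 : ℝ) ≤ (‖s‖ + 1) * ‖s - 1‖ := by nlinarith
    calc ‖riemannZeta₁ s - 1‖ ≤ 3 * (‖s‖ + 1) ^ 2 + 1 := by linarith
      _ ≤ 3 * ((‖s‖ + 1) * (3 * ‖s - 1‖)) + (‖s‖ + 1) * ‖s - 1‖ := by
        have : (‖s‖ + 1) ^ 2 ≤ (‖s‖ + 1) * (3 * ‖s - 1‖) := by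
          rw [pow_two]; gcongr
        linarith
      _ = 10 * (‖s‖ + 1) * ‖s - 1‖ := by ring
      _ ≤ max B0 10 * (‖s‖ + 1) * ‖s - 1‖ := by
        gcongr
        exact le_max_right _ _

/-- the exceptional coefficients -/
def ax {q : ℕ} (χ : DirichletCharacter ℂ q) (β : ℝ) (n : ℕ) : ℂ :=
  ((vonMangoldt n : ℝ) : ℂ) * χ (n : ZMod q) + (((n : ℝ) ^ (β - 1) : ℝ) : ℂ)

/-- the completed function -/
def Gx {q : ℕ} [NeZero q] (χ : DirichletCharacter ℂ q) (β : ℝ) (s : ℂ) : ℂ :=
  -(deriv (dslope (LFunction χ) (β : ℂ)) s / dslope (LFunction χ) (β : ℂ) s) + riemannZeta₀ (s + 1 - β)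

theorem dslope_diff {q : ℕ} [NeZero q] {χ : DirichletCharacter ℂ q} (hχ : χ ≠ 1) (β : ℂ) :
    Differentiable ℂ (dslope (LFunction χ) β) := by
  rw [← differentiableOn_univ]
  exact (Complex.differentiableOn_dslope (by simp)).2 (differentiable_LFunction hχ).differentiableOn

theorem L_factor {q : ℕ} [NeZero q] (χ : DirichletCharacter ℂ q) {β : ℂ} (h0 : LFunction χ β = 0) (s : ℂ) :
    LFunction χ s = (s - β) * dslope (LFunction χ) β s := by
  have := sub_smul_dslope (LFunction χ) β s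
  rw [h0, sub_zero, smul_eq_mul] at this
  exact this.symm

theorem logder {q : ℕ} [NeZero q] {χ : DirichletCharacter ℂ q} (hχ : χ ≠ 1) {β : ℂ} (h0 : LFunction χ β = 0)
    {s : ℂ} (hs : LFunction χ s ≠ 0) :
    deriv (LFunction χ) s / LFunction χ s =
      1 / (s - β) + deriv (dslope (LFunction χ) β) s / dslope (LFunction χ) β s := by
  have hsb : s - β ≠ 0 := by
    intro h
    apply hs
    rw [L_factor χ h0 s, h, zero_mul]
  have hF : dslope (LFunction χ) β s ≠ 0 := by
    intro h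
    apply hs
    rw [L_factor χ h0 s, h, mul_zero]
  have hd : deriv (LFunction χ) s = dslope (LFunction χ) β s + (s - β) * deriv (dslope (LFunction χ) β) s := by
    have h1 : LFunction χ = fun z => (z - β) * dslope (LFunction χ) β z := by
      funext z
      exact L_factor χ h0 z
    have h2 : HasDerivAt (fun z => (z - β) * dslope (LFunction χ) β z)
        (1 * dslope (LFunction χ) β s + (s - β) * deriv (dslope (LFunction χ) β) s) s :=
      ((hasDerivAt_id s).sub_const β).mul (dslope_diff hχ β s).hasDerivAt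
    rw [one_mul] at h2
    rw [← h2.deriv]
    congr 1
  rw [hd, L_factor χ h0 s]
  field_simp

theorem Gx_diff {q : ℕ} [NeZero q] {χ : DirichletCharacter ℂ q} (hχ : χ ≠ 1) {β : ℝ} {s : ℂ}
    (hF : dslope (LFunction χ) (β : ℂ) s ≠ 0) : DifferentiableAt ℂ (Gx χ β) s := by
  unfold Gx
  have hd := dslope_diff hχ (β : ℂ)
  have hdd : DifferentiableAt ℂ (deriv (dslope (LFunction χ) (β : ℂ))) s :=
    (hd.analyticAt s).deriv.differentiableAt
  refine ((hdd.div (hd s) hF).neg).add ?_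
  exact (differentiable_riemannZeta₀ _).comp s (by fun_prop)

theorem term_pow (β : ℝ) (s : ℂ) (n : ℕ) :
    LSeries.term (fun n : ℕ => (((n : ℝ) ^ (β - 1) : ℝ) : ℂ)) s n = LSeries.term (1 : ℕ → ℂ) (s + 1 - β) n := by
  rcases Nat.eq_zero_or_pos n with h | h
  · subst h; simp
  · rw [LSeries.term_of_ne_zero h.ne', LSeries.term_of_ne_zero h.ne', Pi.one_apply]
    have hn : (n : ℂ) ≠ 0 := by exact_mod_cast h.ne'
    rw [Complex.ofReal_cpow (Nat.cast_nonneg n), Complex.ofReal_natCast, div_eq_div_iff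
      (by rw [Ne, Complex.cpow_eq_zero_iff]; tauto) (by rw [Ne, Complex.cpow_eq_zero_iff]; tauto), one_mul,
      ← Complex.cpow_add _ _ hn]
    congr 1
    push_cast
    ring

theorem LS_ax {q : ℕ} [NeZero q] {χ : DirichletCharacter ℂ q} (hχ : χ ≠ 1) {β : ℝ} (hβ : β < 1)
    (h0 : LFunction χ (β : ℂ) = 0) {s : ℂ} (hs : 1 < s.re) :
    LSeriesSummable (ax χ β) s ∧ LSeries (ax χ β) s = Gx χ β s := by
  have hL : LFunction χ s ≠ 0 := LFunction_ne_zero_of_one_le_re χ (Or.inl hχ) hs.le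
  have hs1 : 1 < (s + 1 - (β : ℂ)).re := by simp; linarith
  have e0 : ax χ β = aT χ + (fun n : ℕ => (((n : ℝ) ^ (β - 1) : ℝ) : ℂ)) := by
    funext n
    unfold ax aT
    simp only [Pi.add_apply]
    ring
  have a1 : LSeriesSummable (aT χ) s := by
    refine Summable.of_norm_bounded (vM_summable (c := s.re) hs) (fun n => term_norm χ s n)
  have e1 : LSeries.term (fun n : ℕ => (((n : ℝ) ^ (β - 1) : ℝ) : ℂ)) s = LSeries.term (1 : ℕ → ℂ) (s + 1 - β) := by
    funext n
    exact term_pow β s n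
  have a2 : LSeriesSummable (fun n : ℕ => (((n : ℝ) ^ (β - 1) : ℝ) : ℂ)) s := by
    unfold LSeriesSummable
    rw [e1]
    exact LSeriesSummable_one_iff.2 hs1
  refine ⟨by rw [e0]; exact a1.add a2, ?_⟩
  have a3 : LSeries (fun n : ℕ => (((n : ℝ) ^ (β - 1) : ℝ) : ℂ)) s = riemannZeta (s + 1 - β) := by
    rw [← LSeries_one_eq_riemannZeta hs1]
    unfold LSeries
    rw [e1]
  rw [e0, LSeries_add a1 a2, G_eq χ hs, a3]
  have hne : s + 1 - (β : ℂ) ≠ 1 := by
    intro h
    rw [h] at hs1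
    simp at hs1
  rw [riemannZeta_eq_inv_sub_add hne]
  unfold G Gx
  rw [neg_div, logder hχ h0 hL]
  have e2 : s + 1 - (β : ℂ) - 1 = s - β := by ring
  rw [e2, one_div]
  ring

theorem ax_sum : ∃ C : ℝ, 1 ≤ C ∧ ∀ (q : ℕ) (χ : DirichletCharacter ℂ q) (β : ℝ), β < 1 → ∀ c : ℝ, 1 < c → c ≤ 2 →
    Summable (fun n : ℕ => ‖LSeries.term (ax χ β) (c : ℂ) n‖) ∧
      ∑' n : ℕ, ‖LSeries.term (ax χ β) (c : ℂ) n‖ ≤ C / (c - 1) ^ 2 := by
  obtain ⟨C, hC1, hC⟩ := vM_sum_bound
  obtain ⟨Z, hZ1, hZ⟩ := Pool.Agent.Erdos456.zeta_bound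
  refine ⟨C + Z, by linarith, fun q χ β hβ c hc hc2 => ?_⟩
  have hs1 := vM_summable hc
  have hs2 : Summable (fun n : ℕ => 1 / (n : ℝ) ^ c) := Real.summable_one_div_nat_rpow.mpr hc
  have hb : ∀ n : ℕ, ‖LSeries.term (ax χ β) (c : ℂ) n‖ ≤
      ArithmeticFunction.vonMangoldt n * (n : ℝ) ^ (-c) + 1 / (n : ℝ) ^ c := by
    intro n
    rcases Nat.eq_zero_or_pos n with h | h
    · subst h
      simp
      positivity
    · have hn1 : (1 : ℝ) ≤ n := by exact_mod_cast h
      rw [LSeries.norm_term_eq, if_neg h.ne', Complex.ofReal_re, Real.rpow_neg (Nat.cast_nonneg n),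
        ← div_eq_mul_inv, ← add_div]
      gcongr
      unfold ax
      refine (norm_add_le _ _).trans ?_
      gcongr
      · rw [norm_mul, Complex.norm_real, Real.norm_of_nonneg ArithmeticFunction.vonMangoldt_nonneg]
        exact mul_le_of_le_one_right ArithmeticFunction.vonMangoldt_nonneg (χ.norm_le_one _)
      · rw [Complex.norm_real, Real.norm_of_nonneg (by positivity)]
        exact Real.rpow_le_one_of_one_le_of_nonpos hn1 (by linarith)
  have hs : Summable (fun n : ℕ => ‖LSeries.term (ax χ β) (c : ℂ) n‖) :=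
    Summable.of_nonneg_of_le (fun n => norm_nonneg _) hb (hs1.add hs2)
  refine ⟨hs, ?_⟩
  have hz : ∑' n : ℕ, 1 / (n : ℝ) ^ c ≤ Z / (c - 1) := by
    have h1 := hZ c hc hc2
    have h2 : riemannZeta ((c : ℝ) : ℂ) = ((∑' n : ℕ, 1 / (n : ℝ) ^ c : ℝ) : ℂ) := by
      rw [zeta_eq_tsum_one_div_nat_cpow (by simpa using hc)]
      rw [Complex.ofReal_tsum]
      congr 1
      funext n
      push_cast
      rw [Complex.ofReal_cpow (Nat.cast_nonneg n)]
      push_cast
      rfl
    rw [h2, Complex.norm_real] at h1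
    exact (le_abs_self _).trans h1
  have hc0 : 0 < c - 1 := by linarith
  calc ∑' n : ℕ, ‖LSeries.term (ax χ β) (c : ℂ) n‖
      ≤ ∑' n : ℕ, (ArithmeticFunction.vonMangoldt n * (n : ℝ) ^ (-c) + 1 / (n : ℝ) ^ c) :=
        hs.tsum_le_tsum hb (hs1.add hs2)
    _ = (∑' n : ℕ, ArithmeticFunction.vonMangoldt n * (n : ℝ) ^ (-c)) + ∑' n : ℕ, 1 / (n : ℝ) ^ c :=
        hs1.tsum_add hs2
    _ ≤ C / (c - 1) ^ 2 + Z / (c - 1) := add_le_add (hC c hc hc2) hz
    _ ≤ C / (c - 1) ^ 2 + Z / (c - 1) ^ 2 := by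
        have : Z / (c - 1) ≤ Z / (c - 1) ^ 2 := by
          gcongr
          nlinarith
        linarith
    _ = _ := by ring

/-- the tent-weighted sum for the exceptional character -/
theorem exc_tent (c : ℝ) (hc : 0 < c) : ∃ l0 : ℝ, ∀ l : ℝ, l0 ≤ l → ∀ (q : ℕ) [NeZero q] (χ : DirichletCharacter ℂ q),
    χ ≠ 1 → Real.log q ≤ l → ∀ β : ℝ, 1 - c / l ^ 3 ≤ β → β < 1 → LFunction χ (β : ℂ) = 0 →
    (∀ s : ℂ, ‖s - 1‖ ≤ c / l ^ 3 → c ≤ ‖dslope (LFunction χ) (β : ℂ) s‖ ∧
          ‖deriv (dslope (LFunction χ) (β : ℂ)) s‖ ≤ l ^ 4 / c) →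
    ∀ z : ℝ, Real.exp (l ^ 22 / 2) ≤ z → z ≤ Real.exp (l ^ 42) →
      ‖PP (ax χ β) z‖ ≤ z * Real.exp (-(15 * l / 16)) := by
  obtain ⟨d1, d2, hd10, hd11, hd20, hd21, hoff⟩ := off_axis
  obtain ⟨B, hB1, hB⟩ := zeta0_bound
  obtain ⟨C, hC1, hsum⟩ := ax_sum
  obtain ⟨a1, ha1⟩ := dom (768 * (1 / d2 + 1 / d1 + 1 / (c * c) + 4 * B)) (1 / 16) 18 (by norm_num)
  obtain ⟨a2, ha2⟩ := dom (192 * C) (1 / 16) 84 (by norm_num)
  refine ⟨max (max a1 a2) (max (max (4 / d2) 4) (max (2 / c) (4 * c))), fun l hl q _ χ hχ hql β hβ1 hβ2 hβ0 hF z hz1 hz2 => ?_⟩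
  have hla1 : a1 ≤ l := ((le_max_left _ _).trans (le_max_left _ _)).trans hl
  have hla2 : a2 ≤ l := ((le_max_right _ _).trans (le_max_left _ _)).trans hl
  have hld : 4 / d2 ≤ l := (((le_max_left _ _).trans (le_max_left _ _)).trans (le_max_right _ _)).trans hl
  have hl4 : 4 ≤ l := (((le_max_right _ _).trans (le_max_left _ _)).trans (le_max_right _ _)).trans hl
  have hlc : 2 / c ≤ l := (((le_max_left _ _).trans (le_max_right _ _)).trans (le_max_right _ _)).trans hl
  have hlc2 : 4 * c ≤ l := (((le_max_right _ _).trans (le_max_right _ _)).trans (le_max_right _ _)).trans hl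
  have hl1 : 1 ≤ l := by linarith
  have hl0 : 0 < l := by linarith
  have hdl : 4 ≤ d2 * l := by
    rw [div_le_iff₀ hd20] at hld
    linarith
  have hcl : 2 ≤ c * l := by
    rw [div_le_iff₀ hc] at hlc
    linarith
  have hD1 := ha1 l hla1
  have hD2 := ha2 l hla2
  have hz0 : 0 < z := (Real.exp_pos _).trans_le hz1
  have hlz1 : l ^ 22 / 2 ≤ Real.log z := by
    rw [Real.le_log_iff_exp_le hz0]; exact hz1
  have hlz2 : Real.log z ≤ l ^ 42 := by
    rw [Real.log_le_iff_le_exp hz0]; exact hz2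
  have hp22 : l ≤ l ^ 22 := le_self_pow₀ hl1 (by norm_num)
  have hlz0 : 1 < Real.log z := by linarith
  have hzpos : 0 < Real.log z := by linarith
  have hz1' : 1 ≤ z := by
    have h1 : (0 : ℝ) ≤ l ^ 22 / 2 := by positivity
    exact (Real.one_le_exp h1).trans hz1
  set δ : ℝ := d2 / l ^ 18 with hδ
  set T : ℝ := (Real.exp l - 3) / 2 with hT
  have hδ0 : 0 < δ := by positivity
  have hexp6 : 6 ≤ Real.exp l := by
    have h1 := Real.add_one_le_exp (l / 2)
    have h2 : Real.exp l = Real.exp (l / 2) * Real.exp (l / 2) := by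
      rw [← Real.exp_add]; congr 1; ring
    have h3 : 3 ≤ Real.exp (l / 2) := by linarith
    rw [h2]
    nlinarith
  have hT1 : 1 ≤ T := by rw [hT]; linarith
  have hT4 : Real.exp l / 4 ≤ T := by rw [hT]; linarith
  have hTl : T ≤ Real.exp l := by rw [hT]; linarith [Real.exp_pos l]
  have hδ4 : δ ≤ 1 / 4 := by
    rw [hδ, div_le_iff₀ (by positivity)]
    have h2 : l ≤ l ^ 18 := le_self_pow₀ hl1 (by norm_num)
    linarith
  -- `δ log z ≥ 3 l`
  have hδz : 3 * l ≤ δ * Real.log z := by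
    have h1 : δ * (l ^ 22 / 2) = (d2 * l) * l ^ 3 / 2 := by
      rw [hδ]; field_simp
    have h2 : 2 * l ≤ l ^ 3 := by
      calc 2 * l ≤ l * l := by nlinarith
        _ = l ^ 2 := by ring
        _ ≤ l ^ 3 := pow_le_pow_right₀ hl1 (by norm_num)
    have h3 : 4 * l ^ 3 ≤ (d2 * l) * l ^ 3 := by gcongr
    have h4 : δ * (l ^ 22 / 2) ≤ δ * Real.log z := by gcongr
    linarith
  set cc : ℝ := 1 + 1 / Real.log z with hcc
  have hc1 : 1 < cc := by
    rw [hcc]
    have : 0 < 1 / Real.log z := by positivity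
    linarith
  have hcδ : cc ≤ 1 + δ := by
    rw [hcc]
    have h2 : 1 / Real.log z ≤ δ := by
      rw [div_le_iff₀ hzpos]; linarith
    linarith
  have hzc : z ^ cc ≤ 3 * z := by
    rw [hcc, Real.rpow_add hz0, Real.rpow_one]
    have h1 : z ^ (1 / Real.log z) = Real.exp 1 := by
      rw [Real.rpow_def_of_pos hz0, mul_one_div_cancel hzpos.ne']
    rw [h1]
    have := Real.exp_one_lt_d9
    nlinarith
  obtain ⟨hs, hA⟩ := hsum q χ β hβ2 cc hc1 (by linarith)
  have hA' : ∑' n : ℕ, ‖LSeries.term (ax χ β) (cc : ℂ) n‖ ≤ C * (Real.log z) ^ 2 := by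
    refine hA.trans (le_of_eq ?_)
    have h1 : cc - 1 = 1 / Real.log z := by rw [hcc]; ring
    rw [h1]
    field_simp
  set M : ℝ := (1 / d2 + 1 / d1 + 1 / (c * c)) * l ^ 18 + 4 * B * Real.exp l with hM
  have hM0 : 0 ≤ M := by positivity
  have hp18 : 1 ≤ l ^ 18 := one_le_pow₀ hl1
  have hnear : ∀ s : ℂ, |s.re - 1| ≤ δ → |s.im| ≤ d1 / l ^ 9 → ‖s - 1‖ ≤ c / l ^ 3 := by
    intro s h1 h2
    have h3 := Complex.norm_le_abs_re_add_abs_im (s - 1)
    rw [Complex.sub_re, Complex.one_re, Complex.sub_im, Complex.one_im, sub_zero] at h3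
    refine h3.trans ?_
    have h4 : δ ≤ 1 / l ^ 4 := by
      rw [hδ]
      apply div_le_div₀ zero_le_one (by linarith) (by positivity)
      exact pow_le_pow_right₀ hl1 (by norm_num)
    have h5 : d1 / l ^ 9 ≤ 1 / l ^ 4 := by
      apply div_le_div₀ zero_le_one (by linarith) (by positivity)
      exact pow_le_pow_right₀ hl1 (by norm_num)
    have h6 : 1 / l ^ 4 + 1 / l ^ 4 ≤ c / l ^ 3 := by
      rw [← add_div, div_le_div_iff₀ (by positivity) (by positivity)]
      calc (1 + 1) * l ^ 3 ≤ (c * l) * l ^ 3 := by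
            gcongr
            linarith
        _ = c * l ^ 4 := by ring
    linarith
  have hcont := Pool.Agent.N658.SP.ZP.contour (ax χ β) (Gx χ β) (X := z) (c := cc) (δ := δ) (T := T)
    (M := M) (A := C * (Real.log z) ^ 2) hz1' hc1 hδ0 hδ4 hcδ hzc hT1 hM0 hs hA'
    (fun s h1 => (LS_ax hχ hβ2 hβ0 h1).2)
    (fun s h1 => by
      apply Gx_diff hχ
      intro h
      have hL : LFunction χ s ≠ 0 := LFunction_ne_zero_of_one_le_re χ (Or.inl hχ) h1.le
      apply hL
      rw [L_factor χ hβ0 s, h, mul_zero]) (by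
      intro s h1 h2
      -- the zeta part
      have hre := abs_le.1 h1
      have hw : ‖riemannZeta₀ (s + 1 - β)‖ ≤ 4 * B * Real.exp l := by
        have b1 := hB (s + 1 - β) (by simp; linarith [hre.1])
        have b2 : ‖s + 1 - (β : ℂ)‖ ≤ 3 + T := by
          have b3 := Complex.norm_le_abs_re_add_abs_im (s + 1 - (β : ℂ))
          have e1 : (s + 1 - (β : ℂ)).re = s.re + 1 - β := by simp
          have e2 : (s + 1 - (β : ℂ)).im = s.im := by simp
          rw [e1, e2] at b3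
          have b4 : |s.re + 1 - β| ≤ 3 := by
            have hβ3 : 1 - β ≤ 1 := by
              have : c / l ^ 3 ≤ 1 := by
                rw [div_le_one (by positivity)]
                have : l ≤ l ^ 3 := le_self_pow₀ hl1 (by norm_num)
                linarith
              linarith
            rw [abs_le]
            constructor <;> linarith [hre.1, hre.2]
          linarith
        calc ‖riemannZeta₀ (s + 1 - β)‖ ≤ B * (‖s + 1 - (β : ℂ)‖ + 1) := b1
          _ ≤ B * (3 + T + 1) := by gcongr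
          _ ≤ B * (4 * Real.exp l) := by
            gcongr
            rw [hT]
            linarith
          _ = _ := by ring
      rcases le_or_gt |s.im| (d1 / l ^ 9) with h3 | h3
      · obtain ⟨f1, f2⟩ := hF s (hnear s h1 h3)
        have hF0 : dslope (LFunction χ) (β : ℂ) s ≠ 0 := by
          intro h
          rw [h, norm_zero] at f1
          linarith
        refine ⟨Gx_diff hχ hF0, ?_⟩
        unfold Gx
        refine (norm_add_le _ _).trans ?_
        rw [norm_neg, norm_div]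
        have g1 : ‖deriv (dslope (LFunction χ) (β : ℂ)) s‖ / ‖dslope (LFunction χ) (β : ℂ) s‖ ≤ 1 / (c * c) * l ^ 18 := by
          calc _ ≤ (l ^ 4 / c) / c := by gcongr
            _ = 1 / (c * c) * l ^ 4 := by field_simp
            _ ≤ 1 / (c * c) * l ^ 18 := by
              gcongr
              norm_num
        have g2 : 0 ≤ (1 / d2 + 1 / d1) * l ^ 18 := by positivity
        rw [hM]
        linarith
      · obtain ⟨f1, f2⟩ := hoff l hl4 q χ hχ hql s h1 (by
          have h5 : 2 * |s.im| + 3 ≤ Real.exp l := by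
            rw [hT] at h2; linarith
          rw [Real.log_le_iff_le_exp (by positivity)]
          exact h5) (fun _ => h3)
        have hF0 : dslope (LFunction χ) (β : ℂ) s ≠ 0 := by
          intro h
          apply f1
          rw [L_factor χ hβ0 s, h, mul_zero]
        refine ⟨Gx_diff hχ hF0, ?_⟩
        have hld := logder hχ hβ0 f1
        have e1 : deriv (dslope (LFunction χ) (β : ℂ)) s / dslope (LFunction χ) (β : ℂ) s =
            deriv (LFunction χ) s / LFunction χ s - 1 / (s - β) := by rw [hld]; ring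
        unfold Gx
        refine (norm_add_le _ _).trans ?_
        rw [norm_neg, e1]
        have g1 : ‖(1 : ℂ) / (s - β)‖ ≤ 1 / d1 * l ^ 18 := by
          have i1 := Complex.abs_im_le_norm (s - (β : ℂ))
          have i2 : (s - (β : ℂ)).im = s.im := by simp
          rw [i2] at i1
          have i3 : d1 / l ^ 9 ≤ ‖s - (β : ℂ)‖ := by linarith
          rw [norm_div, norm_one]
          calc 1 / ‖s - (β : ℂ)‖ ≤ 1 / (d1 / l ^ 9) := one_div_le_one_div_of_le (by positivity) i3
            _ = 1 / d1 * l ^ 9 := by field_simp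
            _ ≤ 1 / d1 * l ^ 18 := by
              gcongr
              norm_num
        have g2 := norm_sub_le (deriv (LFunction χ) s / LFunction χ s) (1 / (s - (β : ℂ)))
        have g3 : l ^ 18 / d2 = 1 / d2 * l ^ 18 := by ring
        rw [g3] at f2
        have g4 : 0 ≤ (1 / (c * c)) * l ^ 18 := by positivity
        rw [hM]
        linarith)
  have hPP : PP (ax χ β) z =
      ∑ n ∈ Finset.Icc 1 ⌊3 * z⌋₊, ((Phi (n / z) : ℝ) : ℂ) * ax χ β n := rfl
  rw [hPP]
  refine hcont.trans ?_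
  set E : ℝ := Real.exp (-(15 * l / 16)) with hE
  have hE0 : 0 < E := Real.exp_pos _
  have hexpl : 0 < Real.exp l := Real.exp_pos l
  have hMb : M ≤ (1 / d2 + 1 / d1 + 1 / (c * c) + 4 * B) * l ^ 18 * Real.exp l := by
    rw [hM]
    have k1 : (1 / d2 + 1 / d1 + 1 / (c * c)) * l ^ 18 ≤ (1 / d2 + 1 / d1 + 1 / (c * c)) * l ^ 18 * Real.exp l := by
      apply le_mul_of_one_le_right (by positivity)
      linarith
    have k2 : 4 * B * Real.exp l ≤ 4 * B * l ^ 18 * Real.exp l := by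
      have : 4 * B ≤ 4 * B * l ^ 18 := le_mul_of_one_le_right (by linarith) hp18
      gcongr
    calc _ ≤ (1 / d2 + 1 / d1 + 1 / (c * c)) * l ^ 18 * Real.exp l + 4 * B * l ^ 18 * Real.exp l := add_le_add k1 k2
      _ = _ := by ring
  have hM768 : 768 * M ≤ Real.exp (1 / 16 * l) * Real.exp l := by
    calc 768 * M ≤ 768 * ((1 / d2 + 1 / d1 + 1 / (c * c) + 4 * B) * l ^ 18 * Real.exp l) := by gcongr
      _ = (768 * (1 / d2 + 1 / d1 + 1 / (c * c) + 4 * B) * l ^ 18) * Real.exp l := by ring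
      _ ≤ _ := by gcongr
  have hT0 : 0 < T := by linarith
  -- the three terms
  have hzδ : z ^ (1 - δ) ≤ z * Real.exp (-(3 * l)) := by
    rw [sub_eq_add_neg, Real.rpow_add hz0, Real.rpow_one, Real.rpow_def_of_pos hz0]
    gcongr
    linarith
  have t1 : 48 * (z ^ (1 - δ) * M) ≤ z * E := by
    calc 48 * (z ^ (1 - δ) * M) ≤ 48 * (z * Real.exp (-(3 * l)) * M) := by gcongr
      _ = z * (48 * M * Real.exp (-(3 * l))) := by ring
      _ ≤ z * (768 * M * Real.exp (-(3 * l))) := by gcongr; norm_num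
      _ ≤ z * (Real.exp (1 / 16 * l) * Real.exp l * Real.exp (-(3 * l))) := by gcongr
      _ = z * Real.exp (1 / 16 * l + l + -(3 * l)) := by rw [← Real.exp_add, ← Real.exp_add]
      _ ≤ z * E := by
        rw [hE]
        gcongr
        linarith
  have hT2 : 1 / T ^ 2 ≤ 16 * Real.exp (-(2 * l)) := by
    have h1 : (Real.exp l / 4) ^ 2 ≤ T ^ 2 := by gcongr
    have h2 : Real.exp (-(2 * l)) * (Real.exp l) ^ 2 = 1 := by
      rw [← Real.exp_nat_mul, ← Real.exp_add]
      norm_num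
    rw [div_le_iff₀ (by positivity)]
    calc (1 : ℝ) = 16 * Real.exp (-(2 * l)) * (Real.exp l / 4) ^ 2 := by
          linear_combination -h2
      _ ≤ 16 * Real.exp (-(2 * l)) * T ^ 2 := by gcongr
  have t2 : 48 * (z * M / T ^ 2) ≤ z * E := by
    calc 48 * (z * M / T ^ 2) = z * (48 * M * (1 / T ^ 2)) := by ring
      _ ≤ z * (48 * M * (16 * Real.exp (-(2 * l)))) := by gcongr
      _ = z * (768 * M * Real.exp (-(2 * l))) := by ring
      _ ≤ z * (Real.exp (1 / 16 * l) * Real.exp l * Real.exp (-(2 * l))) := by gcongr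
      _ = z * E := by
        rw [hE, ← Real.exp_add, ← Real.exp_add]
        congr 2
        ring
  have hT3 : 1 / T ≤ 4 * Real.exp (-l) := by
    have h2 : Real.exp (-l) * Real.exp l = 1 := by
      rw [← Real.exp_add]
      norm_num
    rw [div_le_iff₀ hT0]
    calc (1 : ℝ) = 4 * Real.exp (-l) * (Real.exp l / 4) := by
          linear_combination -h2
      _ ≤ 4 * Real.exp (-l) * T := by gcongr
  have hAl : C * Real.log z ^ 2 ≤ C * l ^ 84 := by
    have h1 : Real.log z ^ 2 ≤ (l ^ 42) ^ 2 := by gcongr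
    have h2 : (l ^ 42) ^ 2 = l ^ 84 := by ring
    rw [h2] at h1
    gcongr
  have t3 : 48 * (z * (C * Real.log z ^ 2) / T) ≤ z * E := by
    calc 48 * (z * (C * Real.log z ^ 2) / T) = z * (48 * (C * Real.log z ^ 2) * (1 / T)) := by ring
      _ ≤ z * (48 * (C * l ^ 84) * (4 * Real.exp (-l))) := by gcongr
      _ = z * ((192 * C * l ^ 84) * Real.exp (-l)) := by ring
      _ ≤ z * (Real.exp (1 / 16 * l) * Real.exp (-l)) := by gcongr
      _ = z * E := by rw [← Real.exp_add, hE]; congr 2; ring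
  linarith

end

end Run7.h402.PT
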