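import Mathlib
import Pool.Agent.N658.SP.ZP
import Pool.Agent.N475.SP.SC
import Pool.Agent.N457.SP.TEL

/-!
# From tent-weighted sums to sharp sums
-/

set_option autoImplicit false

open Finset

namespace Run7.h402.PT

open Pool.Agent.N728.SP (PP PL S_TEL)
open Pool.Agent.N475.SP (dom)

noncomputable section

theorem PL_triv' (c : ℕ → ℂ) (hc : ∀ n : ℕ, 1 ≤ n → ‖c n‖ ≤ Real.log n + 1) (z : ℝ) (hz : 1 ≤ z) :
    ‖PL c z‖ ≤ (Real.log z + 1) * Real.log z * z := by
  unfold PL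
  have hlz : 0 ≤ Real.log z := Real.log_nonneg hz
  have hb : ∀ n ∈ Icc 1 ⌊z⌋₊, ‖c n * ((Real.log (z / n) : ℝ) : ℂ)‖ ≤ (Real.log z + 1) * Real.log z := by
    intro n hn
    rw [mem_Icc] at hn
    have hn0 : (0 : ℝ) < n := by exact_mod_cast (by omega : 0 < n)
    have hn1 : (1 : ℝ) ≤ n := by exact_mod_cast hn.1
    have hnz : (n : ℝ) ≤ z := (Nat.le_floor_iff (by linarith)).1 hn.2
    have h1 : ‖c n‖ ≤ Real.log z + 1 := (hc n hn.1).trans (by
      have := Real.log_le_log hn0 hnz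
      linarith)
    have h3 : ‖((Real.log (z / n) : ℝ) : ℂ)‖ ≤ Real.log z := by
      have h4 : 1 ≤ z / n := by rw [le_div_iff₀ hn0]; linarith
      have h5 : z / n ≤ z := div_le_self (by linarith) hn1
      rw [Complex.norm_real, Real.norm_of_nonneg (Real.log_nonneg h4)]
      exact Real.log_le_log (by linarith) h5
    rw [norm_mul]
    gcongr
  calc _ ≤ ∑ n ∈ Icc 1 ⌊z⌋₊, (Real.log z + 1) * Real.log z := norm_sum_le_of_le _ hb
    _ = (⌊z⌋₊ : ℝ) * ((Real.log z + 1) * Real.log z) := by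
        rw [sum_const, Nat.card_Icc, nsmul_eq_mul]; simp
    _ ≤ z * ((Real.log z + 1) * Real.log z) := by
        gcongr
        exact Nat.floor_le (by linarith)
    _ = _ := by ring

/-- from tents to logarithmic weights -/
theorem tel_gen : ∃ l0 : ℝ, ∀ l : ℝ, l0 ≤ l → ∀ c : ℕ → ℂ, (∀ n : ℕ, 1 ≤ n → ‖c n‖ ≤ Real.log n + 1) →
    (∀ z : ℝ, Real.exp (l ^ 22 / 2) ≤ z → z ≤ Real.exp (l ^ 42) → ‖PP c z‖ ≤ z * Real.exp (-(7 * l / 8))) →
    ∀ x : ℝ, Real.exp (l ^ 22) ≤ x → x ≤ Real.exp (l ^ 42) → ‖PL c x‖ ≤ x * Real.exp (-(3 * l / 4)) := by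
  obtain ⟨a1, ha1⟩ := dom 26 (1 / 4) 86 (by norm_num)
  obtain ⟨a2, ha2⟩ := dom 18 (1 / 8) 2 (by norm_num)
  refine ⟨max (max a1 a2) 4, fun l hl c hc hPP x hx1 hx2 => ?_⟩
  have hla1 : a1 ≤ l := ((le_max_left _ _).trans (le_max_left _ _)).trans hl
  have hla2 : a2 ≤ l := ((le_max_right _ _).trans (le_max_left _ _)).trans hl
  have hl4 : 4 ≤ l := (le_max_right _ _).trans hl
  have hD1 := ha1 l hla1
  have hD2 := ha2 l hla2
  have hlpos : 0 < l := by linarith
  have hl1 : 1 ≤ l := by linarith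
  have hx0 : 0 < x := (Real.exp_pos _).trans_le hx1
  have hlx : Real.log x ≤ l ^ 42 := by
    rw [Real.log_le_iff_le_exp hx0]; exact hx2
  set K : ℕ := ⌈2 * l⌉₊ with hK
  have hK1 : 2 * l ≤ (K : ℝ) := Nat.le_ceil _
  have hK2 : (K : ℝ) ≤ 2 * l + 1 := (Nat.ceil_lt_add_one (by linarith)).le
  have hK3 : (K : ℝ) ≤ 3 * l := by linarith
  have hK0 : 1 ≤ K := by
    rw [hK]
    exact Nat.one_le_ceil_iff.2 (by linarith)
  have hlow : Real.exp (l ^ 22 / 2) ≤ x * Real.exp (-(K / 2)) := by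
    calc Real.exp (l ^ 22 / 2) ≤ Real.exp (l ^ 22) * Real.exp (-(K / 2)) := by
          rw [← Real.exp_add]
          gcongr
          have h1 : l ^ 2 ≤ l ^ 22 := pow_le_pow_right₀ (by linarith) (by norm_num)
          nlinarith
      _ ≤ x * Real.exp (-(K / 2)) := by gcongr
  have hlow1 : 1 ≤ x * Real.exp (-(K / 2)) := by
    have h1 : (0 : ℝ) ≤ l ^ 22 / 2 := by positivity
    exact (Real.one_le_exp h1).trans hlow
  have hTEL := Pool.Agent.N457.SP.t_TEL c x
    (Real.exp (-(7 * l / 8))) (l ^ 85) K hK0 (Real.exp_pos _).le (by positivity) hlow1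
    (by
      intro z hz1 hz2
      have := hPP z (hlow.trans hz1) (hz2.trans hx2)
      linarith [mul_comm z (Real.exp (-(7 * l / 8)))])
    (by
      intro z hz1 hz2
      refine (PL_triv' c hc z hz1).trans ?_
      have h1 : 0 ≤ Real.log z := Real.log_nonneg hz1
      have h2 : Real.log z ≤ l ^ 42 := (Real.log_le_log (by linarith) hz2).trans hlx
      have h42 : 1 ≤ l ^ 42 := one_le_pow₀ hl1
      have h3 : (Real.log z + 1) * Real.log z ≤ l ^ 85 := by
        calc (Real.log z + 1) * Real.log z ≤ (l ^ 42 + l ^ 42) * l ^ 42 := by gcongr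
          _ = 2 * l ^ 84 := by ring
          _ ≤ l * l ^ 84 := by gcongr; linarith
          _ = l ^ 85 := by ring
      gcongr)
  refine hTEL.trans ?_
  have hKe : Real.exp (-(K / 2 : ℝ)) ≤ Real.exp (-l) := by
    gcongr
    linarith
  have s1 : (4 * K + 1) * l ^ 85 * x * Real.exp (-(K / 2)) ≤ x * Real.exp (-(3 * l / 4)) / 2 := by
    have h1 : (4 * (K : ℝ) + 1) ≤ 13 * l := by linarith
    calc (4 * K + 1) * l ^ 85 * x * Real.exp (-(K / 2)) ≤
          (13 * l) * l ^ 85 * x * Real.exp (-l) := by gcongr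
      _ = x * ((26 * l ^ 86) * Real.exp (-l)) / 2 := by ring
      _ ≤ x * (Real.exp (1 / 4 * l) * Real.exp (-l)) / 2 := by gcongr
      _ = x * Real.exp (-(3 * l / 4)) / 2 := by
          rw [← Real.exp_add]; congr 3; ring
  have s2 : (K : ℝ) ^ 2 * Real.exp (-(7 * l / 8)) * x ≤ x * Real.exp (-(3 * l / 4)) / 2 := by
    calc (K : ℝ) ^ 2 * Real.exp (-(7 * l / 8)) * x ≤
          (3 * l) ^ 2 * Real.exp (-(7 * l / 8)) * x := by gcongr
      _ = x * ((18 * l ^ 2) * Real.exp (-(7 * l / 8))) / 2 := by ring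
      _ ≤ x * (Real.exp (1 / 8 * l) * Real.exp (-(7 * l / 8))) / 2 := by gcongr
      _ = x * Real.exp (-(3 * l / 4)) / 2 := by
          rw [← Real.exp_add]; congr 3; ring
  linarith

/-- removing the logarithmic weight -/
theorem unlog (c : ℕ → ℂ) (hc : ∀ n : ℕ, 1 ≤ n → ‖c n‖ ≤ Real.log n + 1) (y : ℕ) (hy : 1 ≤ y) (h ε : ℝ) (hh0 : 0 < h)
    (hh1 : h ≤ 1) (h1 : ‖PL c ((1 + h) * y)‖ ≤ ε * ((1 + h) * y)) (h2 : ‖PL c y‖ ≤ ε * y) (hε : 0 ≤ ε) :
    ‖∑ n ∈ Icc 1 y, c n‖ ≤ 6 * ε / h * y + (h * y + 1) * (Real.log (2 * y) + 1) := by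
  have hy0 : (0 : ℝ) < y := by exact_mod_cast hy
  have hy1 : (1 : ℝ) ≤ y := by exact_mod_cast hy
  set x' : ℝ := (1 + h) * y with hx'
  have hyx : (y : ℝ) ≤ x' := by rw [hx']; nlinarith
  have hx'2 : x' ≤ 2 * y := by rw [hx']; nlinarith
  set y' : ℕ := ⌊x'⌋₊ with hy'
  have hyy' : y ≤ y' := Nat.le_floor hyx
  have hlog0 : 0 < Real.log (1 + h) := Real.log_pos (by linarith)
  have hfl : ⌊(y : ℝ)⌋₊ = y := Nat.floor_natCast y
  have hkey : PL c x' - PL c y = ((Real.log (1 + h) : ℝ) : ℂ) * ∑ n ∈ Icc 1 y, c n +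
      ∑ n ∈ Ioc y y', c n * ((Real.log (x' / n) : ℝ) : ℂ) := by
    unfold PL
    rw [hfl]
    have e1 : Icc 1 y' = Icc 1 y ∪ Ioc y y' := by
      ext n
      rw [mem_union, mem_Icc, mem_Icc, mem_Ioc]
      omega
    rw [← hy', e1, sum_union (by
      rw [disjoint_left]; intro n hn hn'
      rw [mem_Icc] at hn; rw [mem_Ioc] at hn'; omega)]
    have e2 : ∑ n ∈ Icc 1 y, c n * ((Real.log (x' / n) : ℝ) : ℂ) =
        ((Real.log (1 + h) : ℝ) : ℂ) * ∑ n ∈ Icc 1 y, c n + ∑ n ∈ Icc 1 y, c n * ((Real.log (y / n) : ℝ) : ℂ) := by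
      rw [mul_sum, ← sum_add_distrib]
      apply sum_congr rfl
      intro n hn
      rw [mem_Icc] at hn
      have hn0 : (0 : ℝ) < n := by exact_mod_cast hn.1
      have e3 : Real.log (x' / n) = Real.log (1 + h) + Real.log (y / n) := by
        rw [hx', mul_div_assoc, Real.log_mul (by linarith) (by positivity)]
      rw [e3]
      push_cast
      ring
    rw [e2]
    ring
  have hrest : ‖∑ n ∈ Ioc y y', c n * ((Real.log (x' / n) : ℝ) : ℂ)‖ ≤
      (h * y + 1) * ((Real.log (2 * y) + 1) * Real.log (1 + h)) := by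
    have hb : ∀ n ∈ Ioc y y', ‖c n * ((Real.log (x' / n) : ℝ) : ℂ)‖ ≤ (Real.log (2 * y) + 1) * Real.log (1 + h) := by
      intro n hn
      rw [mem_Ioc] at hn
      have hn0 : (0 : ℝ) < n := by exact_mod_cast (by omega : 0 < n)
      have hny : (y : ℝ) ≤ n := by exact_mod_cast hn.1.le
      have hnx : (n : ℝ) ≤ x' := (Nat.le_floor_iff (by linarith)).1 hn.2
      rw [norm_mul, Complex.norm_real]
      have g1 : ‖c n‖ ≤ Real.log (2 * y) + 1 := (hc n (by omega)).trans (by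
        have := Real.log_le_log hn0 (hnx.trans hx'2)
        linarith)
      have g2 : 1 ≤ x' / n := by rw [le_div_iff₀ hn0]; linarith
      have g3 : x' / n ≤ 1 + h := by
        rw [div_le_iff₀ hn0, hx']
        nlinarith
      have g4 : ‖Real.log (x' / n)‖ ≤ Real.log (1 + h) := by
        rw [Real.norm_of_nonneg (Real.log_nonneg g2)]
        exact Real.log_le_log (by linarith) g3
      have g5 : 0 ≤ Real.log (2 * y) := Real.log_nonneg (by linarith)
      gcongr
    refine (norm_sum_le_of_le _ hb).trans ?_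
    rw [sum_const, Nat.card_Ioc, nsmul_eq_mul]
    have g5 : 0 ≤ Real.log (2 * y) := Real.log_nonneg (by linarith)
    have g6 : ((y' - y : ℕ) : ℝ) ≤ h * y + 1 := by
      rw [Nat.cast_sub hyy']
      have : (y' : ℝ) ≤ x' := Nat.floor_le (by linarith)
      rw [hx'] at this
      linarith
    gcongr
  have e4 : ((Real.log (1 + h) : ℝ) : ℂ) * ∑ n ∈ Icc 1 y, c n = PL c x' - PL c y -
      ∑ n ∈ Ioc y y', c n * ((Real.log (x' / n) : ℝ) : ℂ) := by
    rw [hkey]; ring
  have h5 : Real.log (1 + h) * ‖∑ n ∈ Icc 1 y, c n‖ ≤ 3 * ε * y +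
      (h * y + 1) * ((Real.log (2 * y) + 1) * Real.log (1 + h)) := by
    have e5 : Real.log (1 + h) * ‖∑ n ∈ Icc 1 y, c n‖ = ‖((Real.log (1 + h) : ℝ) : ℂ) * ∑ n ∈ Icc 1 y, c n‖ := by
      rw [norm_mul, Complex.norm_real, Real.norm_of_nonneg hlog0.le]
    rw [e5, e4]
    have g1 := norm_sub_le (PL c x' - PL c y) (∑ n ∈ Ioc y y', c n * ((Real.log (x' / n) : ℝ) : ℂ))
    have g2 := norm_sub_le (PL c x') (PL c y)
    have g3 : ε * x' ≤ ε * (2 * y) := by gcongr
    linarith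
  have h6 : h / 2 ≤ Real.log (1 + h) := by
    have g1 := Real.one_sub_inv_le_log_of_pos (show 0 < 1 + h by linarith)
    have g2 : h / 2 ≤ 1 - (1 + h)⁻¹ := by
      have : 1 - (1 + h)⁻¹ = h / (1 + h) := by field_simp; ring
      rw [this]
      apply div_le_div_of_nonneg_left hh0.le (by linarith) (by linarith)
    linarith
  have h7 : ‖∑ n ∈ Icc 1 y, c n‖ ≤ 3 * ε * y / Real.log (1 + h) + (h * y + 1) * (Real.log (2 * y) + 1) := by
    rw [← sub_le_iff_le_add, le_div_iff₀ hlog0]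
    linarith [h5]
  refine h7.trans ?_
  have h8 : 3 * ε * y / Real.log (1 + h) ≤ 6 * ε / h * y := by
    calc 3 * ε * y / Real.log (1 + h) ≤ 3 * ε * y / (h / 2) := by
          apply div_le_div_of_nonneg_left (by positivity) (by linarith) h6
      _ = 6 * ε / h * y := by field_simp; ring
  linarith

/-- sharp sums up to a scale -/
theorem sharp_gen : ∃ l0 : ℝ, ∀ l : ℝ, l0 ≤ l → ∀ c : ℕ → ℂ, (∀ n : ℕ, 1 ≤ n → ‖c n‖ ≤ Real.log n + 1) →
    (∀ z : ℝ, Real.exp (l ^ 22 / 2) ≤ z → z ≤ Real.exp (l ^ 42) → ‖PP c z‖ ≤ z * Real.exp (-(7 * l / 8))) →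
    ∀ X : ℝ, Real.exp (l ^ 23) ≤ X → X ≤ Real.exp (l ^ 41) → ∀ y : ℕ, (y : ℝ) ≤ X →
      ‖∑ n ∈ Icc 1 y, c n‖ ≤ X * Real.exp (-(l / 3)) := by
  obtain ⟨l0, hl0⟩ := tel_gen
  obtain ⟨a1, ha1⟩ := dom 10 (1 / 24) 42 (by norm_num)
  refine ⟨max (max l0 a1) 4, fun l hl c hc hPP X hX1 hX2 y hyX => ?_⟩
  have hll0 : l0 ≤ l := ((le_max_left _ _).trans (le_max_left _ _)).trans hl
  have hla1 : a1 ≤ l := ((le_max_right _ _).trans (le_max_left _ _)).trans hl
  have hl4 : 4 ≤ l := (le_max_right _ _).trans hl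
  have hlpos : 0 < l := by linarith
  have hl1 : 1 ≤ l := by linarith
  have hD1 := ha1 l hla1
  have hPL := hl0 l hll0 c hc hPP
  have hX0 : 0 < X := (Real.exp_pos _).trans_le hX1
  have p22 : l ^ 22 * 4 ≤ l ^ 23 := by
    rw [pow_succ l 22]
    gcongr
  have p22' : l ≤ l ^ 22 := le_self_pow₀ hl1 (by norm_num)
  have p42 : l ^ 41 * 4 ≤ l ^ 42 := by
    rw [pow_succ l 41]
    gcongr
  have p41 : 1 ≤ l ^ 41 := one_le_pow₀ hl1
  rcases Nat.eq_zero_or_pos y with hy0 | hy0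
  · subst hy0
    simp
    positivity
  have hy1 : (1 : ℝ) ≤ y := by exact_mod_cast hy0
  have hyp : (0 : ℝ) < y := by linarith
  rcases lt_or_ge (y : ℝ) (Real.exp (l ^ 22)) with hsm | hbig
  · have hly : Real.log y ≤ l ^ 22 := by
      rw [Real.log_le_iff_le_exp hyp]; exact hsm.le
    have h1 : ‖∑ n ∈ Icc 1 y, c n‖ ≤ y * (Real.log y + 1) := by
      refine (norm_sum_le_of_le _ (fun n hn => ?_)).trans (le_of_eq (by
        rw [sum_const, Nat.card_Icc, nsmul_eq_mul, Nat.add_sub_cancel]))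
      rw [mem_Icc] at hn
      refine (hc n hn.1).trans ?_
      have : Real.log n ≤ Real.log y := Real.log_le_log (by exact_mod_cast hn.1) (by exact_mod_cast hn.2)
      linarith
    refine h1.trans ?_
    have h2 : l ^ 22 + 1 ≤ Real.exp (l ^ 22) := Real.add_one_le_exp _
    calc (y : ℝ) * (Real.log y + 1) ≤ Real.exp (l ^ 22) * (l ^ 22 + 1) := by
          have : 0 ≤ Real.log y := Real.log_nonneg hy1
          gcongr
      _ ≤ Real.exp (l ^ 22) * Real.exp (l ^ 22) := by gcongr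
      _ = Real.exp (l ^ 22 + l ^ 22) := by rw [Real.exp_add]
      _ ≤ Real.exp (l ^ 23 + -(l / 3)) := by
          apply Real.exp_le_exp.2
          linarith
      _ = Real.exp (l ^ 23) * Real.exp (-(l / 3)) := Real.exp_add _ _
      _ ≤ X * Real.exp (-(l / 3)) := by gcongr
  · set h : ℝ := Real.exp (-(3 * l / 8)) with hh
    have hh0 : 0 < h := Real.exp_pos _
    have hh1 : h ≤ 1 := by rw [hh, Real.exp_le_one_iff]; linarith
    have hX4 : 2 * X ≤ Real.exp (l ^ 42) := by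
      calc 2 * X ≤ Real.exp 1 * Real.exp (l ^ 41) := by
            have := Real.add_one_le_exp (1 : ℝ)
            gcongr
            linarith
        _ = Real.exp (1 + l ^ 41) := by rw [Real.exp_add]
        _ ≤ _ := by
            apply Real.exp_le_exp.2
            linarith
    have hy2 : (1 + h) * y ≤ 2 * X := by nlinarith
    have key := unlog c hc y hy0 h (Real.exp (-(3 * l / 4))) hh0 hh1
      ((hPL ((1 + h) * y) (by nlinarith) (hy2.trans hX4)).trans (le_of_eq (mul_comm _ _)))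
      ((hPL y hbig (by linarith)).trans (le_of_eq (mul_comm _ _))) (Real.exp_pos _).le
    refine key.trans ?_
    have e1 : 6 * Real.exp (-(3 * l / 4)) / h = 6 * h := by
      rw [hh, div_eq_iff (Real.exp_pos _).ne', mul_assoc, ← Real.exp_add]
      congr 2
      ring
    have hl2y : Real.log (2 * y) ≤ l ^ 42 := by
      rw [Real.log_le_iff_le_exp (by positivity)]
      linarith
    have hl2y0 : 0 ≤ Real.log (2 * y) := Real.log_nonneg (by linarith)
    have hhX : 1 ≤ h * X := by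
      calc (1 : ℝ) ≤ Real.exp (-(3 * l / 8) + l ^ 22) := by
            apply Real.one_le_exp
            linarith
        _ = h * Real.exp (l ^ 22) := by rw [Real.exp_add]
        _ ≤ h * X := by
            gcongr
            linarith
    rw [e1]
    have p42' : 1 ≤ l ^ 42 := one_le_pow₀ hl1
    calc 6 * h * y + (h * y + 1) * (Real.log (2 * y) + 1) ≤ 6 * h * X + (h * X + h * X) * (l ^ 42 + 1) := by gcongr
      _ = (h * X) * (2 * l ^ 42 + 8) := by ring
      _ ≤ (h * X) * (10 * l ^ 42) := by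
        gcongr
        linarith
      _ ≤ (h * X) * Real.exp (1 / 24 * l) := by gcongr
      _ = X * Real.exp (-(l / 3)) := by
        rw [hh, mul_comm (Real.exp _) X, mul_assoc, ← Real.exp_add]
        congr 2
        ring

end

end Run7.h402.PT
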