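import Mathlib
import Pool.Agent.Run7.h402.PT.A3
import Pool.Agent.Run7.h402.PT.A4

/-!
# Prime sums twisted by all characters of small conductor, with at most one exception
-/

set_option autoImplicit false

open Finset

namespace Run7.h402.PT

open DirichletCharacter Pool.Agent.H378R2 Pool.Agent.H378R2.M1
open Pool.Agent.N728.SP (PP PL)
open Pool.Agent.N475.SP (dom PP_eq)
open Pool.Agent.Erdos456 (mul_char_apply)

noncomputable section

/-- the tent-weighted sum at one point, for one character with a zero-free region -/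
theorem tent1 (d : ℝ) (hd : 0 < d) (hd2 : d ≤ 1 / 2) : ∃ l0 : ℝ, ∀ l : ℝ, l0 ≤ l →
    ∀ (f : ℕ) [NeZero f] (ψ : DirichletCharacter ℂ f), ψ ≠ 1 →
      (∀ s : ℂ, |s.re - 1| ≤ d / l ^ 18 → Real.log (2 * |s.im| + 3) ≤ l →
        ψ.LFunction s ≠ 0 ∧ ‖deriv ψ.LFunction s / ψ.LFunction s‖ ≤ l ^ 18 / d) → ∀ z : ℝ, Real.exp (l ^ 22 / 2) ≤ z →
        z ≤ Real.exp (l ^ 42) → ‖psiPhi ψ z‖ ≤ z * Real.exp (-(15 * l / 16)) := by
  obtain ⟨C, hC1, hC⟩ := vM_sum_bound
  obtain ⟨a1, ha1⟩ := dom (768 / d) 1 18 one_pos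
  obtain ⟨a2, ha2⟩ := dom (192 * C) (1 / 16) 84 (by norm_num)
  refine ⟨max (max a1 a2) (max (4 / d) 4), fun l hl f _ ψ hψ1 hZF z hz1 hz2 => ?_⟩
  have hla1 : a1 ≤ l := ((le_max_left _ _).trans (le_max_left _ _)).trans hl
  have hla2 : a2 ≤ l := ((le_max_right _ _).trans (le_max_left _ _)).trans hl
  have hld : 4 / d ≤ l := ((le_max_left _ _).trans (le_max_right _ _)).trans hl
  have hl4 : 4 ≤ l := ((le_max_right _ _).trans (le_max_right _ _)).trans hl
  have hl1 : 1 ≤ l := by linarith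
  have hl0 : 0 < l := by linarith
  have hdl : 4 ≤ d * l := by
    rw [div_le_iff₀ hd] at hld
    linarith
  have hD1 := ha1 l hla1
  have hD2 := ha2 l hla2
  rw [one_mul] at hD1
  have hz0 : 0 < z := (Real.exp_pos _).trans_le hz1
  have hlz1 : l ^ 22 / 2 ≤ Real.log z := by
    rw [Real.le_log_iff_exp_le hz0]; exact hz1
  have hlz2 : Real.log z ≤ l ^ 42 := by
    rw [Real.log_le_iff_le_exp hz0]; exact hz2
  have hp22 : l ≤ l ^ 22 := le_self_pow₀ hl1 (by norm_num)
  have hlz0 : 1 < Real.log z := by linarith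
  have hzpos : 0 < Real.log z := by linarith
  have hz1' : 1 ≤ z := by
    have h1 : (0 : ℝ) ≤ l ^ 22 / 2 := by positivity
    exact (Real.one_le_exp h1).trans hz1
  set δ : ℝ := d / l ^ 18 with hδ
  set M : ℝ := l ^ 18 / d with hM
  set T : ℝ := (Real.exp l - 3) / 2 with hT
  have hδ0 : 0 < δ := by positivity
  have hM0 : 0 ≤ M := by positivity
  have hexp6 : 6 ≤ Real.exp l := by
    have h1 := Real.add_one_le_exp (l / 2)
    have h2 : Real.exp l = Real.exp (l / 2) * Real.exp (l / 2) := by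
      rw [← Real.exp_add]; congr 1; ring
    have h3 : 3 ≤ Real.exp (l / 2) := by linarith
    rw [h2]
    nlinarith
  have hT1 : 1 ≤ T := by rw [hT]; linarith
  have hT4 : Real.exp l / 4 ≤ T := by rw [hT]; linarith
  have hδ4 : δ ≤ 1 / 4 := by
    rw [hδ, div_le_iff₀ (by positivity)]
    have h2 : l ≤ l ^ 18 := le_self_pow₀ hl1 (by norm_num)
    linarith
  -- `δ log z ≥ 2 l`
  have hδz : 2 * l ≤ δ * Real.log z := by
    have h1 : δ * (l ^ 22 / 2) = (d * l) * l ^ 3 / 2 := by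
      rw [hδ]; field_simp
    have h2 : l ≤ l ^ 3 := le_self_pow₀ hl1 (by norm_num)
    have h3 : 4 * l ^ 3 ≤ (d * l) * l ^ 3 := by gcongr
    have h4 : δ * (l ^ 22 / 2) ≤ δ * Real.log z := by gcongr
    linarith
  set c : ℝ := 1 + 1 / Real.log z with hc
  have hc1 : 1 < c := by
    rw [hc]
    have : 0 < 1 / Real.log z := by positivity
    linarith
  have hcδ : c ≤ 1 + δ := by
    rw [hc]
    have h2 : 1 / Real.log z ≤ δ := by
      rw [div_le_iff₀ hzpos]; linarith
    linarith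
  have hzc : z ^ c ≤ 3 * z := by
    rw [hc, Real.rpow_add hz0, Real.rpow_one]
    have h1 : z ^ (1 / Real.log z) = Real.exp 1 := by
      rw [Real.rpow_def_of_pos hz0, mul_one_div_cancel hzpos.ne']
    rw [h1]
    have := Real.exp_one_lt_d9
    nlinarith
  have hA : ∑' n : ℕ, ArithmeticFunction.vonMangoldt n * (n : ℝ) ^ (-c) ≤
      C * (Real.log z) ^ 2 := by
    refine (hC c hc1 (by linarith)).trans (le_of_eq ?_)
    have h1 : c - 1 = 1 / Real.log z := by rw [hc]; ring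
    rw [h1]
    field_simp
  have hcont := contour ψ hψ1 hz1' hc1 hδ0 hδ4 hcδ hzc hT1 hM0 hA (by
    intro s h1 h2
    refine hZF s h1 ?_
    have h3 : 2 * |s.im| + 3 ≤ Real.exp l := by
      rw [hT] at h2; linarith
    rw [Real.log_le_iff_le_exp (by positivity)]
    exact h3)
  refine hcont.trans ?_
  set E : ℝ := Real.exp (-(15 * l / 16)) with hE
  have hE0 : 0 < E := Real.exp_pos _
  have hM768 : 768 * M ≤ Real.exp l := by
    refine le_trans (le_of_eq ?_) hD1
    rw [hM]; ring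
  have hT0 : 0 < T := by linarith
  have hexpl : 0 < Real.exp l := Real.exp_pos l
  -- the three terms
  have hzδ : z ^ (1 - δ) ≤ z * Real.exp (-(2 * l)) := by
    rw [sub_eq_add_neg, Real.rpow_add hz0, Real.rpow_one, Real.rpow_def_of_pos hz0]
    gcongr
    linarith
  have hMe : 768 * M * Real.exp (-(2 * l)) ≤ E := by
    calc 768 * M * Real.exp (-(2 * l)) ≤ Real.exp l * Real.exp (-(2 * l)) := by gcongr
      _ = Real.exp (-l) := by rw [← Real.exp_add]; congr 1; ring
      _ ≤ E := by rw [hE]; gcongr; linarith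
  have t1 : 48 * (z ^ (1 - δ) * M) ≤ z * E := by
    calc 48 * (z ^ (1 - δ) * M) ≤ 48 * (z * Real.exp (-(2 * l)) * M) := by gcongr
      _ = z * (48 * M * Real.exp (-(2 * l))) := by ring
      _ ≤ z * (768 * M * Real.exp (-(2 * l))) := by gcongr; norm_num
      _ ≤ z * E := by gcongr
  have hT2 : 1 / T ^ 2 ≤ 16 * Real.exp (-(2 * l)) := by
    have h1 : (Real.exp l / 4) ^ 2 ≤ T ^ 2 := by gcongr
    have h2 : Real.exp (-(2 * l)) * (Real.exp l) ^ 2 = 1 := by
      rw [← Real.exp_nat_mul, ← Real.exp_add]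
      norm_num
    rw [div_le_iff₀ (by positivity)]
    calc (1 : ℝ) = 16 * Real.exp (-(2 * l)) * (Real.exp l / 4) ^ 2 := by
          linear_combination -h2
      _ ≤ 16 * Real.exp (-(2 * l)) * T ^ 2 := by gcongr
  have t2 : 48 * (z * M / T ^ 2) ≤ z * E := by
    calc 48 * (z * M / T ^ 2) = z * (48 * M * (1 / T ^ 2)) := by ring
      _ ≤ z * (48 * M * (16 * Real.exp (-(2 * l)))) := by gcongr
      _ = z * (768 * M * Real.exp (-(2 * l))) := by ring
      _ ≤ z * E := by gcongr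
  have hT3 : 1 / T ≤ 4 * Real.exp (-l) := by
    have h2 : Real.exp (-l) * Real.exp l = 1 := by
      rw [← Real.exp_add]
      norm_num
    rw [div_le_iff₀ hT0]
    calc (1 : ℝ) = 4 * Real.exp (-l) * (Real.exp l / 4) := by
          linear_combination -h2
      _ ≤ 4 * Real.exp (-l) * T := by gcongr
  have hAl : C * Real.log z ^ 2 ≤ C * l ^ 84 := by
    have h1 : Real.log z ^ 2 ≤ (l ^ 42) ^ 2 := by gcongr
    have h2 : (l ^ 42) ^ 2 = l ^ 84 := by ring
    rw [h2] at h1
    gcongr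
  have t3 : 48 * (z * (C * Real.log z ^ 2) / T) ≤ z * E := by
    calc 48 * (z * (C * Real.log z ^ 2) / T) = z * (48 * (C * Real.log z ^ 2) * (1 / T)) := by ring
      _ ≤ z * (48 * (C * l ^ 84) * (4 * Real.exp (-l))) := by gcongr
      _ = z * ((192 * C * l ^ 84) * Real.exp (-l)) := by ring
      _ ≤ z * (Real.exp (1 / 16 * l) * Real.exp (-l)) := by gcongr
      _ = z * E := by rw [← Real.exp_add, hE]; congr 2; ring
  linarith


/-- sharp twisted sums are small at the scale `l` -/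
def Small (l : ℝ) (c : ℕ → ℂ) : Prop := ∀ X : ℝ, Real.exp (l ^ 23) ≤ X → X ≤ Real.exp (l ^ 41) → ∀ y : ℕ, (y : ℝ) ≤ X →
  ‖∑ n ∈ Icc 1 y, c n‖ ≤ X * Real.exp (-(l / 3))

/-- the coefficients `Λ χ` -/
def lc {f : ℕ} (ψ : DirichletCharacter ℂ f) (n : ℕ) : ℂ := ((ArithmeticFunction.vonMangoldt n : ℝ) : ℂ) * ψ (n : ZMod f)

theorem lc_norm {f : ℕ} (ψ : DirichletCharacter ℂ f) (n : ℕ) (hn : 1 ≤ n) : ‖lc ψ n‖ ≤ Real.log n := by
  unfold lc
  rw [norm_mul, Complex.norm_real, Real.norm_of_nonneg ArithmeticFunction.vonMangoldt_nonneg]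
  calc ArithmeticFunction.vonMangoldt n * ‖ψ (n : ZMod f)‖ ≤ ArithmeticFunction.vonMangoldt n * 1 :=
        mul_le_mul_of_nonneg_left (ψ.norm_le_one _) ArithmeticFunction.vonMangoldt_nonneg
    _ ≤ Real.log n := by rw [mul_one]; exact ArithmeticFunction.vonMangoldt_le_log

theorem ax_norm {f : ℕ} (ψ : DirichletCharacter ℂ f) (β : ℝ) (hβ : β < 1) (n : ℕ) (hn : 1 ≤ n) :
    ‖ax ψ β n‖ ≤ Real.log n + 1 := by
  unfold ax
  refine (norm_add_le _ _).trans (add_le_add (lc_norm ψ n hn) ?_)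
  rw [Complex.norm_real, Real.norm_of_nonneg (by positivity)]
  exact Real.rpow_le_one_of_one_le_of_nonpos (by exact_mod_cast hn) (by linarith)

/-- the structure of the exceptional character -/
theorem exc_struct : ∃ l0 : ℝ, ∀ l : ℝ, l0 ≤ l →
    (∀ (f : ℕ) [NeZero f], 1 < f → Real.log f ≤ l → ∀ ψ : DirichletCharacter ℂ f, ψ.IsPrimitive → Small l (lc ψ)) ∨
    ∃ (q : ℕ) (_ : NeZero q) (χ : DirichletCharacter ℂ q) (β : ℝ), 1 < q ∧ Real.log q ≤ l ∧ χ.IsPrimitive ∧ χ ^ 2 = 1 ∧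
      1 / 2 ≤ β ∧ β < 1 ∧ LFunction χ (β : ℂ) = 0 ∧ Small l (ax χ β) ∧
      ∀ (f : ℕ) [NeZero f], 1 < f → Real.log f ≤ l → ∀ ψ : DirichletCharacter ℂ f, ψ.IsPrimitive →
        (⟨f, ψ⟩ : Sigma fun n : ℕ => DirichletCharacter ℂ n) ≠ ⟨q, χ⟩ → Small l (lc ψ) := by
  obtain ⟨d1, d2, κ, hd1, hd1', hd2, hd2', hκ, hA, hB⟩ := nzr
  obtain ⟨c, c', hc, hc4, hc'0, hc'c, hdich⟩ := dich
  obtain ⟨l1, h1⟩ := tent1 d2 hd2 hd2'
  obtain ⟨l2, h2⟩ := exc_tent c hc
  obtain ⟨l3, h3⟩ := sharp_gen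
  refine ⟨max (max (max l1 l2) (max l3 4)) (max (d1 / c' + 1) (κ / c' + 1)), fun l hl => ?_⟩
  have hl1 : l1 ≤ l := (((le_max_left _ _).trans (le_max_left _ _)).trans (le_max_left _ _)).trans hl
  have hl2 : l2 ≤ l := (((le_max_right _ _).trans (le_max_left _ _)).trans (le_max_left _ _)).trans hl
  have hl3 : l3 ≤ l := (((le_max_left _ _).trans (le_max_right _ _)).trans (le_max_left _ _)).trans hl
  have hl4 : 4 ≤ l := (((le_max_right _ _).trans (le_max_right _ _)).trans (le_max_left _ _)).trans hl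
  have hl5 : d1 / c' + 1 ≤ l := ((le_max_left _ _).trans (le_max_right _ _)).trans hl
  have hl6 : κ / c' + 1 ≤ l := ((le_max_right _ _).trans (le_max_right _ _)).trans hl
  have hlpos : 0 < l := by linarith
  have hlone : 1 ≤ l := by linarith
  have hE : Real.exp (-(15 * l / 16)) ≤ Real.exp (-(7 * l / 8)) := by
    apply Real.exp_le_exp.2
    linarith
  -- from a region to sharp sums
  have hsmall : ∀ (f : ℕ) [NeZero f] (ψ : DirichletCharacter ℂ f), ψ ≠ 1 →
      (∀ s : ℂ, |s.re - 1| ≤ d2 / l ^ 18 → Real.log (2 * |s.im| + 3) ≤ l →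
        ψ.LFunction s ≠ 0 ∧ ‖deriv ψ.LFunction s / ψ.LFunction s‖ ≤ l ^ 18 / d2) → Small l (lc ψ) := by
    intro f _ ψ hψ hreg
    intro X hX1 hX2 y hy
    refine h3 l hl3 (lc ψ) (fun n hn => (lc_norm ψ n hn).trans (by linarith)) ?_ X hX1 hX2 y hy
    intro z hz1 hz2
    have e : PP (lc ψ) z = psiPhi ψ z := PP_eq ψ z
    rw [e]
    refine (h1 l hl1 f ψ hψ hreg z hz1 hz2).trans ?_
    have hz0 : 0 < z := (Real.exp_pos _).trans_le hz1
    gcongr
  by_cases hex : ∃ f : ℕ, ∃ _ : NeZero f, 1 < f ∧ Real.log f ≤ l ∧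
      ∃ χ : DirichletCharacter ℂ f, χ.IsPrimitive ∧ χ ^ 2 = 1 ∧
        ‖LFunction χ ((1 + d1 / l ^ 9 : ℝ) : ℂ)‖ < κ / l ^ 7
  · right
    obtain ⟨q, hq0, hq1, hql, χ, hχp, hχ2, hχs⟩ := hex
    have hχ1 := primitive_ne_one hq1 hχp
    rcases hdich l hl4 q χ hχ2 hχ1 hql with hI | ⟨β, hβ1, hβ2, hβ0, hF⟩
    · exfalso
      have g1 : ‖((1 + d1 / l ^ 9 : ℝ) : ℂ) - 1‖ ≤ c' / l ^ 6 := by
        have e : ((1 + d1 / l ^ 9 : ℝ) : ℂ) - 1 = ((d1 / l ^ 9 : ℝ) : ℂ) := by push_cast; ring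
        rw [e, Complex.norm_real, Real.norm_of_nonneg (by positivity)]
        rw [div_le_div_iff₀ (by positivity) (by positivity)]
        have g2 : d1 ≤ c' * l := by
          have : d1 / c' ≤ l := by linarith
          rw [div_le_iff₀ hc'0] at this
          linarith
        have g3 : l ≤ l ^ 3 := le_self_pow₀ hlone (by norm_num)
        calc d1 * l ^ 6 ≤ (c' * l ^ 3) * l ^ 6 := by
              gcongr
              exact g2.trans (by gcongr)
          _ = c' * l ^ 9 := by ring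
      have g4 := hI _ g1
      have g5 : κ / l ^ 7 ≤ c' / l ^ 4 := by
        rw [div_le_div_iff₀ (by positivity) (by positivity)]
        have g2 : κ ≤ c' * l := by
          have : κ / c' ≤ l := by linarith
          rw [div_le_iff₀ hc'0] at this
          linarith
        have g3 : l ≤ l ^ 3 := le_self_pow₀ hlone (by norm_num)
        calc κ * l ^ 4 ≤ (c' * l ^ 3) * l ^ 4 := by
              gcongr
              exact g2.trans (by gcongr)
          _ = c' * l ^ 7 := by ring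
      linarith
    · have hβh : 1 / 2 ≤ β := by
        have : c / l ^ 3 ≤ 1 / 4 := by
          have g1 : 1 ≤ l ^ 3 := one_le_pow₀ hlone
          exact (div_le_self hc.le g1).trans hc4
        linarith
      refine ⟨q, hq0, χ, β, hq1, hql, hχp, hχ2, hβh, hβ2, hβ0, ?_, ?_⟩
      · intro X hX1 hX2 y hy
        refine h3 l hl3 (ax χ β) (fun n hn => ax_norm χ β hβ2 n hn) ?_ X hX1 hX2 y hy
        intro z hz1 hz2
        refine (h2 l hl2 q χ hχ1 hql β hβ1 hβ2 hβ0 hF z hz1 hz2).trans ?_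
        have hz0 : 0 < z := (Real.exp_pos _).trans_le hz1
        gcongr
      · intro f hf0 hf1 hfl ψ hψ hne
        refine hsmall f ψ (primitive_ne_one hf1 hψ) ?_
        intro s hs1 hs2
        refine hA l hl4 f ψ (primitive_ne_one hf1 hψ) hfl ?_ s hs1 hs2
        intro hsq
        have hN : NeZero (q * f) := ⟨mul_ne_zero (NeZero.ne q) (NeZero.ne f)⟩
        have hlogN : Real.log ((q * f : ℕ) : ℝ) ≤ 2 * l := by
          push_cast
          rw [Real.log_mul (by exact_mod_cast NeZero.ne q) (by exact_mod_cast NeZero.ne f)]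
          linarith
        refine hB l hl4 q f (q * f) hlogN χ ψ
          (changeLevel (q.dvd_mul_right f) χ * changeLevel (f.dvd_mul_left q) ψ) hχ2 hsq
          (mul_char_apply χ ψ) ?_ hχs
        intro h3
        have e2 : changeLevel (f.dvd_mul_left q) ψ * changeLevel (f.dvd_mul_left q) ψ = 1 := by
          rw [← map_mul, ← pow_two, hsq, map_one]
        have e : changeLevel (q.dvd_mul_right f) χ = changeLevel (f.dvd_mul_left q) ψ := by
          rw [← h3] at e2
          exact (mul_right_cancel e2).symm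
        have e4 := congrArg conductor e
        rw [conductor_changeLevel, conductor_changeLevel, (isPrimitive_def χ).mp hχp,
          (isPrimitive_def ψ).mp hψ] at e4
        subst e4
        have e5 : χ = ψ := changeLevel_injective _ e
        exact hne (by rw [e5])
  · left
    intro f hf0 hf1 hfl ψ hψ
    refine hsmall f ψ (primitive_ne_one hf1 hψ) ?_
    intro s hs1 hs2
    refine hA l hl4 f ψ (primitive_ne_one hf1 hψ) hfl ?_ s hs1 hs2
    intro hsq
    by_contra hcon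
    push Not at hcon
    exact hex ⟨f, hf0, hf1, hfl, ψ, hψ, hsq, hcon⟩

end

end Run7.h402.PT
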