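import Mathlib
import Pool.Agent.H373R2.T7.LamZ2
import Pool.Agent.Run7.h402.PT.A5

/-!
# The sieve model of the primes: progressions and characters
-/

set_option autoImplicit false

open Finset

namespace Run7.h402.PT

open DirichletCharacter
open Pool.Agent.H373R2.T7 (pz Vz lamz mem_pz Vz_pos Vz_inv_le rough_ap lamz_nonneg)

noncomputable section

/-- the sieve level -/
def zl (l : ℝ) : ℕ := ⌊Real.exp l⌋₊

theorem zl_le (l : ℝ) : (zl l : ℝ) ≤ Real.exp l := Nat.floor_le (Real.exp_pos _).le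

theorem zl_gt (l : ℝ) : Real.exp l < (zl l : ℝ) + 1 := Nat.lt_floor_add_one _

theorem zl_one (l : ℝ) (hl : 0 ≤ l) : 1 ≤ zl l := by
  unfold zl
  rw [Nat.one_le_floor_iff]
  exact Real.one_le_exp hl

/-- the pure sieve in progressions, at the scale `l` -/
theorem lamz_cls (l : ℝ) (hl : 8 ≤ l) (X : ℝ) (hX : Real.exp (l ^ 23) ≤ X) (q : ℕ) (hq : 1 ≤ q)
    (hqz : ∀ p, p.Prime → p ∣ q → p ≤ zl l) (c y : ℕ) (hy : (y : ℝ) ≤ X) :
    |∑ n ∈ (Icc 1 y).filter (fun n => n ≡ c [MOD q]), lamz (zl l) n -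
      (if c.Coprime q then (y : ℝ) / (Nat.totient q : ℝ) else 0)| ≤ X * Real.exp (-(3 * l)) := by
  have hl0 : 0 < l := by linarith
  have hl1 : 1 ≤ l := by linarith
  have hX0 : 0 < X := (Real.exp_pos _).trans_le hX
  have hz := zl_one l hl0.le
  set z := zl l with hzd
  have hz1 : (1 : ℝ) ≤ z := by exact_mod_cast hz
  have hzl : (z : ℝ) ≤ Real.exp l := zl_le l
  by_cases hc : c.Coprime q
  · rw [if_pos hc]
    set r : ℕ := ⌈l ^ 2⌉₊ with hr
    have hr1 : l ^ 2 ≤ r := Nat.le_ceil _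
    have hr2 : (r : ℝ) ≤ l ^ 2 + 1 := (Nat.ceil_lt_add_one (by positivity)).le
    have h3 := rough_ap z q c y r hq hc hqz
    have h4 : ∑ n ∈ (Icc 1 y).filter (fun n => n ≡ c [MOD q]), lamz z n =
        (Vz z)⁻¹ * ((((Icc 1 y).filter (fun n => n ≡ c [MOD q])).filter (fun n => ∀ p ∈ pz z, ¬ p ∣ n)).card : ℝ) := by
      unfold lamz
      rw [← sum_filter, sum_const, nsmul_eq_mul, mul_comm]
    rw [h4]
    have h5 : (Vz z)⁻¹ * ((((Icc 1 y).filter (fun n => n ≡ c [MOD q])).filter (fun n => ∀ p ∈ pz z, ¬ p ∣ n)).card : ℝ) -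
        (y : ℝ) / (Nat.totient q : ℝ) = (Vz z)⁻¹ * (((((Icc 1 y).filter (fun n => n ≡ c [MOD q])).filter (fun n => ∀ p ∈ pz z, ¬ p ∣ n)).card : ℝ) -
        (y : ℝ) / (Nat.totient q : ℝ) * Vz z) := by
      have := (Vz_pos z).ne'
      field_simp
    have hV0 : 0 < (Vz z)⁻¹ := inv_pos.2 (Vz_pos z)
    rw [h5, abs_mul, abs_of_pos hV0]
    have hVe : (Vz z)⁻¹ ≤ Real.exp l := (Vz_inv_le z hz).trans hzl
    have hlz : Real.log z ≤ l := by
      rw [Real.log_le_iff_le_exp (by linarith)]; exact hzl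
    have hz1e : (z : ℝ) + 1 ≤ Real.exp (l + 1) := by
      rw [Real.exp_add]
      have h6 := Real.add_one_le_exp (1 : ℝ)
      have h7 : 1 ≤ Real.exp l := Real.one_le_exp hl0.le
      nlinarith
    have h6 : ((z : ℝ) + 1) ^ r ≤ Real.exp ((l + 1) * (l ^ 2 + 1)) := by
      calc ((z : ℝ) + 1) ^ r ≤ Real.exp (l + 1) ^ r := by gcongr
        _ = Real.exp (r * (l + 1)) := by rw [← Real.exp_nat_mul]
        _ ≤ Real.exp ((l + 1) * (l ^ 2 + 1)) := by
            apply Real.exp_le_exp.2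
            rw [mul_comm]
            gcongr
    have h2e : (2 : ℝ) ≤ Real.exp 1 := by
      have := Real.add_one_le_exp (1 : ℝ)
      linarith
    have h4e : (4 : ℝ) ≤ Real.exp 2 := by
      have : Real.exp 2 = Real.exp 1 * Real.exp 1 := by rw [← Real.exp_add]; norm_num
      rw [this]; nlinarith
    have hpoly : (l + 1) * (l ^ 2 + 1) + 4 * l + 1 ≤ l ^ 23 := by
      have h7 : l ^ 5 ≤ l ^ 23 := pow_le_pow_right₀ hl1 (by norm_num)
      have h8 : (l + 1) * (l ^ 2 + 1) + 4 * l + 1 ≤ l ^ 5 := by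
        have a1 : 8 * l ≤ l ^ 2 := by nlinarith
        have a2 : 8 * l ^ 2 ≤ l ^ 3 := by nlinarith [sq_nonneg l]
        have a3 : 8 * l ^ 3 ≤ l ^ 4 := by nlinarith [pow_pos hl0 3]
        have a4 : 8 * l ^ 4 ≤ l ^ 5 := by nlinarith [pow_pos hl0 4]
        nlinarith
      exact h8.trans h7
    have t1 : Real.exp l * ((z : ℝ) + 1) ^ r ≤ X * Real.exp (-(3 * l)) / 2 := by
      rw [le_div_iff₀ (by norm_num)]
      calc Real.exp l * ((z : ℝ) + 1) ^ r * 2 ≤ Real.exp l * Real.exp ((l + 1) * (l ^ 2 + 1)) * Real.exp 1 := by gcongr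
        _ = Real.exp ((l + 1) * (l ^ 2 + 1) + 4 * l + 1) * Real.exp (-(3 * l)) := by
            rw [← Real.exp_add, ← Real.exp_add, ← Real.exp_add]; congr 1; ring
        _ ≤ Real.exp (l ^ 23) * Real.exp (-(3 * l)) := by gcongr
        _ ≤ X * Real.exp (-(3 * l)) := by gcongr
    have h7 : Real.exp (3 * (1 + Real.log z) - r) ≤ Real.exp (3 * (1 + l) - l ^ 2) := by
      apply Real.exp_le_exp.2
      linarith
    have t2 : Real.exp l * (2 * y * Real.exp (3 * (1 + Real.log z) - r)) ≤ X * Real.exp (-(3 * l)) / 2 := by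
      rw [le_div_iff₀ (by norm_num)]
      calc Real.exp l * (2 * y * Real.exp (3 * (1 + Real.log z) - r)) * 2 ≤
          Real.exp l * (2 * X * Real.exp (3 * (1 + l) - l ^ 2)) * 2 := by gcongr
        _ = X * (4 * (Real.exp l * Real.exp (3 * (1 + l) - l ^ 2))) := by ring
        _ ≤ X * (Real.exp 2 * (Real.exp l * Real.exp (3 * (1 + l) - l ^ 2))) := by gcongr
        _ = X * Real.exp (2 + (l + (3 * (1 + l) - l ^ 2))) := by rw [← Real.exp_add, ← Real.exp_add]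
        _ ≤ X * Real.exp (-(3 * l)) := by
            gcongr
            nlinarith
    calc (Vz z)⁻¹ * |((((Icc 1 y).filter (fun n => n ≡ c [MOD q])).filter (fun n => ∀ p ∈ pz z, ¬ p ∣ n)).card : ℝ) -
        (y : ℝ) / (Nat.totient q : ℝ) * Vz z| ≤ Real.exp l * (((z : ℝ) + 1) ^ r + 2 * y * Real.exp (3 * (1 + Real.log z) - r)) :=
          mul_le_mul hVe h3 (abs_nonneg _) (Real.exp_pos _).le
      _ = Real.exp l * ((z : ℝ) + 1) ^ r + Real.exp l * (2 * y * Real.exp (3 * (1 + Real.log z) - r)) := by ring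
      _ ≤ _ := by linarith
  · rw [if_neg hc, sub_zero]
    have h3 : ∑ n ∈ (Icc 1 y).filter (fun n => n ≡ c [MOD q]), lamz z n = 0 := by
      apply sum_eq_zero
      intro n hn
      rw [mem_filter] at hn
      unfold lamz
      rw [if_neg]
      intro h
      obtain ⟨p, hp, hpc, hpq⟩ := Nat.Prime.not_coprime_iff_dvd.1 hc
      exact h p (mem_pz.2 ⟨hqz p hp hpq, hp⟩) ((hn.2.dvd_iff hpq).2 hpc)
    rw [h3, abs_zero]
    positivity

/-- sums over a range as sums over residues -/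
theorem sum_range_zmod' {M : Type*} [AddCommMonoid M] (q : ℕ) [NeZero q] (g : ZMod q → M) :
    ∑ b ∈ Finset.range q, g (b : ZMod q) = ∑ z : ZMod q, g z := by
  refine Finset.sum_nbij' (fun b => (b : ZMod q)) (fun z => z.val) ?_ ?_ ?_ ?_ ?_
  · intro b _; exact Finset.mem_univ _
  · intro z _; exact Finset.mem_range.mpr (ZMod.val_lt _)
  · intro b hb
    exact ZMod.val_natCast_of_lt (Finset.mem_range.mp hb)
  · intro z _
    exact ZMod.natCast_zmod_val z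
  · intro b _; rfl

/-- decomposition into residue classes -/
theorem sum_classes (q : ℕ) (hq : 1 ≤ q) (y : ℕ) (f : ℕ → ℝ) (g : ZMod q → ℂ) :
    ∑ n ∈ Icc 1 y, ((f n : ℝ) : ℂ) * g (n : ZMod q) =
      ∑ c ∈ range q, g (c : ZMod q) * ((∑ n ∈ (Icc 1 y).filter (fun n => n ≡ c [MOD q]), f n : ℝ) : ℂ) := by
  rw [← sum_fiberwise_of_maps_to (s := Icc 1 y) (t := range q)
      (g := fun n => n % q) (fun n _ => mem_range.2 (Nat.mod_lt _ (by omega)))]
  apply sum_congr rfl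
  intro c hc
  rw [mem_range] at hc
  push_cast
  rw [mul_sum]
  have h2 : (Icc 1 y).filter (fun n => n % q = c) = (Icc 1 y).filter (fun n => n ≡ c [MOD q]) := by
    apply filter_congr
    intro n _
    unfold Nat.ModEq
    rw [Nat.mod_eq_of_lt hc]
  rw [h2]
  apply sum_congr rfl
  intro n hn
  rw [mem_filter] at hn
  have h3 : (n : ZMod q) = (c : ZMod q) := (ZMod.natCast_eq_natCast_iff _ _ _).2 hn.2
  rw [h3]
  ring

open Classical in
/-- the model twisted by characters -/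
theorem lamz_char (l : ℝ) (hl : 8 ≤ l) (X : ℝ) (hX : Real.exp (l ^ 23) ≤ X) (q : ℕ) [NeZero q]
    (hqz : ∀ p, p.Prime → p ∣ q → p ≤ zl l) (ψ : DirichletCharacter ℂ q) (y : ℕ) (hy : (y : ℝ) ≤ X) :
    ‖∑ n ∈ Icc 1 y, ((lamz (zl l) n : ℝ) : ℂ) * ψ (n : ZMod q) - (if ψ = 1 then (y : ℂ) else 0)‖ ≤
      q * (X * Real.exp (-(3 * l))) := by
  have hq : 1 ≤ q := NeZero.one_le
  rw [sum_classes q hq y (lamz (zl l)) (fun a => ψ a)]
  have h1 : (if ψ = 1 then (y : ℂ) else 0) =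
      ∑ c ∈ range q, ψ (c : ZMod q) * (((if c.Coprime q then (y : ℝ) / (Nat.totient q : ℝ) else 0 : ℝ)) : ℂ) := by
    have h2 : ∀ c ∈ range q, ψ (c : ZMod q) * (((if c.Coprime q then (y : ℝ) / (Nat.totient q : ℝ) else 0 : ℝ)) : ℂ) =
        ψ (c : ZMod q) * ((y : ℂ) / (Nat.totient q : ℂ)) := by
      intro c _
      by_cases hc : c.Coprime q
      · rw [if_pos hc]; push_cast; rfl
      · rw [if_neg hc, MulChar.map_nonunit _ (fun hu => hc ((ZMod.isUnit_iff_coprime c _).mp hu))]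
        ring
    rw [sum_congr rfl h2, ← sum_mul, sum_range_zmod' q (fun a => ψ a)]
    have htot : (Nat.totient q : ℂ) ≠ 0 := by
      exact_mod_cast (Nat.totient_pos.2 hq).ne'
    split_ifs with h
    · rw [h, MulChar.sum_one_eq_card_units, ZMod.card_units_eq_totient]
      field_simp
    · rw [MulChar.sum_eq_zero_of_ne_one h]
      ring
  rw [h1, ← sum_sub_distrib]
  refine (norm_sum_le _ _).trans ?_
  have h2 : ∀ c ∈ range q, ‖ψ (c : ZMod q) * ((∑ n ∈ (Icc 1 y).filter (fun n => n ≡ c [MOD q]), lamz (zl l) n : ℝ) : ℂ) -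
      ψ (c : ZMod q) * (((if c.Coprime q then (y : ℝ) / (Nat.totient q : ℝ) else 0 : ℝ)) : ℂ)‖ ≤ X * Real.exp (-(3 * l)) := by
    intro c _
    rw [← mul_sub, norm_mul, ← Complex.ofReal_sub, Complex.norm_real, Real.norm_eq_abs]
    calc ‖ψ (c : ZMod q)‖ * _ ≤ 1 * |∑ n ∈ (Icc 1 y).filter (fun n => n ≡ c [MOD q]), lamz (zl l) n -
          (if c.Coprime q then (y : ℝ) / (Nat.totient q : ℝ) else 0)| :=
          mul_le_mul_of_nonneg_right (ψ.norm_le_one _) (abs_nonneg _)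
      _ ≤ _ := by
          rw [one_mul]
          exact lamz_cls l hl X hX q hq hqz c y hy
  refine (sum_le_sum h2).trans ?_
  rw [sum_const, card_range, nsmul_eq_mul]

/-- summation by parts against a decreasing weight -/
theorem abel_mono (f : ℕ → ℂ) (g : ℕ → ℝ) (M : ℝ) (N : ℕ) (hg1 : g 1 ≤ 1) (hg0 : ∀ n, 1 ≤ n → 0 ≤ g n)
    (hgm : ∀ n, 1 ≤ n → g (n + 1) ≤ g n) (hF : ∀ y : ℕ, y ≤ N → ‖∑ n ∈ Icc 1 y, f n‖ ≤ M) :
    ∀ y : ℕ, y ≤ N → ‖∑ n ∈ Icc 1 y, f n * ((g n : ℝ) : ℂ)‖ ≤ M := by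
  have hM : 0 ≤ M := (norm_nonneg _).trans (hF 0 (Nat.zero_le _))
  have key : ∀ y : ℕ, 1 ≤ y → y ≤ N → ‖∑ n ∈ Icc 1 y, f n * ((g n : ℝ) : ℂ) - (∑ n ∈ Icc 1 y, f n) * ((g y : ℝ) : ℂ)‖ ≤
      M * (g 1 - g y) := by
    intro y hy
    induction y, hy using Nat.le_induction with
    | base => intro _; simp
    | succ y hy ih =>
      intro hyN
      have h1 := ih (by omega)
      rw [sum_Icc_succ_top (by omega), sum_Icc_succ_top (by omega)]
      have h2 : ∑ n ∈ Icc 1 y, f n * ((g n : ℝ) : ℂ) + f (y + 1) * ((g (y + 1) : ℝ) : ℂ) -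
          (∑ n ∈ Icc 1 y, f n + f (y + 1)) * ((g (y + 1) : ℝ) : ℂ) =
          (∑ n ∈ Icc 1 y, f n * ((g n : ℝ) : ℂ) - (∑ n ∈ Icc 1 y, f n) * ((g y : ℝ) : ℂ)) +
          (∑ n ∈ Icc 1 y, f n) * (((g y - g (y + 1) : ℝ)) : ℂ) := by
        push_cast; ring
      rw [h2]
      refine (norm_add_le _ _).trans ?_
      have h3 : ‖(∑ n ∈ Icc 1 y, f n) * (((g y - g (y + 1) : ℝ)) : ℂ)‖ ≤ M * (g y - g (y + 1)) := by
        rw [norm_mul, Complex.norm_real, Real.norm_of_nonneg (sub_nonneg.2 (hgm y hy))]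
        exact mul_le_mul_of_nonneg_right (hF y (by omega)) (sub_nonneg.2 (hgm y hy))
      linarith
  intro y hy
  rcases Nat.eq_zero_or_pos y with h | h
  · rw [h]; simpa using hM
  · have h1 := key y h hy
    have h2 : ∑ n ∈ Icc 1 y, f n * ((g n : ℝ) : ℂ) = (∑ n ∈ Icc 1 y, f n * ((g n : ℝ) : ℂ) -
      (∑ n ∈ Icc 1 y, f n) * ((g y : ℝ) : ℂ)) + (∑ n ∈ Icc 1 y, f n) * ((g y : ℝ) : ℂ) := by ring
    rw [h2]
    refine (norm_add_le _ _).trans ?_
    have h3 : ‖(∑ n ∈ Icc 1 y, f n) * ((g y : ℝ) : ℂ)‖ ≤ M * g y := by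
      rw [norm_mul, Complex.norm_real, Real.norm_of_nonneg (hg0 y h)]
      exact mul_le_mul_of_nonneg_right (hF y hy) (hg0 y h)
    calc _ ≤ M * (g 1 - g y) + M * g y := add_le_add h1 h3
      _ = M * g 1 := by ring
      _ ≤ M * 1 := mul_le_mul_of_nonneg_left hg1 hM
      _ = M := mul_one _

theorem rpow_anti (β : ℝ) (hβ : β ≤ 1) (n : ℕ) (hn : 1 ≤ n) : ((n + 1 : ℕ) : ℝ) ^ (β - 1) ≤ (n : ℝ) ^ (β - 1) := by
  apply Real.rpow_le_rpow_of_nonpos
  · exact_mod_cast hn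
  · exact_mod_cast Nat.le_succ n
  · linarith

end

end Run7.h402.PT
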