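import Mathlib
import Pool.Agent.H373R2.T7.LamMaj
import Pool.Agent.N658.SP.ZP
import Pool.Agent.H307R2.Sg6
import Pool.Agent.Run7.h402.PT.B1

/-!
# Comparison of the von Mangoldt function with the (corrected) sieve model on all characters
-/

set_option autoImplicit false

open Finset

namespace Run7.h402.PT

open DirichletCharacter
open Pool.Agent.H373R2.T7 (pz Vz lamz mem_pz Vz_pos Vz_inv_le rough_ap lamz_nonneg)
open Pool.Agent.H373R2.T7 (lam_mult_prime natlog_le)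
open Pool.Agent.N475.SP (dom)
open Pool.Agent.Erdos456 (mul_char_apply)
open Pool.Agent.H378R2 Pool.Agent.H378R2.M1

noncomputable section

/-- the von Mangoldt function minus one is small on average -/
theorem lam_one_small : ∃ l0 : ℝ, ∀ l : ℝ, l0 ≤ l → Small l (fun n => ((ArithmeticFunction.vonMangoldt n : ℝ) : ℂ) - 1) := by
  obtain ⟨l1, h1⟩ := Pool.Agent.N658.SP.t_ZP
  obtain ⟨l3, h3⟩ := sharp_gen
  refine ⟨max l1 l3, fun l hl => ?_⟩
  intro X hX1 hX2 y hy
  refine h3 l ((le_max_right _ _).trans hl) _ (fun n hn => ?_) (fun z hz1 hz2 => h1 l ((le_max_left _ _).trans hl) z hz1 hz2) X hX1 hX2 y hy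
  refine (norm_sub_le _ _).trans ?_
  rw [Complex.norm_real, Real.norm_of_nonneg ArithmeticFunction.vonMangoldt_nonneg, norm_one]
  exact add_le_add ArithmeticFunction.vonMangoldt_le_log le_rfl

/-- the contribution of the integers not coprime to the modulus -/
theorem lam_lift : ∃ l0 : ℝ, ∀ l : ℝ, l0 ≤ l → ∀ X : ℝ, Real.exp (l ^ 23) ≤ X → X ≤ Real.exp (l ^ 41) →
    ∀ (q : ℕ) [NeZero q], Real.log q ≤ l → ∀ (f : ℕ) (h : f ∣ q) (ψ : DirichletCharacter ℂ f) (y : ℕ), (y : ℝ) ≤ X →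
      ‖∑ n ∈ Icc 1 y, lc (changeLevel h ψ) n - ∑ n ∈ Icc 1 y, lc ψ n‖ ≤ X * Real.exp (-l) := by
  obtain ⟨a1, ha1⟩ := dom 3 1 82 one_pos
  refine ⟨max a1 2, fun l hl X hX1 hX2 q _ hq f h ψ y hy => ?_⟩
  have hD := ha1 l ((le_max_left _ _).trans hl)
  rw [one_mul] at hD
  have hl2 : 2 ≤ l := (le_max_right _ _).trans hl
  have hl0 : 0 < l := by linarith
  have hl1 : 1 ≤ l := by linarith
  have hX0 : 0 < X := (Real.exp_pos _).trans_le hX1
  rcases Nat.eq_zero_or_pos y with hy0 | hy1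
  · rw [hy0]; simp; positivity
  have hy1r : (1 : ℝ) ≤ y := by exact_mod_cast hy1
  rw [← sum_sub_distrib]
  have hpt : ∀ n ∈ Icc 1 y, ‖lc (changeLevel h ψ) n - lc ψ n‖ ≤ if n.Coprime q then 0 else ArithmeticFunction.vonMangoldt n := by
    intro n _
    unfold lc
    by_cases hn : n.Coprime q
    · have h1 := DirichletCharacter.changeLevel_eq_cast_of_dvd' ψ h (a := (n : ℤ))
        (by exact_mod_cast Nat.isCoprime_iff_coprime.mpr hn)
      push_cast at h1
      rw [h1, if_pos hn, sub_self, norm_zero]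
    · rw [MulChar.map_nonunit _ (fun hu => hn ((ZMod.isUnit_iff_coprime n _).mp hu)), if_neg hn, mul_zero, zero_sub, norm_neg,
        norm_mul, Complex.norm_real, Real.norm_of_nonneg ArithmeticFunction.vonMangoldt_nonneg]
      calc ArithmeticFunction.vonMangoldt n * ‖ψ (n : ZMod f)‖ ≤ ArithmeticFunction.vonMangoldt n * 1 :=
            mul_le_mul_of_nonneg_left (ψ.norm_le_one _) ArithmeticFunction.vonMangoldt_nonneg
        _ = _ := mul_one _
  refine (norm_sum_le _ _).trans ((sum_le_sum hpt).trans ?_)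
  have h2 : ∑ n ∈ Icc 1 y, (if n.Coprime q then (0 : ℝ) else ArithmeticFunction.vonMangoldt n) ≤
      ∑ p ∈ q.primeFactors, ∑ n ∈ (Icc 1 y).filter (fun n => p ∣ n), ArithmeticFunction.vonMangoldt n := by
    have h3 : ∀ n ∈ Icc 1 y, (if n.Coprime q then (0 : ℝ) else ArithmeticFunction.vonMangoldt n) ≤
        ∑ p ∈ q.primeFactors, if p ∣ n then ArithmeticFunction.vonMangoldt n else 0 := by
      intro n _
      have hnn : ∀ p ∈ q.primeFactors, (0 : ℝ) ≤ if p ∣ n then ArithmeticFunction.vonMangoldt n else 0 := by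
        intro p _
        split_ifs
        · exact ArithmeticFunction.vonMangoldt_nonneg
        · exact le_rfl
      split_ifs with hn
      · exact sum_nonneg hnn
      · obtain ⟨p, hp, hpn, hpq⟩ := Nat.Prime.not_coprime_iff_dvd.1 hn
        have h4 := single_le_sum hnn (Nat.mem_primeFactors.2 ⟨hp, hpq, NeZero.ne q⟩)
        rw [if_pos hpn] at h4
        exact h4
    refine (sum_le_sum h3).trans (le_of_eq ?_)
    rw [sum_comm]
    apply sum_congr rfl
    intro p _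
    rw [sum_filter]
  refine h2.trans ?_
  have hlogy : Real.log y ≤ l ^ 41 := by
    rw [Real.log_le_iff_le_exp (by linarith)]
    exact hy.trans hX2
  have hlogy0 : 0 ≤ Real.log y := Real.log_nonneg hy1r
  have h3 : ∀ p ∈ q.primeFactors, ∑ n ∈ (Icc 1 y).filter (fun n => p ∣ n), ArithmeticFunction.vonMangoldt n ≤ 3 * l ^ 82 := by
    intro p hp
    refine (lam_mult_prime y p (Nat.prime_of_mem_primeFactors hp)).trans ?_
    have h4 := natlog_le y hy1
    have h5 : 1 ≤ l ^ 41 := one_le_pow₀ hl1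
    calc (Nat.log 2 y + 1 : ℝ) * Real.log y ≤ (2 * l ^ 41 + l ^ 41) * l ^ 41 := by
          gcongr
          linarith
      _ = 3 * l ^ 82 := by ring
  refine (sum_le_sum h3).trans ?_
  rw [sum_const, nsmul_eq_mul]
  have hcard : (q.primeFactors.card : ℝ) ≤ Real.exp l := by
    have h4 : q.primeFactors.card ≤ q := by
      have h5 : q.primeFactors ⊆ Icc 1 q := by
        intro p hp
        rw [mem_Icc]
        exact ⟨(Nat.prime_of_mem_primeFactors hp).one_le, Nat.le_of_mem_primeFactors hp⟩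
      have := card_le_card h5
      simpa using this
    have hq0 : (0 : ℝ) < q := by exact_mod_cast NeZero.pos q
    have h6 : (q : ℝ) ≤ Real.exp l := by
      rwa [Real.log_le_iff_le_exp hq0] at hq
    exact (by exact_mod_cast h4 : (q.primeFactors.card : ℝ) ≤ q).trans h6
  have hp23 : 4 * l ≤ l ^ 23 := by
    have h4 : l ^ 3 ≤ l ^ 23 := pow_le_pow_right₀ hl1 (by norm_num)
    nlinarith [sq_nonneg l, mul_pos hl0 hl0]
  calc (q.primeFactors.card : ℝ) * (3 * l ^ 82) ≤ Real.exp l * Real.exp l := by gcongr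
    _ = Real.exp (2 * l) := by rw [← Real.exp_add]; congr 1; ring
    _ ≤ Real.exp (l ^ 23 + -l) := by
        apply Real.exp_le_exp.2
        linarith
    _ = Real.exp (l ^ 23) * Real.exp (-l) := Real.exp_add _ _
    _ ≤ X * Real.exp (-l) := by gcongr

open Classical in
/-- the twisted part of the model -/
theorem lamz_twist (l : ℝ) (hl : 8 ≤ l) (X : ℝ) (hX : Real.exp (l ^ 23) ≤ X) (q1 q : ℕ) [NeZero q1] [NeZero q]
    (hqq : Real.log (q1 * q : ℕ) ≤ l) (χ : DirichletCharacter ℂ q1) (ψ : DirichletCharacter ℂ q) (β : ℝ) (hβ : β ≤ 1)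
    (y : ℕ) (hy : (y : ℝ) ≤ X) :
    ‖∑ n ∈ Icc 1 y, ((lamz (zl l) n : ℝ) : ℂ) * (χ (n : ZMod q1) * ψ (n : ZMod q)) * (((n : ℝ) ^ (β - 1) : ℝ) : ℂ) -
      (if changeLevel (q1.dvd_mul_right q) χ * changeLevel (q.dvd_mul_left q1) ψ = 1 then
        ∑ n ∈ Icc 1 y, (((n : ℝ) ^ (β - 1) : ℝ) : ℂ) else 0)‖ ≤ X * Real.exp (-(2 * l)) := by
  have hN : NeZero (q1 * q) := ⟨mul_ne_zero (NeZero.ne q1) (NeZero.ne q)⟩
  set Ψ := changeLevel (q1.dvd_mul_right q) χ * changeLevel (q.dvd_mul_left q1) ψ with hΨ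
  have hX0 : 0 < X := (Real.exp_pos _).trans_le hX
  have hq0 : (0 : ℝ) < (q1 * q : ℕ) := by exact_mod_cast NeZero.pos (q1 * q)
  have hqe : ((q1 * q : ℕ) : ℝ) ≤ Real.exp l := by
    rwa [Real.log_le_iff_le_exp hq0] at hqq
  have hqz : ∀ p, p.Prime → p ∣ q1 * q → p ≤ zl l := by
    intro p _ hpq
    have h1 : q1 * q ≤ zl l := Nat.le_floor hqe
    exact (Nat.le_of_dvd (NeZero.pos _) hpq).trans h1
  set f : ℕ → ℂ := fun n => ((lamz (zl l) n : ℝ) : ℂ) * Ψ (n : ZMod (q1 * q)) - (if Ψ = 1 then 1 else 0) with hf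
  have hF : ∀ y' : ℕ, y' ≤ y → ‖∑ n ∈ Icc 1 y', f n‖ ≤ X * Real.exp (-(2 * l)) := by
    intro y' hy'
    have h1 := lamz_char l hl X hX (q1 * q) hqz Ψ y' ((by exact_mod_cast hy' : (y' : ℝ) ≤ y).trans hy)
    have h2 : ∑ n ∈ Icc 1 y', f n = ∑ n ∈ Icc 1 y', ((lamz (zl l) n : ℝ) : ℂ) * Ψ (n : ZMod (q1 * q)) -
        (if Ψ = 1 then (y' : ℂ) else 0) := by
      rw [hf]
      simp only [sum_sub_distrib]
      congr 1
      rw [sum_const, Nat.card_Icc, Nat.add_sub_cancel]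
      split_ifs <;> simp
    rw [h2]
    refine h1.trans ?_
    calc ((q1 * q : ℕ) : ℝ) * (X * Real.exp (-(3 * l))) ≤ Real.exp l * (X * Real.exp (-(3 * l))) := by gcongr
      _ = X * (Real.exp l * Real.exp (-(3 * l))) := by ring
      _ = X * Real.exp (-(2 * l)) := by rw [← Real.exp_add]; congr 2; ring
  have h3 := abel_mono f (fun n => (n : ℝ) ^ (β - 1)) (X * Real.exp (-(2 * l))) y (by simp)
    (fun n _ => by positivity) (fun n hn => rpow_anti β hβ n hn) hF y le_rfl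
  refine le_trans (le_of_eq ?_) h3
  congr 1
  have h4 : ∀ n ∈ Icc 1 y, f n * (((n : ℝ) ^ (β - 1) : ℝ) : ℂ) =
      ((lamz (zl l) n : ℝ) : ℂ) * (χ (n : ZMod q1) * ψ (n : ZMod q)) * (((n : ℝ) ^ (β - 1) : ℝ) : ℂ) -
      (if Ψ = 1 then (((n : ℝ) ^ (β - 1) : ℝ) : ℂ) else 0) := by
    intro n _
    rw [hf]
    simp only
    rw [hΨ, mul_char_apply, ← hΨ]
    split_ifs <;> ring
  rw [sum_congr rfl h4, sum_sub_distrib]
  congr 1
  split_ifs with h5
  · rfl
  · simp

/-- the corrected model -/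
def Gc (l κ : ℝ) {q1 : ℕ} (χ : DirichletCharacter ℂ q1) (β : ℝ) (n : ℕ) : ℂ :=
  ((lamz (zl l) n : ℝ) : ℂ) * (1 - (κ : ℂ) * χ (n : ZMod q1) * (((n : ℝ) ^ (β - 1) : ℝ) : ℂ))

/-- closeness on all characters of small modulus -/
def Close (l Λ κ : ℝ) {q1 : ℕ} (χ : DirichletCharacter ℂ q1) (β : ℝ) : Prop :=
  ∀ X : ℝ, Real.exp (l ^ 23) ≤ X → X ≤ Real.exp (l ^ 41) → ∀ (q : ℕ) [NeZero q], Real.log q ≤ Λ →
    ∀ (ψ : DirichletCharacter ℂ q) (y : ℕ), (y : ℝ) ≤ X →
      ‖∑ n ∈ Icc 1 y, (((ArithmeticFunction.vonMangoldt n : ℝ) : ℂ) - Gc l κ χ β n) * ψ (n : ZMod q)‖ ≤ X * Real.exp (-(l / 6))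

theorem close_split {q1 : ℕ} (χ : DirichletCharacter ℂ q1) (l κ β : ℝ) (q : ℕ) (ψ : DirichletCharacter ℂ q) (y : ℕ) (A B C : ℂ) (a b c : ℝ)
    (h1 : ‖∑ n ∈ Icc 1 y, lc ψ n - A‖ ≤ a)
    (h2 : ‖∑ n ∈ Icc 1 y, ((lamz (zl l) n : ℝ) : ℂ) * ψ (n : ZMod q) - B‖ ≤ b)
    (h3 : ‖∑ n ∈ Icc 1 y, ((lamz (zl l) n : ℝ) : ℂ) * (χ (n : ZMod q1) * ψ (n : ZMod q)) * (((n : ℝ) ^ (β - 1) : ℝ) : ℂ) - C‖ ≤ c)
    (hABC : A - B + κ * C = 0) (hκ : |κ| ≤ 1) :
    ‖∑ n ∈ Icc 1 y, (((ArithmeticFunction.vonMangoldt n : ℝ) : ℂ) - Gc l κ χ β n) * ψ (n : ZMod q)‖ ≤ a + b + c := by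
  have e : ∑ n ∈ Icc 1 y, (((ArithmeticFunction.vonMangoldt n : ℝ) : ℂ) - Gc l κ χ β n) * ψ (n : ZMod q) =
      (∑ n ∈ Icc 1 y, lc ψ n - A) - (∑ n ∈ Icc 1 y, ((lamz (zl l) n : ℝ) : ℂ) * ψ (n : ZMod q) - B) +
      κ * (∑ n ∈ Icc 1 y, ((lamz (zl l) n : ℝ) : ℂ) * (χ (n : ZMod q1) * ψ (n : ZMod q)) * (((n : ℝ) ^ (β - 1) : ℝ) : ℂ) - C) := by
    have e2 : ∑ n ∈ Icc 1 y, (((ArithmeticFunction.vonMangoldt n : ℝ) : ℂ) - Gc l κ χ β n) * ψ (n : ZMod q) =
        ∑ n ∈ Icc 1 y, lc ψ n - ∑ n ∈ Icc 1 y, ((lamz (zl l) n : ℝ) : ℂ) * ψ (n : ZMod q) +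
        κ * ∑ n ∈ Icc 1 y, ((lamz (zl l) n : ℝ) : ℂ) * (χ (n : ZMod q1) * ψ (n : ZMod q)) * (((n : ℝ) ^ (β - 1) : ℝ) : ℂ) := by
      rw [mul_sum, ← sum_sub_distrib, ← sum_add_distrib]
      apply sum_congr rfl
      intro n _
      unfold Gc lc
      ring
    rw [e2]
    linear_combination hABC
  rw [e]
  refine (norm_add_le _ _).trans ?_
  refine (add_le_add (norm_sub_le _ _) le_rfl).trans ?_
  have h4 : ‖(κ : ℂ) * (∑ n ∈ Icc 1 y, ((lamz (zl l) n : ℝ) : ℂ) * (χ (n : ZMod q1) * ψ (n : ZMod q)) * (((n : ℝ) ^ (β - 1) : ℝ) : ℂ) - C)‖ ≤ c := by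
    rw [norm_mul, Complex.norm_real, Real.norm_eq_abs]
    calc |κ| * _ ≤ 1 * ‖_‖ := mul_le_mul_of_nonneg_right hκ (norm_nonneg _)
      _ ≤ c := by rw [one_mul]; exact h3
  linarith

theorem cl_aux {m q N : ℕ} (hmq : m ∣ q) (hqN : q ∣ N) (ψ : DirichletCharacter ℂ q) (ψ' : DirichletCharacter ℂ m)
    (h : changeLevel hmq ψ' = ψ) : changeLevel hqN ψ = changeLevel (hmq.trans hqN) ψ' := by
  subst h
  exact (changeLevel_trans ψ' hmq hqN).symm

/-- closeness from the values on primitive characters -/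
theorem close_of : ∃ l0 : ℝ, ∀ l : ℝ, l0 ≤ l → ∀ (Λ κ : ℝ) (q1 : ℕ) [NeZero q1] (χ : DirichletCharacter ℂ q1) (β : ℝ),
    β ≤ 1 → Λ ≤ l → Real.log q1 + Λ ≤ l → (κ = 0 ∨ (κ = 1 ∧ 1 < q1 ∧ χ.IsPrimitive ∧ χ ^ 2 = 1 ∧ Small l (ax χ β))) →
    (∀ (f : ℕ) [NeZero f], 1 < f → Real.log f ≤ Λ → ∀ ψ : DirichletCharacter ℂ f, ψ.IsPrimitive →
        (κ = 0 ∨ (⟨f, ψ⟩ : Sigma fun n : ℕ => DirichletCharacter ℂ n) ≠ ⟨q1, χ⟩) → Small l (lc ψ)) →
    Close l Λ κ χ β := by
  obtain ⟨l1, h1⟩ := lam_one_small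
  obtain ⟨l2, h2⟩ := lam_lift
  refine ⟨max (max l1 l2) 20, fun l hl Λ κ q1 _ χ β hβ hΛl hqΛ hκ hsm => ?_⟩
  have hl1 : l1 ≤ l := ((le_max_left _ _).trans (le_max_left _ _)).trans hl
  have hl2 : l2 ≤ l := ((le_max_right _ _).trans (le_max_left _ _)).trans hl
  have hl20 : 20 ≤ l := (le_max_right _ _).trans hl
  have hl8 : 8 ≤ l := by linarith
  intro X hX1 hX2 q _ hq ψ y hy
  have hX0 : 0 < X := (Real.exp_pos _).trans_le hX1
  have hq10 : (0 : ℝ) < q1 := by exact_mod_cast NeZero.pos q1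
  have hq0 : (0 : ℝ) < q := by exact_mod_cast NeZero.pos q
  have hqq : Real.log (q1 * q : ℕ) ≤ l := by
    push_cast
    rw [Real.log_mul hq10.ne' hq0.ne']
    linarith
  have hql : Real.log q ≤ l := hq.trans hΛl
  have hqe : (q : ℝ) ≤ Real.exp l := by
    rwa [Real.log_le_iff_le_exp hq0] at hql
  have hqz : ∀ p, p.Prime → p ∣ q → p ≤ zl l := by
    intro p _ hpq
    have h1 : q ≤ zl l := Nat.le_floor hqe
    exact (Nat.le_of_dvd (NeZero.pos _) hpq).trans h1
  have hκ1 : |κ| ≤ 1 := by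
    rcases hκ with h | h
    · rw [h]; simp
    · rw [h.1]; simp
  -- the model side
  have gB := lamz_char l hl8 X hX1 q hqz ψ y hy
  have gB' : (q : ℝ) * (X * Real.exp (-(3 * l))) ≤ X * Real.exp (-l) := by
    calc (q : ℝ) * (X * Real.exp (-(3 * l))) ≤ Real.exp l * (X * Real.exp (-(3 * l))) := by gcongr
      _ = X * (Real.exp l * Real.exp (-(3 * l))) := by ring
      _ = X * Real.exp (-(2 * l)) := by rw [← Real.exp_add]; congr 2; ring
      _ ≤ X * Real.exp (-l) := by gcongr; linarith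
  have gC := lamz_twist l hl8 X hX1 q1 q hqq χ ψ β hβ y hy
  have gC' : X * Real.exp (-(2 * l)) ≤ X * Real.exp (-l) := by gcongr; linarith
  -- the prime side
  have hfin : X * Real.exp (-(l / 3)) + X * Real.exp (-l) + X * Real.exp (-l) + X * Real.exp (-l) ≤ X * Real.exp (-(l / 6)) := by
    have e1 : Real.exp (-l) ≤ Real.exp (-(l / 3)) := by
      apply Real.exp_le_exp.2; linarith
    have e2 : 4 * Real.exp (-(l / 3)) ≤ Real.exp (-(l / 6)) := by
      have e3 : Real.exp (-(l / 6)) = Real.exp (l / 6) * Real.exp (-(l / 3)) := by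
        rw [← Real.exp_add]; congr 1; ring
      have e4 := Real.add_one_le_exp (l / 6)
      rw [e3]
      have e5 : 4 ≤ Real.exp (l / 6) := by linarith
      gcongr
    calc _ = X * (Real.exp (-(l / 3)) + Real.exp (-l) + Real.exp (-l) + Real.exp (-l)) := by ring
      _ ≤ X * (4 * Real.exp (-(l / 3))) := by gcongr; linarith
      _ ≤ _ := by gcongr
  by_cases hψ : ψ = 1
  · -- the principal character
    have g1 := h2 l hl2 X hX1 hX2 q hql 1 (one_dvd q) (1 : DirichletCharacter ℂ 1) y hy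
    rw [changeLevel_one, ← hψ] at g1
    have g2 := h1 l hl1 X hX1 hX2 y hy
    have g3 : ‖∑ n ∈ Icc 1 y, lc ψ n - (y : ℂ)‖ ≤ X * Real.exp (-(l / 3)) + X * Real.exp (-l) := by
      have e : ∑ n ∈ Icc 1 y, lc ψ n - (y : ℂ) = (∑ n ∈ Icc 1 y, lc ψ n - ∑ n ∈ Icc 1 y, lc (1 : DirichletCharacter ℂ 1) n) +
          ∑ n ∈ Icc 1 y, (((ArithmeticFunction.vonMangoldt n : ℝ) : ℂ) - 1) := by
        have e1 : ∑ n ∈ Icc 1 y, lc (1 : DirichletCharacter ℂ 1) n = ∑ n ∈ Icc 1 y, ((ArithmeticFunction.vonMangoldt n : ℝ) : ℂ) := by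
          apply sum_congr rfl
          intro n _
          unfold lc
          rw [MulChar.one_apply (by exact isUnit_of_subsingleton _), mul_one]
        rw [e1, sum_sub_distrib]
        simp
      rw [e]
      refine (norm_add_le _ _).trans ?_
      linarith
    rw [if_pos hψ] at gB
    have hne : ¬ (κ = 1 ∧ changeLevel (q1.dvd_mul_right q) χ * changeLevel (q.dvd_mul_left q1) ψ = 1) := by
      rintro ⟨hk, h3⟩
      rcases hκ with h | ⟨_, hq11, hprim, _, _⟩
      · rw [h] at hk; norm_num at hk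
      · rw [hψ, changeLevel_one, mul_one, changeLevel_eq_one_iff] at h3
        exact primitive_ne_one hq11 hprim h3
    by_cases h3 : changeLevel (q1.dvd_mul_right q) χ * changeLevel (q.dvd_mul_left q1) ψ = 1
    · have hk0 : κ = 0 := by
        rcases hκ with h | h
        · exact h
        · exact absurd ⟨h.1, h3⟩ hne
      have := close_split χ l κ β q ψ y _ _ _ _ _ _ g3 gB gC (by rw [hk0]; push_cast; ring) hκ1
      refine this.trans ?_
      linarith
    · rw [if_neg h3] at gC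
      have := close_split χ l κ β q ψ y _ _ _ _ _ _ g3 gB gC (by ring) hκ1
      refine this.trans ?_
      linarith
  · rw [if_neg hψ] at gB
    have hN0 : ψ.conductor ≠ 0 := conductor_ne_zero ψ
    have hNf : NeZero ψ.conductor := ⟨hN0⟩
    have hf1 : 1 < ψ.conductor := by
      have : ψ.conductor ≠ 1 := fun h => hψ (eq_one_iff_conductor_eq_one.2 h)
      omega
    have hfq : ψ.conductor ∣ q := ψ.conductor_dvd_level
    have hfl : Real.log ψ.conductor ≤ Λ := by
      refine le_trans ?_ hq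
      apply Real.log_le_log (by exact_mod_cast Nat.pos_of_ne_zero hN0)
      exact_mod_cast Nat.le_of_dvd (NeZero.pos q) hfq
    have g1 := h2 l hl2 X hX1 hX2 q hql ψ.conductor hfq ψ.primitiveCharacter y hy
    rw [changeLevel_primitiveCharacter] at g1
    by_cases hex : κ = 1 ∧ (⟨ψ.conductor, ψ.primitiveCharacter⟩ : Sigma fun n : ℕ => DirichletCharacter ℂ n) = ⟨q1, χ⟩
    · obtain ⟨hk, hsig⟩ := hex
      rcases hκ with h | ⟨_, hq11, hprim, hsq, hax⟩
      · rw [h] at hk; norm_num at hk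
      -- the exceptional character
      have hprod : changeLevel (q1.dvd_mul_right q) χ * changeLevel (q.dvd_mul_left q1) ψ = 1 := by
        obtain ⟨e1, e2⟩ := Sigma.mk.inj_iff.1 hsig
        subst e1
        have e3 : ψ.primitiveCharacter = χ := eq_of_heq e2
        subst e3
        have e4 : changeLevel (q.dvd_mul_left ψ.conductor) ψ =
            changeLevel (ψ.conductor.dvd_mul_right q) ψ.primitiveCharacter :=
          cl_aux hfq (q.dvd_mul_left ψ.conductor) ψ ψ.primitiveCharacter ψ.changeLevel_primitiveCharacter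
        rw [e4, ← map_mul, ← pow_two, hsq, map_one]
      rw [if_pos hprod] at gC
      have g2 : ‖∑ n ∈ Icc 1 y, lc ψ.primitiveCharacter n - (-∑ n ∈ Icc 1 y, (((n : ℝ) ^ (β - 1) : ℝ) : ℂ))‖ ≤ X * Real.exp (-(l / 3)) := by
        have h5 := hax X hX1 hX2 y hy
        refine le_trans (le_of_eq ?_) h5
        congr 1
        have e5 : ∀ n ∈ Icc 1 y, ax χ β n = lc ψ.primitiveCharacter n + (((n : ℝ) ^ (β - 1) : ℝ) : ℂ) := by
          intro n _
          obtain ⟨e1, e2⟩ := Sigma.mk.inj_iff.1 hsig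
          subst e1
          have e3 : ψ.primitiveCharacter = χ := eq_of_heq e2
          rw [e3]
          rfl
        rw [sum_congr rfl e5, sum_add_distrib]
        ring
      have g3 : ‖∑ n ∈ Icc 1 y, lc ψ n - (-∑ n ∈ Icc 1 y, (((n : ℝ) ^ (β - 1) : ℝ) : ℂ))‖ ≤ X * Real.exp (-(l / 3)) + X * Real.exp (-l) := by
        have e : ∑ n ∈ Icc 1 y, lc ψ n - (-∑ n ∈ Icc 1 y, (((n : ℝ) ^ (β - 1) : ℝ) : ℂ)) =
            (∑ n ∈ Icc 1 y, lc ψ n - ∑ n ∈ Icc 1 y, lc ψ.primitiveCharacter n) +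
            (∑ n ∈ Icc 1 y, lc ψ.primitiveCharacter n - (-∑ n ∈ Icc 1 y, (((n : ℝ) ^ (β - 1) : ℝ) : ℂ))) := by ring
        rw [e]
        refine (norm_add_le _ _).trans ?_
        linarith
      have := close_split χ l κ β q ψ y _ _ _ _ _ _ g3 gB gC (by rw [hk]; push_cast; ring) hκ1
      refine this.trans ?_
      linarith
    · have hsmall : Small l (lc ψ.primitiveCharacter) := by
        apply hsm ψ.conductor hf1 hfl _ ψ.primitiveCharacter_isPrimitive
        rcases hκ with h | h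
        · exact Or.inl h
        · right
          intro h'
          exact hex ⟨h.1, h'⟩
      have g2 := hsmall X hX1 hX2 y hy
      have g3 : ‖∑ n ∈ Icc 1 y, lc ψ n - 0‖ ≤ X * Real.exp (-(l / 3)) + X * Real.exp (-l) := by
        rw [sub_zero]
        have e : ∑ n ∈ Icc 1 y, lc ψ n =
            (∑ n ∈ Icc 1 y, lc ψ n - ∑ n ∈ Icc 1 y, lc ψ.primitiveCharacter n) + ∑ n ∈ Icc 1 y, lc ψ.primitiveCharacter n := by ring
        rw [e]
        refine (norm_add_le _ _).trans ?_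
        linarith
      by_cases h3 : changeLevel (q1.dvd_mul_right q) χ * changeLevel (q.dvd_mul_left q1) ψ = 1
      · rcases hκ with hk0 | ⟨hk, hq11, hprim, hsq, _⟩
        · have := close_split χ l κ β q ψ y _ _ _ _ _ _ g3 gB gC (by rw [hk0]; push_cast; ring) hκ1
          refine this.trans ?_
          linarith
        · exfalso
          apply hex
          refine ⟨hk, ?_⟩
          have hNN : NeZero (q1 * q) := ⟨mul_ne_zero (NeZero.ne q1) (NeZero.ne q)⟩
          have e1 : changeLevel (q1.dvd_mul_right q) χ * changeLevel (q1.dvd_mul_right q) χ = 1 := by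
            rw [← map_mul, ← pow_two, hsq, map_one]
          have e : changeLevel (q1.dvd_mul_right q) χ = changeLevel (q.dvd_mul_left q1) ψ := by
            rw [← h3] at e1
            exact mul_left_cancel e1
          have e2 : changeLevel (q.dvd_mul_left q1) ψ =
              changeLevel (hfq.trans (q.dvd_mul_left q1)) ψ.primitiveCharacter :=
            cl_aux hfq (q.dvd_mul_left q1) ψ ψ.primitiveCharacter ψ.changeLevel_primitiveCharacter
          rw [e2] at e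
          have e4 := congrArg conductor e
          rw [conductor_changeLevel, conductor_changeLevel, (isPrimitive_def χ).mp hprim,
            (isPrimitive_def _).mp ψ.primitiveCharacter_isPrimitive] at e4
          subst e4
          have e5 : χ = ψ.primitiveCharacter := changeLevel_injective _ e
          rw [e5]
      · rw [if_neg h3] at gC
        have := close_split χ l κ β q ψ y _ _ _ _ _ _ g3 gB gC (by ring) hκ1
        refine this.trans ?_
        linarith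

end

end Run7.h402.PT
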