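import Mathlib
import Pool.Agent.Run7.h402.PT.B2

/-!
# The choice of the level and of the exceptional character
-/

set_option autoImplicit false

open Finset

namespace Run7.h402.PT

open DirichletCharacter Pool.Agent.H378R2 Pool.Agent.H378R2.M1
open Pool.Agent.N475.SP (dom)

noncomputable section

/-- exceptional zeros of characters of very small conductor are not too close to one -/
theorem beta_low : ∃ l0 : ℝ, ∀ l : ℝ, l0 ≤ l → ∀ (q : ℕ) [NeZero q] (χ : DirichletCharacter ℂ q) (β : ℝ),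
    1 < q → Real.log q ≤ √l → χ.IsPrimitive → χ ^ 2 = 1 → β < 1 → LFunction χ (β : ℂ) = 0 →
    Real.exp (-(2 * √l)) ≤ 1 - β := by
  obtain ⟨c, hc, hS⟩ := Pool.Agent.H307R2.siegel 1 one_pos
  obtain ⟨C, hC, _, _, h3⟩ := L_lip
  obtain ⟨a1, ha1⟩ := dom (C / c) 1 4 one_pos
  obtain ⟨a2, ha2⟩ := dom 2 2 2 (by norm_num)
  refine ⟨max (max (a1 ^ 2) (a2 ^ 2)) 100, fun l hl q _ χ β hq1 hql hprim hsq hβ hz => ?_⟩
  have hl1 : a1 ^ 2 ≤ l := ((le_max_left _ _).trans (le_max_left _ _)).trans hl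
  have hl2 : a2 ^ 2 ≤ l := ((le_max_right _ _).trans (le_max_left _ _)).trans hl
  have hl100 : 100 ≤ l := (le_max_right _ _).trans hl
  have hl0 : 0 < l := by linarith
  set s := √l with hs
  have hs0 : 0 < s := Real.sqrt_pos.2 hl0
  have hss : s ^ 2 = l := Real.sq_sqrt hl0.le
  have hsa1 : a1 ≤ s := Real.le_sqrt_of_sq_le hl1
  have hsa2 : a2 ≤ s := Real.le_sqrt_of_sq_le hl2
  have hD1 := ha1 s hsa1
  have hD2 := ha2 s hsa2
  rw [one_mul] at hD1
  have hs10 : 10 ≤ s := by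
    apply Real.le_sqrt_of_sq_le
    norm_num
    exact hl100
  have hsl : s ≤ l := by nlinarith
  have hql' : Real.log q ≤ l := hql.trans hsl
  have hq0 : (0 : ℝ) < q := by exact_mod_cast NeZero.pos q
  by_cases hb : 1 - 1 / (2 * l) ≤ β
  · have hne := primitive_ne_one hq1 hprim
    have g1 := hS q χ hprim hsq hne
    have g2 := h3 l (by linarith) q χ hne hql' 1 (β : ℂ) (by
      rw [Complex.one_re]
      have : 0 ≤ 1 / (2 * l) := by positivity
      linarith) (by rw [Complex.one_re]; norm_num) (by rw [Complex.ofReal_re]; exact hb)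
      (by rw [Complex.ofReal_re]; linarith) 0 (by simp) (by simp) (by
        rw [Real.log_le_iff_le_exp (by norm_num)]
        have := Real.add_one_le_exp l
        linarith)
    rw [hz, sub_zero] at g2
    have g3 : ‖(1 : ℂ) - (β : ℂ)‖ = 1 - β := by
      rw [← Complex.ofReal_one, ← Complex.ofReal_sub, Complex.norm_real, Real.norm_of_nonneg (by linarith)]
    rw [g3] at g2
    have g4 : Real.exp (-s) ≤ (q : ℝ) ^ (-(1 : ℝ)) := by
      rw [Real.rpow_def_of_pos hq0]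
      apply Real.exp_le_exp.2
      linarith
    have g5 : c * Real.exp (-s) ≤ C * l ^ 2 * (1 - β) := by
      calc c * Real.exp (-s) ≤ c * (q : ℝ) ^ (-(1 : ℝ)) := by gcongr
        _ ≤ _ := g1.trans g2
    have g6 : C * l ^ 2 ≤ c * Real.exp s := by
      rw [← hss]
      have : C / c * s ^ 4 ≤ Real.exp s := hD1
      rw [div_mul_eq_mul_div, div_le_iff₀ hc] at this
      calc C * (s ^ 2) ^ 2 = C * s ^ 4 := by ring
        _ ≤ _ := by linarith
    have g7 : c * Real.exp (-s) ≤ c * Real.exp s * (1 - β) := by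
      refine g5.trans ?_
      apply mul_le_mul_of_nonneg_right g6
      linarith
    have g8 : Real.exp (-s) ≤ Real.exp s * (1 - β) := by
      rw [mul_assoc] at g7
      exact le_of_mul_le_mul_left g7 hc
    have g9 : Real.exp (-(2 * s)) = Real.exp (-s) * Real.exp (-s) := by
      rw [← Real.exp_add]; congr 1; ring
    rw [g9]
    calc Real.exp (-s) * Real.exp (-s) ≤ Real.exp (-s) * (Real.exp s * (1 - β)) := by gcongr
      _ = 1 - β := by
          rw [← mul_assoc, ← Real.exp_add]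
          simp
  · push Not at hb
    have g1 : 1 / (2 * l) ≤ 1 - β := by linarith
    refine le_trans ?_ g1
    rw [le_div_iff₀ (by positivity), ← hss]
    have g2 : Real.exp (-(2 * s)) * Real.exp (2 * s) = 1 := by
      rw [← Real.exp_add]; simp
    calc Real.exp (-(2 * s)) * (2 * s ^ 2) ≤ Real.exp (-(2 * s)) * Real.exp (2 * s) := by gcongr
      _ = 1 := g2

/-- the final level structure -/
theorem level : ∃ l0 : ℝ, ∀ l : ℝ, l0 ≤ l → ∃ (Λ κ β : ℝ) (q1 : ℕ) (_ : NeZero q1) (χ : DirichletCharacter ℂ q1),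
    Close l Λ κ χ β ∧ β < 1 ∧ 1 / 2 ≤ β ∧ χ ^ 2 = 1 ∧
    ((κ = 0 ∧ q1 = 1 ∧ Λ = √l) ∨
      (κ = 1 ∧ Real.log q1 ≤ √l ∧ Λ = l / 8 ∧ Real.exp (-(2 * √l)) ≤ 1 - β)) := by
  obtain ⟨l1, h1⟩ := exc_struct
  obtain ⟨l2, h2⟩ := close_of
  obtain ⟨l3, h3⟩ := beta_low
  refine ⟨max (max l1 l2) (max l3 100), fun l hl => ?_⟩
  have hl1 : l1 ≤ l := ((le_max_left _ _).trans (le_max_left _ _)).trans hl
  have hl2 : l2 ≤ l := ((le_max_right _ _).trans (le_max_left _ _)).trans hl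
  have hl3 : l3 ≤ l := ((le_max_left _ _).trans (le_max_right _ _)).trans hl
  have hl100 : 100 ≤ l := ((le_max_right _ _).trans (le_max_right _ _)).trans hl
  have hl0 : 0 < l := by linarith
  set s := √l with hs
  have hs0 : 0 < s := Real.sqrt_pos.2 hl0
  have hss : s ^ 2 = l := Real.sq_sqrt hl0.le
  have hs10 : 10 ≤ s := by
    apply Real.le_sqrt_of_sq_le
    norm_num
    exact hl100
  have hsl : s ≤ l / 8 := by nlinarith
  rcases h1 l hl1 with hA | ⟨q, hq0, χ, β, hq1, hql, hprim, hsq, hβh, hβ1, hz, hax, hA⟩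
  · refine ⟨s, 0, 1 / 2, 1, ⟨one_ne_zero⟩, 1, ?_, by norm_num, le_rfl, one_pow 2, Or.inl ⟨rfl, rfl, rfl⟩⟩
    have hN : NeZero (1 : ℕ) := ⟨one_ne_zero⟩
    apply h2 l hl2 s 0 1 (1 : DirichletCharacter ℂ 1) (1 / 2) (by norm_num) (by linarith) (by
      rw [Nat.cast_one, Real.log_one]; linarith) (Or.inl rfl)
    intro f _ hf hfl ψ hψ _
    exact hA f hf (by linarith) ψ hψ
  · by_cases hqs : Real.log q ≤ s
    · refine ⟨l / 8, 1, β, q, hq0, χ, ?_, hβ1, hβh, hsq, Or.inr ⟨rfl, hqs, rfl, h3 l hl3 q χ β hq1 hqs hprim hsq hβ1 hz⟩⟩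
      apply h2 l hl2 (l / 8) 1 q χ β hβ1.le (by linarith) (by linarith) (Or.inr ⟨rfl, hq1, hprim, hsq, hax⟩)
      intro f _ hf hfl ψ hψ hne
      rcases hne with h | h
      · norm_num at h
      · exact hA f hf (by linarith) ψ hψ h
    · refine ⟨s, 0, 1 / 2, 1, ⟨one_ne_zero⟩, 1, ?_, by norm_num, le_rfl, one_pow 2, Or.inl ⟨rfl, rfl, rfl⟩⟩
      have hN : NeZero (1 : ℕ) := ⟨one_ne_zero⟩
      apply h2 l hl2 s 0 1 (1 : DirichletCharacter ℂ 1) (1 / 2) (by norm_num) (by linarith) (by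
        rw [Nat.cast_one, Real.log_one]; linarith) (Or.inl rfl)
      intro f _ hf hfl ψ hψ _
      apply hA f hf (by linarith) ψ hψ
      intro h
      obtain ⟨e1, _⟩ := Sigma.mk.inj_iff.1 h
      rw [e1] at hfl
      exact hqs hfl

end

end Run7.h402.PT
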