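import Mathlib
import Pool.Agent.H373R2.T7.SupE2
import Pool.Agent.Run7.h402.PT.B3

/-!
# Closeness in progressions and on major arcs
-/

set_option autoImplicit false

open Finset

namespace Run7.h402.PT

open DirichletCharacter
open Pool.Agent.H373R2.T7 (pz Vz lamz mem_pz Vz_pos Vz_inv_le rough_ap lamz_nonneg)
open Pool.Agent.H373R2.T7 (lam_mult_prime natlog_le rat_twist abel_ee)
open Pool.Agent.N475.SP (dom)
open Pool.Agent.H807R2.Dav

noncomputable section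

/-- the real model -/
def Gr (l κ : ℝ) {q1 : ℕ} (χ : DirichletCharacter ℂ q1) (β : ℝ) (n : ℕ) : ℝ :=
  lamz (zl l) n * (1 - κ * (χ (n : ZMod q1)).re * (n : ℝ) ^ (β - 1))

theorem real_char {q1 : ℕ} (χ : DirichletCharacter ℂ q1) (hχ : χ ^ 2 = 1) (a : ZMod q1) :
    χ a = (((χ a).re : ℝ) : ℂ) ∧ |(χ a).re| ≤ 1 := by
  have h1 : (χ a) ^ 2 = (1 : DirichletCharacter ℂ q1) a := by
    rw [← hχ, MulChar.pow_apply' χ (by norm_num)]
  have h2 : χ a = 0 ∨ χ a = 1 ∨ χ a = -1 := by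
    by_cases ha : IsUnit a
    · rw [MulChar.one_apply ha] at h1
      right
      exact mul_self_eq_one_iff.1 (by rw [← pow_two]; exact h1)
    · left
      exact MulChar.map_nonunit _ ha
  rcases h2 with h | h | h
  · rw [h]; simp
  · rw [h]; simp
  · rw [h]; simp

theorem Gc_eq (l κ : ℝ) {q1 : ℕ} (χ : DirichletCharacter ℂ q1) (hχ : χ ^ 2 = 1) (β : ℝ) (n : ℕ) :
    Gc l κ χ β n = ((Gr l κ χ β n : ℝ) : ℂ) := by
  unfold Gc Gr
  rw [(real_char χ hχ (n : ZMod q1)).1]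
  push_cast
  simp

theorem Gr_bounds (l κ : ℝ) (hκ : 0 ≤ κ) (hκ1 : κ ≤ 1) {q1 : ℕ} (χ : DirichletCharacter ℂ q1) (hχ : χ ^ 2 = 1) (β : ℝ) (hβ : β ≤ 1)
    (n : ℕ) (hn : 1 ≤ n) : 0 ≤ Gr l κ χ β n ∧ Gr l κ χ β n ≤ 2 * (Vz (zl l))⁻¹ := by
  have h1 := (abs_le.1 (real_char χ hχ (n : ZMod q1)).2)
  have h2 : 0 ≤ (n : ℝ) ^ (β - 1) := by positivity
  have h3 : (n : ℝ) ^ (β - 1) ≤ 1 := Real.rpow_le_one_of_one_le_of_nonpos (by exact_mod_cast hn) (by linarith)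
  have h4 := lamz_nonneg (zl l) n
  have h5 : lamz (zl l) n ≤ (Vz (zl l))⁻¹ := by
    unfold lamz
    split_ifs
    · exact le_rfl
    · exact (inv_pos.2 (Vz_pos _)).le
  have h6 : |κ * (χ (n : ZMod q1)).re * (n : ℝ) ^ (β - 1)| ≤ 1 := by
    rw [abs_mul, abs_mul, abs_of_nonneg hκ, abs_of_nonneg h2]
    calc κ * |(χ (n : ZMod q1)).re| * (n : ℝ) ^ (β - 1) ≤ 1 * 1 * 1 := by
          gcongr
          exact (real_char χ hχ (n : ZMod q1)).2
      _ = 1 := by norm_num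
  have h7 := abs_le.1 h6
  unfold Gr
  constructor
  · apply mul_nonneg h4
    linarith
  · calc lamz (zl l) n * (1 - κ * (χ (n : ZMod q1)).re * (n : ℝ) ^ (β - 1)) ≤ lamz (zl l) n * 2 := by
          apply mul_le_mul_of_nonneg_left _ h4
          linarith
      _ ≤ (Vz (zl l))⁻¹ * 2 := by gcongr
      _ = _ := mul_comm _ _

theorem close_ap : ∃ l0 : ℝ, ∀ l : ℝ, l0 ≤ l → ∀ (Λ κ : ℝ) (q1 : ℕ) (χ : DirichletCharacter ℂ q1) (β : ℝ),
    Λ ≤ l → χ ^ 2 = 1 → Close l Λ κ χ β →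
    ∀ X : ℝ, Real.exp (l ^ 23) ≤ X → X ≤ Real.exp (l ^ 41) → ∀ (q : ℕ), 1 ≤ q → Real.log q ≤ Λ →
    ∀ (c y : ℕ), (y : ℝ) ≤ X →
      |∑ n ∈ (Icc 1 y).filter (fun n => n ≡ c [MOD q]), (ArithmeticFunction.vonMangoldt n - Gr l κ χ β n)| ≤
        X * Real.exp (-(l / 6)) := by
  obtain ⟨a1, ha1⟩ := dom 3 1 82 one_pos
  refine ⟨max a1 2, fun l hl Λ κ q1 χ β hΛ hχ hC X hX1 hX2 q hq1 hq c y hy => ?_⟩
  have hD := ha1 l ((le_max_left _ _).trans hl)
  rw [one_mul] at hD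
  have hl2 : 2 ≤ l := (le_max_right _ _).trans hl
  have hl0 : 0 < l := by linarith
  have hl1 : 1 ≤ l := by linarith
  have hX0 : 0 < X := (Real.exp_pos _).trans_le hX1
  have hN : NeZero q := ⟨by omega⟩
  by_cases hc : c.Coprime q
  · -- orthogonality
    have hcu : IsUnit (c : ZMod q) := (ZMod.isUnit_iff_coprime c q).2 hc
    have htot : (0 : ℝ) < Nat.totient q := by exact_mod_cast Nat.totient_pos.2 hq1
    set f : ℕ → ℝ := fun n => ArithmeticFunction.vonMangoldt n - Gr l κ χ β n with hf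
    have h1 : (((∑ n ∈ (Icc 1 y).filter (fun n => n ≡ c [MOD q]), f n : ℝ)) : ℂ) * (Nat.totient q : ℂ) =
        ∑ ψ : DirichletCharacter ℂ q, ψ ((c : ZMod q)⁻¹) * ∑ n ∈ Icc 1 y, ((f n : ℝ) : ℂ) * ψ (n : ZMod q) := by
      have h2 : ∀ ψ : DirichletCharacter ℂ q, ψ ((c : ZMod q)⁻¹) * ∑ n ∈ Icc 1 y, ((f n : ℝ) : ℂ) * ψ (n : ZMod q) =
          ∑ n ∈ Icc 1 y, ((f n : ℝ) : ℂ) * (ψ ((c : ZMod q)⁻¹) * ψ (n : ZMod q)) := by
        intro ψ
        rw [mul_sum]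
        apply sum_congr rfl
        intro n _
        ring
      rw [sum_congr rfl (fun ψ _ => h2 ψ), sum_comm]
      push_cast
      rw [sum_filter, sum_mul]
      apply sum_congr rfl
      intro n _
      rw [← mul_sum, DirichletCharacter.sum_char_inv_mul_char_eq ℂ hcu]
      by_cases h3 : n ≡ c [MOD q]
      · rw [if_pos h3, if_pos ((ZMod.natCast_eq_natCast_iff _ _ _).2 h3).symm]
      · rw [if_neg h3, if_neg (fun h => h3 ((ZMod.natCast_eq_natCast_iff _ _ _).1 h.symm))]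
        ring
    have h2 : ‖∑ ψ : DirichletCharacter ℂ q, ψ ((c : ZMod q)⁻¹) * ∑ n ∈ Icc 1 y, ((f n : ℝ) : ℂ) * ψ (n : ZMod q)‖ ≤
        Nat.totient q * (X * Real.exp (-(l / 6))) := by
      refine (norm_sum_le _ _).trans ?_
      have h3 : ∀ ψ ∈ (univ : Finset (DirichletCharacter ℂ q)), ‖ψ ((c : ZMod q)⁻¹) * ∑ n ∈ Icc 1 y, ((f n : ℝ) : ℂ) * ψ (n : ZMod q)‖ ≤
          X * Real.exp (-(l / 6)) := by
        intro ψ _
        rw [norm_mul]
        have h4 := hC X hX1 hX2 q hq ψ y hy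
        have h5 : ∑ n ∈ Icc 1 y, ((f n : ℝ) : ℂ) * ψ (n : ZMod q) =
            ∑ n ∈ Icc 1 y, (((ArithmeticFunction.vonMangoldt n : ℝ) : ℂ) - Gc l κ χ β n) * ψ (n : ZMod q) := by
          apply sum_congr rfl
          intro n _
          rw [Gc_eq l κ χ hχ, hf]
          push_cast
          ring
        rw [h5]
        calc ‖ψ ((c : ZMod q)⁻¹)‖ * _ ≤ 1 * ‖_‖ := mul_le_mul_of_nonneg_right (ψ.norm_le_one _) (norm_nonneg _)
          _ ≤ _ := by rw [one_mul]; exact h4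
      refine (sum_le_sum h3).trans ?_
      rw [sum_const, nsmul_eq_mul, card_univ, ← Nat.card_eq_fintype_card, DirichletCharacter.card_eq_totient_of_hasEnoughRootsOfUnity ℂ q]
    rw [← h1, norm_mul, Complex.norm_real, Real.norm_eq_abs, Complex.norm_natCast, mul_comm] at h2
    exact le_of_mul_le_mul_left h2 htot
  · -- non-coprime classes
    have hq0 : (0 : ℝ) < q := by exact_mod_cast NeZero.pos q
    have hqe : (q : ℝ) ≤ Real.exp l := by
      have : Real.log q ≤ l := hq.trans hΛ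
      rwa [Real.log_le_iff_le_exp hq0] at this
    have hqz : q ≤ zl l := Nat.le_floor hqe
    have hG : ∑ n ∈ (Icc 1 y).filter (fun n => n ≡ c [MOD q]), (ArithmeticFunction.vonMangoldt n - Gr l κ χ β n) =
        Pool.Agent.H373R2.T7.lamAP y q c := by
      unfold Pool.Agent.H373R2.T7.lamAP
      apply sum_congr rfl
      intro n hn
      rw [mem_filter] at hn
      have : lamz (zl l) n = 0 := by
        unfold lamz
        rw [if_neg]
        intro h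
        obtain ⟨p, hp, hpc, hpq⟩ := Nat.Prime.not_coprime_iff_dvd.1 hc
        exact h p (mem_pz.2 ⟨(Nat.le_of_dvd (by omega) hpq).trans hqz, hp⟩) ((hn.2.dvd_iff hpq).2 hpc)
      unfold Gr
      rw [this, zero_mul, sub_zero]
    rw [hG, abs_of_nonneg (Pool.Agent.H373R2.T7.lamAP_nonneg _ _ _)]
    refine (Pool.Agent.H373R2.T7.lamAP_noncop y q c hc).trans ?_
    rcases Nat.eq_zero_or_pos y with hy0 | hy1
    · rw [hy0]; simp; positivity
    have hy1r : (1 : ℝ) ≤ y := by exact_mod_cast hy1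
    have hlogy : Real.log y ≤ l ^ 41 := by
      rw [Real.log_le_iff_le_exp (by linarith)]
      exact hy.trans hX2
    have hlogy0 : 0 ≤ Real.log y := Real.log_nonneg hy1r
    have h4 := natlog_le y hy1
    have h5 : 1 ≤ l ^ 41 := one_le_pow₀ hl1
    have hp23 : 4 * l ≤ l ^ 23 := by
      have h4 : l ^ 3 ≤ l ^ 23 := pow_le_pow_right₀ hl1 (by norm_num)
      nlinarith [sq_nonneg l, mul_pos hl0 hl0]
    calc (Nat.log 2 y + 1 : ℝ) * Real.log y ≤ (2 * l ^ 41 + l ^ 41) * l ^ 41 := by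
          gcongr
          linarith
      _ = 3 * l ^ 82 := by ring
      _ ≤ Real.exp l := hD
      _ ≤ Real.exp (l ^ 23 + -(l / 6)) := by
          apply Real.exp_le_exp.2
          linarith
      _ = Real.exp (l ^ 23) * Real.exp (-(l / 6)) := Real.exp_add _ _
      _ ≤ X * Real.exp (-(l / 6)) := by gcongr

/-- closeness on major arcs -/
theorem close_major : ∃ l0 : ℝ, ∀ l : ℝ, l0 ≤ l → ∀ (Λ κ : ℝ) (q1 : ℕ) (χ : DirichletCharacter ℂ q1) (β : ℝ),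
    Λ ≤ l → χ ^ 2 = 1 → Close l Λ κ χ β →
    ∀ N : ℕ, Real.exp (l ^ 23) ≤ N → (N : ℝ) ≤ Real.exp (l ^ 41) → ∀ (q : ℕ), 1 ≤ q → Real.log q ≤ Λ →
    ∀ (b : ℤ) (α T : ℝ), |α - b / q| * N ≤ T → 
      ‖∑ n ∈ Icc 1 N, ((ArithmeticFunction.vonMangoldt n - Gr l κ χ β n : ℝ) : ℂ) * ee ((n : ℝ) * α)‖ ≤
        q * (N * Real.exp (-(l / 6))) * (1 + 7 * T) := by
  obtain ⟨l0, h0⟩ := close_ap
  refine ⟨l0, fun l hl Λ κ q1 χ β hΛ hχ hC N hN1 hN2 q hq1 hq b α T hT => ?_⟩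
  have hAP := h0 l hl Λ κ q1 χ β hΛ hχ hC N hN1 hN2 q hq1 hq
  set f : ℕ → ℝ := fun n => ArithmeticFunction.vonMangoldt n - Gr l κ χ β n with hf
  have hpart : ∀ y : ℕ, y ≤ N → ‖∑ n ∈ Icc 1 y, ((f n : ℝ) : ℂ) * ee (n * ((b : ℝ) / q))‖ ≤
      q * (N * Real.exp (-(l / 6))) := fun y hy =>
    rat_twist f y q hq1 b _ (fun c => hAP c y (by exact_mod_cast hy))
  set γ : ℝ := α - (b : ℝ) / q with hγ
  have h1 := abel_ee (fun n => ((f n : ℝ) : ℂ) * ee (n * ((b : ℝ) / q))) γ (q * (N * Real.exp (-(l / 6)))) N hpart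
  have h2 : ∑ n ∈ Icc 1 N, ((ArithmeticFunction.vonMangoldt n - Gr l κ χ β n : ℝ) : ℂ) * ee ((n : ℝ) * α) =
      ∑ n ∈ Icc 1 N, (((f n : ℝ) : ℂ) * ee (n * ((b : ℝ) / q))) * ee (n * γ) := by
    apply sum_congr rfl
    intro n _
    rw [mul_assoc, ← ee_add]
    congr 2
    rw [hγ]
    ring
  rw [h2]
  refine h1.trans ?_
  have h3 : (N : ℝ) * ‖ee γ - 1‖ ≤ 7 * T := by
    have h4 : ‖ee γ - 1‖ ≤ 2 * Real.pi * |γ| := by
      have := dd_le γ
      unfold dd at this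
      rw [norm_sub_rev] at this
      exact this
    have hpi : Real.pi < 3.15 := Real.pi_lt_d2
    have h6 : 0 ≤ |γ| * N := by positivity
    calc (N : ℝ) * ‖ee γ - 1‖ ≤ N * (2 * Real.pi * |γ|) := by gcongr
      _ = 2 * Real.pi * (|γ| * N) := by ring
      _ ≤ 7 * (|γ| * N) := by
          apply mul_le_mul_of_nonneg_right _ h6
          linarith
      _ ≤ 7 * T := by linarith
  apply mul_le_mul_of_nonneg_left _ (by positivity)
  linarith

end

end Run7.h402.PT
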