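import Mathlib
import Pool.Agent.H373R2.T7.LamZ2
import Pool.Agent.H373R2.T7.BilF
import Pool.Agent.Run7.h402.PT.B4

/-!
# Minor arcs for the sieve model
-/

set_option autoImplicit false

namespace Run7.h402.PT

open Finset
open Pool.Agent.H807R2.Dav
open Pool.Agent.H373R2.T7

/-- the density of the rough numbers -/
theorem Vz_scale : ∃ C : ℝ, 1 ≤ C ∧ ∀ l : ℝ, 4 ≤ l → (Vz (zl l))⁻¹ ≤ C * l ^ 2 := by
  obtain ⟨C, hC⟩ := Pool.Agent.Helper256.KM.mertens_inv
  refine ⟨Real.exp (2 * |C|), Real.one_le_exp (by positivity), fun l hl => ?_⟩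
  have hl0 : 0 < l := by linarith
  have h3 : 3 ≤ zl l := by
    unfold zl
    rw [Nat.le_floor_iff (Real.exp_pos _).le]
    have := Real.add_one_le_exp l
    push_cast
    linarith
  set z := zl l with hz
  have h4 := hC z h3
  have h5 : (Vz z)⁻¹ ≤ Real.exp (2 * ∑ p ∈ pz z, 1 / (p : ℝ)) := by
    unfold Vz
    rw [← prod_inv_distrib, mul_sum, Real.exp_sum]
    apply prod_le_prod
    · intro p hp
      have hp2 : (2 : ℝ) ≤ p := by exact_mod_cast (mem_pz.1 hp).2.two_le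
      apply inv_nonneg.2
      rw [sub_nonneg, div_le_one (by linarith)]; linarith
    · intro p hp
      have hp2 : (2 : ℝ) ≤ p := by exact_mod_cast (mem_pz.1 hp).2.two_le
      have h6 : (1 - 1 / (p : ℝ))⁻¹ ≤ 2 * (1 / p) + 1 := by
        rw [inv_le_iff_one_le_mul₀ (by rw [sub_pos, div_lt_one (by linarith)]; linarith)]
        have h7 : 0 < 1 / (p : ℝ) := by positivity
        have h8 : 1 / (p : ℝ) ≤ 1 / 2 := one_div_le_one_div_of_le (by norm_num) hp2
        nlinarith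
      exact h6.trans (Real.add_one_le_exp _)
  have hz3 : (3 : ℝ) ≤ z := by exact_mod_cast h3
  have hlz : 1 ≤ Real.log z := by
    rw [← Real.log_exp 1]
    apply Real.log_le_log (Real.exp_pos _)
    have := Real.exp_one_lt_d9
    linarith
  have hlzl : Real.log z ≤ l := by
    rw [Real.log_le_iff_le_exp (by linarith)]
    exact zl_le l
  have h6 : ∑ p ∈ pz z, 1 / (p : ℝ) ≤ Real.log l + |C| := by
    have := (abs_le.1 h4).2
    have h7 : Real.log (Real.log z) ≤ Real.log l := Real.log_le_log (by linarith) hlzl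
    have h8 := le_abs_self C
    unfold pz
    linarith
  calc (Vz z)⁻¹ ≤ Real.exp (2 * ∑ p ∈ pz z, 1 / (p : ℝ)) := h5
    _ ≤ Real.exp (2 * (Real.log l + |C|)) := Real.exp_le_exp.2 (by linarith)
    _ = Real.exp (2 * |C|) * l ^ 2 := by
        rw [mul_add, Real.exp_add, mul_comm 2 (Real.log l), Real.exp_mul, Real.exp_log hl0]
        norm_num
        ring

/-- minor arcs for the sieve model -/
theorem lamz_minor_R : ∃ C : ℝ, 1 ≤ C ∧ ∀ l : ℝ, 9 ≤ l → ∀ N : ℕ, Real.exp (l ^ 23) ≤ N → (N : ℝ) ≤ Real.exp (l ^ 41) →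
    ∀ R : ℝ, 1 ≤ R → R ≤ Real.exp l → ∀ q : ℕ, R ≤ q → (q : ℝ) ≤ N / R →
    ∀ c : ℤ, IsCoprime c (q : ℤ) → ∀ α : ℝ, |α - c / q| ≤ 1 / (q : ℝ) ^ 2 → ∀ y : ℕ, y ≤ N →
    ‖∑ n ∈ Icc 1 y, ((lamz (zl l) n : ℝ) : ℂ) * ee ((n : ℝ) * α)‖ ≤ C * l ^ 84 * (N / R) := by
  obtain ⟨C, hC1, hV⟩ := Vz_scale
  refine ⟨10801 * C, by linarith, fun l hl N hN1 hN2 R hR1 hRl q hq1 hq2 c hcop α hα y hyN => ?_⟩
  have hV := hV l (by linarith)
  have hl0 : 0 < l := by linarith
  have hl1 : 1 ≤ l := by linarith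
  have hR0 : 0 < R := by linarith
  have hN0 : (0 : ℝ) < N := (Real.exp_pos _).trans_le hN1
  have hL : Real.log N ≤ l ^ 41 := by
    rw [Real.log_le_iff_le_exp hN0]; exact hN2
  have hL1 : l ^ 23 ≤ Real.log N := by
    rw [Real.le_log_iff_exp_le hN0]; exact hN1
  set L := Real.log N with hLd
  have hL0 : 0 < L := lt_of_lt_of_le (by positivity) hL1
  have hz := zl_one l hl0.le
  rcases Nat.eq_zero_or_pos y with hy0 | hy1
  · rw [hy0]; simp; positivity
  have hq0 : (0 : ℝ) < q := by linarith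
  have hqn : 1 ≤ q := by exact_mod_cast hq0
  have hqr : (1 : ℝ) ≤ q := by exact_mod_cast hqn
  have hqN : (q : ℝ) ≤ N := hq2.trans (div_le_self hN0.le hR1)
  have hlq : Real.log q ≤ L := Real.log_le_log hq0 hqN
  have hlq0 : 0 ≤ Real.log q := Real.log_nonneg hqr
  have hyr : (y : ℝ) ≤ N := by exact_mod_cast hyN
  set z := zl l with hzd
  have hz1 : (1 : ℝ) ≤ z := by exact_mod_cast hz
  have hzl : (z : ℝ) ≤ Real.exp l := zl_le l
  set r : ℕ := ⌈l ^ 2⌉₊ with hr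
  have hr1 : l ^ 2 ≤ r := Nat.le_ceil _
  have hr2 : (r : ℝ) ≤ l ^ 2 + 1 := (Nat.ceil_lt_add_one (by positivity)).le
  have hlz : Real.log z ≤ l := by
    rw [Real.log_le_iff_le_exp (by linarith)]; exact hzl
  have hz1e : (z : ℝ) + 1 ≤ Real.exp (l + 1) := by
    rw [Real.exp_add]
    have h6 := Real.add_one_le_exp (1 : ℝ)
    have h7 : 1 ≤ Real.exp l := Real.one_le_exp hl0.le
    nlinarith
  have h6 : ((z : ℝ) + 1) ^ r ≤ Real.exp ((l + 1) * (l ^ 2 + 1)) := by
    calc ((z : ℝ) + 1) ^ r ≤ Real.exp (l + 1) ^ r := by gcongr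
      _ = Real.exp (r * (l + 1)) := by rw [← Real.exp_nat_mul]
      _ ≤ Real.exp ((l + 1) * (l ^ 2 + 1)) := by
          apply Real.exp_le_exp.2
          rw [mul_comm]
          gcongr
  have hpoly : (l + 1) * (l ^ 2 + 1) + l ≤ l ^ 23 := by
    have h7 : l ^ 5 ≤ l ^ 23 := pow_le_pow_right₀ hl1 (by norm_num)
    have h8 : (l + 1) * (l ^ 2 + 1) + l ≤ l ^ 5 := by
      have a1 : 8 * l ≤ l ^ 2 := by nlinarith
      have a2 : 8 * l ^ 2 ≤ l ^ 3 := by nlinarith [sq_nonneg l]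
      have a3 : 8 * l ^ 3 ≤ l ^ 4 := by nlinarith [pow_pos hl0 3]
      have a4 : 8 * l ^ 4 ≤ l ^ 5 := by nlinarith [pow_pos hl0 4]
      nlinarith
    exact h8.trans h7
  set D := (z + 1) ^ r with hD
  have hD1 : 1 ≤ D := Nat.one_le_pow _ _ (by omega)
  have hDe : (D : ℝ) ≤ Real.exp ((l + 1) * (l ^ 2 + 1)) := by
    rw [hD]; push_cast; exact h6
  have hDR : (D : ℝ) ≤ N / R := by
    rw [le_div_iff₀ hR0]
    calc (D : ℝ) * R ≤ Real.exp ((l + 1) * (l ^ 2 + 1)) * Real.exp l := by gcongr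
      _ = Real.exp ((l + 1) * (l ^ 2 + 1) + l) := (Real.exp_add _ _).symm
      _ ≤ Real.exp (l ^ 23) := Real.exp_le_exp.2 hpoly
      _ ≤ N := hN1
  have hV0 : 0 < (Vz z)⁻¹ := inv_pos.2 (Vz_pos z)
  set ind : ℕ → ℝ := fun n => if ∀ p ∈ pz z, ¬ p ∣ n then (1 : ℝ) else 0 with hind
  set χ : Finset ℕ → ℕ → ℝ := fun S n => if ∀ p ∈ S, p ∣ n then (1 : ℝ) else 0 with hχ
  have hpt : ∀ n : ℕ, |ind n - ∑ j ∈ range r, (-1 : ℝ) ^ j * ∑ S ∈ (pz z).powersetCard j, χ S n| ≤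
      ∑ S ∈ (pz z).powersetCard r, χ S n := by
    intro n
    have := bonf_ind (fun p n => p ∣ n) (pz z) r n
    rw [hind, hχ]
    convert this
  have hS : ∑ n ∈ Icc 1 y, ((lamz z n : ℝ) : ℂ) * ee ((n : ℝ) * α) =
      (((Vz z)⁻¹ : ℝ) : ℂ) * ∑ n ∈ Icc 1 y, ((ind n : ℝ) : ℂ) * ee ((n : ℝ) * α) := by
    rw [mul_sum]
    apply sum_congr rfl
    intro n _
    rw [hind]
    unfold lamz
    by_cases h : ∀ p ∈ pz z, ¬ p ∣ n
    · simp only [if_pos h]
      push_cast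
      ring
    · simp only [if_neg h]
      push_cast
      ring
  have hprime : ∀ j, ∀ S ∈ (pz z).powersetCard j, ∀ p ∈ S, p.Prime := fun j S hS p hp =>
    (mem_pz.1 ((mem_powersetCard.1 hS).1 hp)).2
  have hpos : ∀ j, ∀ S ∈ (pz z).powersetCard j, 1 ≤ ∏ p ∈ S, p := fun j S hS =>
    Nat.pos_of_ne_zero (prod_ne_zero_iff.2 fun p hp => (hprime j S hS p hp).ne_zero)
  -- the error
  have herr : ∑ n ∈ Icc 1 y, ∑ S ∈ (pz z).powersetCard r, χ S n ≤ N * Real.exp (-l) := by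
    rw [sum_comm]
    have h4 : ∀ S ∈ (pz z).powersetCard r, ∑ n ∈ Icc 1 y, χ S n ≤ y * ∏ p ∈ S, (1 / (p : ℝ)) := by
      intro S hS
      have h5 : ∑ n ∈ Icc 1 y, χ S n = (((Icc 1 y).filter (fun n => ∏ p ∈ S, p ∣ n)).card : ℝ) := by
        rw [card_eq_sum_ones]
        push_cast
        rw [sum_filter]
        apply sum_congr rfl
        intro n _
        rw [hχ]
        simp only [prod_dvd_iff S (hprime r S hS)]
      rw [h5]
      have h6 : ((Icc 1 y).filter (fun n => ∏ p ∈ S, p ∣ n)).card = y / ∏ p ∈ S, p := by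
        rw [← Nat.Ioc_filter_dvd_card_eq_div y (∏ p ∈ S, p)]
        congr 1
      rw [h6, prod_div_distrib, prod_const_one, mul_one_div]
      refine Nat.cast_div_le.trans ?_
      push_cast
      exact le_rfl
    refine (sum_le_sum h4).trans ?_
    rw [← mul_sum]
    have h5 := es_le (x := fun p => 1 / (p : ℝ)) (T := pz z) (fun p _ => by positivity) r
    unfold es at h5
    have h9 : Real.exp (3 * ∑ p ∈ pz z, 1 / (p : ℝ) - r) ≤ Real.exp (-l) := by
      apply Real.exp_le_exp.2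
      have := sum_pz_le z
      nlinarith
    exact mul_le_mul hyr (h5.trans h9) (sum_nonneg fun S _ => prod_nonneg fun p _ => by positivity) hN0.le
  -- the main part
  have hmain : ‖∑ n ∈ Icc 1 y, (((∑ j ∈ range r, (-1 : ℝ) ^ j * ∑ S ∈ (pz z).powersetCard j, χ S n : ℝ)) : ℂ) *
      ee ((n : ℝ) * α)‖ ≤ ∑ d ∈ Icc 1 D, KK (2 * y / d) (d * α) := by
    have h4 : ∑ n ∈ Icc 1 y, (((∑ j ∈ range r, (-1 : ℝ) ^ j * ∑ S ∈ (pz z).powersetCard j, χ S n : ℝ)) : ℂ) *
        ee ((n : ℝ) * α) = ∑ j ∈ range r, (-1 : ℂ) ^ j * ∑ S ∈ (pz z).powersetCard j,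
          ∑ n ∈ Icc 1 y, ((χ S n : ℝ) : ℂ) * ee ((n : ℝ) * α) := by
      push_cast
      simp only [sum_mul, mul_sum]
      rw [sum_comm]
      apply sum_congr rfl
      intro j _
      rw [sum_comm]
      apply sum_congr rfl
      intro S _
      apply sum_congr rfl
      intro n _
      ring
    rw [h4]
    refine (norm_sum_le _ _).trans ?_
    have h5 : ∀ j ∈ range r, ‖(-1 : ℂ) ^ j * ∑ S ∈ (pz z).powersetCard j,
          ∑ n ∈ Icc 1 y, ((χ S n : ℝ) : ℂ) * ee ((n : ℝ) * α)‖ ≤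
        ∑ S ∈ (pz z).powersetCard j, KK (2 * y / ((∏ p ∈ S, p : ℕ) : ℝ)) (((∏ p ∈ S, p : ℕ) : ℝ) * α) := by
      intro j _
      rw [norm_mul, norm_pow, norm_neg, norm_one, one_pow, one_mul]
      refine (norm_sum_le _ _).trans (sum_le_sum fun S hS => ?_)
      set d := ∏ p ∈ S, p with hd
      have hd1 : 1 ≤ d := hpos j S hS
      have hd0 : (0 : ℝ) < d := by exact_mod_cast hd1
      have h6 : ∑ n ∈ Icc 1 y, ((χ S n : ℝ) : ℂ) * ee ((n : ℝ) * α) =
          ∑ n ∈ (Icc 1 y).filter (fun n => d ∣ n), ee ((n : ℝ) * α) := by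
        rw [sum_filter]
        apply sum_congr rfl
        intro n _
        rw [hχ]
        simp only [prod_dvd_iff S (hprime j S hS)]
        rw [← hd]
        split_ifs <;> simp
      rw [h6, sum_mult y d hd1]
      have h7 : ∀ m ∈ Icc 1 (y / d), ee (((d * m : ℕ) : ℝ) * α) = ee ((m : ℝ) * (d * α)) := by
        intro m _; congr 1; push_cast; ring
      rw [sum_congr rfl h7]
      have h8 : Icc 1 (y / d) = Ico 1 (y / d + 1) := by ext x; rw [mem_Icc, mem_Ico]; omega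
      rw [h8]
      apply geo_bound _ _ (Nat.le_add_left 1 _)
      push_cast
      have h9 : ((y / d : ℕ) : ℝ) ≤ y / d := Nat.cast_div_le
      have h10 : 0 ≤ (y : ℝ) / d := by positivity
      have h11 : 2 * (y : ℝ) / d = 2 * (y / d) := by ring
      rw [h11]
      linarith
    refine (sum_le_sum h5).trans ?_
    have h6 := sum_small_le z r (fun d => KK (2 * y / (d : ℝ)) ((d : ℝ) * α)) (fun d => KK_nonneg (by positivity) _)
    rw [sum_range_succ] at h6
    have h7 : 0 ≤ ∑ S ∈ (pz z).powersetCard r, KK (2 * y / ((∏ p ∈ S, p : ℕ) : ℝ)) (((∏ p ∈ S, p : ℕ) : ℝ) * α) :=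
      sum_nonneg fun S _ => KK_nonneg (by positivity) _
    linarith
  have htot : ‖∑ n ∈ Icc 1 y, ((ind n : ℝ) : ℂ) * ee ((n : ℝ) * α)‖ ≤
      N * Real.exp (-l) + ∑ d ∈ Icc 1 D, KK (2 * y / d) (d * α) := by
    have h4 : ∑ n ∈ Icc 1 y, ((ind n : ℝ) : ℂ) * ee ((n : ℝ) * α) =
        ∑ n ∈ Icc 1 y, ((ind n - ∑ j ∈ range r, (-1 : ℝ) ^ j * ∑ S ∈ (pz z).powersetCard j, χ S n : ℝ) : ℂ) * ee ((n : ℝ) * α) +
        ∑ n ∈ Icc 1 y, (((∑ j ∈ range r, (-1 : ℝ) ^ j * ∑ S ∈ (pz z).powersetCard j, χ S n : ℝ)) : ℂ) * ee ((n : ℝ) * α) := by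
      rw [← sum_add_distrib]
      apply sum_congr rfl
      intro n _
      push_cast
      ring
    rw [h4]
    refine (norm_add_le _ _).trans (add_le_add ?_ hmain)
    refine le_trans ?_ herr
    refine (norm_sum_le _ _).trans (sum_le_sum fun n _ => ?_)
    rw [norm_mul, norm_ee, mul_one, Complex.norm_real, Real.norm_eq_abs]
    exact hpt n
  have htI := typeI_lin hqn hcop hα y D hy1 hD1
  rw [hS, norm_mul, Complex.norm_real, Real.norm_of_nonneg hV0.le]
  have hlog2 : (Nat.log 2 D : ℝ) ≤ 2 * L := by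
    have h4 : (2 : ℝ) ^ Nat.log 2 D ≤ D := by exact_mod_cast Nat.pow_log_le_self 2 (by omega : D ≠ 0)
    have h5 : (D : ℝ) ≤ N := hDR.trans (div_le_self hN0.le hR1)
    have h6 := Real.log_le_log (by positivity) (h4.trans h5)
    rw [Real.log_pow] at h6
    have := Real.log_two_gt_d9
    have h7 : (0 : ℝ) ≤ Nat.log 2 D := Nat.cast_nonneg _
    rw [← hLd] at h6
    nlinarith
  have hNq : (y : ℝ) / q ≤ N / R := by
    calc (y : ℝ) / q ≤ N / q := div_le_div_of_nonneg_right hyr hq0.le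
      _ ≤ N / R := div_le_div_of_nonneg_left hN0.le hR0 hq1
  have hNl : N * Real.exp (-l) ≤ N / R := by
    rw [Real.exp_neg, ← div_eq_mul_inv]
    exact div_le_div_of_nonneg_left hN0.le hR0 hRl
  have hP : 0 ≤ (N : ℝ) / R := by positivity
  have hl41 : 1 ≤ l ^ 41 := one_le_pow₀ hl1
  calc (Vz z)⁻¹ * ‖∑ n ∈ Icc 1 y, ((ind n : ℝ) : ℂ) * ee ((n : ℝ) * α)‖
      ≤ (C * l ^ 2) * (N / R + 600 * (2 * l ^ 41 + l ^ 41) * (3 * (N / R)) * (l ^ 41 + l ^ 41)) := by
        apply mul_le_mul hV _ (norm_nonneg _) (by positivity)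
        refine htot.trans (add_le_add hNl (htI.trans ?_))
        gcongr
        · linarith
        · linarith
        · linarith
    _ = C * l ^ 2 * (1 + 10800 * (l ^ 41) ^ 2) * (N / R) := by ring
    _ ≤ C * l ^ 2 * ((l ^ 41) ^ 2 + 10800 * (l ^ 41) ^ 2) * (N / R) := by
        gcongr
        exact one_le_pow₀ hl41
    _ = 10801 * C * l ^ 84 * (N / R) := by ring

/-- sums twisted by a periodic character from sums twisted by rational frequencies -/
theorem char_of_add (q1 : ℕ) (hq1 : 1 ≤ q1) (g : ℕ → ℂ) (hg : ∀ n, ‖g n‖ ≤ 1) (hper : ∀ n, g (n % q1) = g n) (F : ℕ → ℂ) (y : ℕ) (M : ℝ)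
    (h : ∀ b : ℕ, ‖∑ n ∈ Icc 1 y, F n * ee ((n : ℝ) * ((b : ℝ) / q1))‖ ≤ M) :
    ‖∑ n ∈ Icc 1 y, F n * g n‖ ≤ q1 * M := by
  have hq0 : (0 : ℝ) < q1 := by exact_mod_cast hq1
  have hM : 0 ≤ M := (norm_nonneg _).trans (h 0)
  have key : (q1 : ℂ) * ∑ n ∈ Icc 1 y, F n * g n = ∑ c ∈ range q1, ∑ t ∈ range q1,
      g c * ee (-((c : ℝ) * ((t : ℝ) / q1))) * ∑ n ∈ Icc 1 y, F n * ee ((n : ℝ) * ((t : ℝ) / q1)) := by
    have h1 : ∀ n ∈ Icc 1 y, (q1 : ℂ) * (F n * g n) = ∑ c ∈ range q1, ∑ t ∈ range q1,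
        g c * ee (-((c : ℝ) * ((t : ℝ) / q1))) * (F n * ee ((n : ℝ) * ((t : ℝ) / q1))) := by
      intro n _
      have h2 : ∀ c ∈ range q1, ∑ t ∈ range q1,
          g c * ee (-((c : ℝ) * ((t : ℝ) / q1))) * (F n * ee ((n : ℝ) * ((t : ℝ) / q1))) =
          if c = n % q1 then (q1 : ℂ) * (F n * g n) else 0 := by
        intro c hc
        rw [mem_range] at hc
        have h3 : ∀ t ∈ range q1, g c * ee (-((c : ℝ) * ((t : ℝ) / q1))) * (F n * ee ((n : ℝ) * ((t : ℝ) / q1))) =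
            (g c * F n) * ee ((t : ℝ) * ((((n : ℤ) - (c : ℤ) : ℤ) : ℝ) / q1)) := by
          intro t _
          have h4 : ee ((t : ℝ) * ((((n : ℤ) - (c : ℤ) : ℤ) : ℝ) / q1)) =
              ee (-((c : ℝ) * ((t : ℝ) / q1))) * ee ((n : ℝ) * ((t : ℝ) / q1)) := by
            rw [← ee_add]
            congr 1
            push_cast
            ring
          rw [h4]
          ring
        rw [sum_congr rfl h3, ← mul_sum, orth q1 hq1]
        by_cases h5 : c = n % q1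
        · rw [if_pos h5, if_pos]
          · rw [h5, hper]; ring
          · rw [h5]
            have : (n : ℤ) - ((n % q1 : ℕ) : ℤ) = q1 * ((n / q1 : ℕ) : ℤ) := by
              have h6 := Nat.mod_add_div n q1
              zify at h6
              push_cast
              linarith
            rw [this]
            exact dvd_mul_right _ _
        · rw [if_neg h5, if_neg, mul_zero]
          intro hd
          apply h5
          have h6 : n ≡ c [MOD q1] := by
            rw [← Int.natCast_modEq_iff]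
            exact (Int.modEq_iff_dvd.2 (by
              have := (dvd_neg).2 hd
              simpa using this))
          unfold Nat.ModEq at h6
          rw [h6, Nat.mod_eq_of_lt hc]
      rw [sum_congr rfl h2, sum_ite_eq' (range q1) (n % q1)]
      rw [if_pos (mem_range.2 (Nat.mod_lt _ (by omega)))]
    rw [mul_sum, sum_congr rfl h1, sum_comm]
    apply sum_congr rfl
    intro c _
    rw [sum_comm]
    apply sum_congr rfl
    intro t _
    rw [mul_sum]
  have h2 : ‖(q1 : ℂ) * ∑ n ∈ Icc 1 y, F n * g n‖ ≤ q1 * (q1 * M) := by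
    rw [key]
    refine (norm_sum_le _ _).trans ?_
    have h3 : ∀ c ∈ range q1, ‖∑ t ∈ range q1,
      g c * ee (-((c : ℝ) * ((t : ℝ) / q1))) * ∑ n ∈ Icc 1 y, F n * ee ((n : ℝ) * ((t : ℝ) / q1))‖ ≤ q1 * M := by
      intro c _
      refine (norm_sum_le _ _).trans ?_
      have h4 : ∀ t ∈ range q1, ‖g c * ee (-((c : ℝ) * ((t : ℝ) / q1))) * ∑ n ∈ Icc 1 y, F n * ee ((n : ℝ) * ((t : ℝ) / q1))‖ ≤ M := by
        intro t _
        rw [norm_mul, norm_mul, norm_ee, mul_one]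
        calc ‖g c‖ * _ ≤ 1 * ‖_‖ := mul_le_mul_of_nonneg_right (hg c) (norm_nonneg _)
          _ ≤ M := by rw [one_mul]; exact h t
      refine (sum_le_sum h4).trans ?_
      rw [sum_const, card_range, nsmul_eq_mul]
    refine (sum_le_sum h3).trans ?_
    rw [sum_const, card_range, nsmul_eq_mul]
  rw [norm_mul, Complex.norm_natCast] at h2
  exact le_of_mul_le_mul_left h2 hq0

end Run7.h402.PT
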