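import Mathlib
import Pool.Agent.Run7.h402.PT.B5
import Pool.Agent.Run7.h402.PT.B6

/-!
# The exponential sum of the von Mangoldt function minus the corrected model, at every point
-/

set_option autoImplicit false

namespace Run7.h402.PT

open Finset
open Pool.Agent.H807R2.Dav
open Pool.Agent.H373R2.T7 (pz Vz lamz mem_pz Vz_pos Vz_inv_le rough_ap lamz_nonneg)
open Pool.Agent.N475.SP (dom)

noncomputable section

theorem sqrt_sqrt_big (l : ℝ) (hl : 2 ≤ l) (N : ℕ) (hN : Real.exp (l ^ 23) ≤ N) : Real.exp l ≤ (Nat.sqrt (Nat.sqrt N) : ℝ) := by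
  have hl0 : 0 < l := by linarith
  set m := ⌈Real.exp l⌉₊ with hm
  have h1 : Real.exp l ≤ m := Nat.le_ceil _
  have h2 : (m : ℝ) ≤ Real.exp (l + 1) := by
    have h3 : (m : ℝ) ≤ Real.exp l + 1 := (Nat.ceil_lt_add_one (Real.exp_pos _).le).le
    have h4 := Real.add_one_le_exp (1 : ℝ)
    have h5 : 1 ≤ Real.exp l := Real.one_le_exp hl0.le
    rw [Real.exp_add]
    nlinarith
  have h3 : (m : ℝ) ^ 4 ≤ N := by
    calc (m : ℝ) ^ 4 ≤ Real.exp (l + 1) ^ 4 := by gcongr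
      _ = Real.exp (4 * (l + 1)) := by rw [← Real.exp_nat_mul]; norm_num
      _ ≤ Real.exp (l ^ 23) := by
          apply Real.exp_le_exp.2
          have h6 : l ^ 4 ≤ l ^ 23 := pow_le_pow_right₀ (by linarith) (by norm_num)
          have h7 : 4 * (l + 1) ≤ l ^ 4 := by
            have a1 : 2 * l ≤ l ^ 2 := by nlinarith
            have a2 : 2 * l ^ 2 ≤ l ^ 3 := by nlinarith [sq_nonneg l]
            have a3 : 2 * l ^ 3 ≤ l ^ 4 := by nlinarith [pow_pos hl0 3]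
            nlinarith
          linarith
      _ ≤ N := hN
  have h4 : m * m * (m * m) ≤ N := by
    have : m ^ 4 ≤ N := by exact_mod_cast h3
    calc m * m * (m * m) = m ^ 4 := by ring
      _ ≤ N := this
  have h5 : m ≤ Nat.sqrt (Nat.sqrt N) := Nat.le_sqrt.2 (Nat.le_sqrt.2 h4)
  exact h1.trans (by exact_mod_cast h5)

theorem sup_all : ∃ l0 : ℝ, ∀ l : ℝ, l0 ≤ l → ∃ (Λ κ β : ℝ) (q1 : ℕ) (_ : NeZero q1) (χ : DirichletCharacter ℂ q1),
    √l ≤ Λ ∧ Λ ≤ l / 8 ∧ 0 ≤ κ ∧ κ ≤ 1 ∧ β < 1 ∧ 1 / 2 ≤ β ∧ χ ^ 2 = 1 ∧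
    (κ = 0 ∨ (κ = 1 ∧ Λ = l / 8 ∧ Real.exp (-(2 * √l)) ≤ 1 - β)) ∧
    ∀ N : ℕ, Real.exp (l ^ 23) ≤ N → (N : ℝ) ≤ Real.exp (l ^ 41) → ∀ α : ℝ,
      ‖∑ n ∈ Icc 1 N, ((ArithmeticFunction.vonMangoldt n - Gr l κ χ β n : ℝ) : ℂ) * ee ((n : ℝ) * α)‖ ≤
        N * Real.exp (-(Λ / 10)) := by
  obtain ⟨l1, h1⟩ := level
  obtain ⟨l2, h2⟩ := close_major
  obtain ⟨C, hC1, h3⟩ := lamz_minor_R
  obtain ⟨a1, ha1⟩ := dom (3 * C) (1 / 40) 656 (by norm_num)
  refine ⟨max (max l1 l2) (max (a1 ^ 2) 10000000), fun l hl => ?_⟩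
  have hl1 : l1 ≤ l := ((le_max_left _ _).trans (le_max_left _ _)).trans hl
  have hl2 : l2 ≤ l := ((le_max_right _ _).trans (le_max_left _ _)).trans hl
  have hla1 : a1 ^ 2 ≤ l := ((le_max_left _ _).trans (le_max_right _ _)).trans hl
  have hl7 : 10000000 ≤ l := ((le_max_right _ _).trans (le_max_right _ _)).trans hl
  have hl0 : 0 < l := by linarith
  have hlone : 1 ≤ l := by linarith
  obtain ⟨Λ, κ, β, q1, hNq1, χ, hclose, hβ1, hβh, hχ, hcase⟩ := h1 l hl1
  set s := √l with hs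
  have hs0 : 0 < s := Real.sqrt_pos.2 hl0
  have hss : s ^ 2 = l := Real.sq_sqrt hl0.le
  have hsa : a1 ≤ s := Real.le_sqrt_of_sq_le hla1
  have hs1000 : 1000 ≤ s := by
    apply Real.le_sqrt_of_sq_le
    norm_num
    linarith
  have hsl : s * 128 ≤ l := by nlinarith
  have hD := ha1 s hsa
  have hΛs : s ≤ Λ := by
    rcases hcase with h | h
    · exact h.2.2.ge
    · rw [h.2.2.1]; linarith
  have hΛl : Λ ≤ l / 8 := by
    rcases hcase with h | h
    · rw [h.2.2]; linarith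
    · exact h.2.2.1.le
  have hκ0 : 0 ≤ κ := by
    rcases hcase with h | h
    · exact h.1.ge
    · rw [h.1]; norm_num
  have hκ1 : κ ≤ 1 := by
    rcases hcase with h | h
    · rw [h.1]; norm_num
    · exact h.1.le
  have hq1Λ : Real.log q1 ≤ Λ / 16 := by
    rcases hcase with h | h
    · rw [h.2.1, Nat.cast_one, Real.log_one]; linarith
    · rw [h.2.2.1]; linarith [h.2.1]
  have hq1n : 1 ≤ q1 := NeZero.one_le
  have hq10 : (0 : ℝ) < q1 := by exact_mod_cast hq1n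
  have hq11 : (1 : ℝ) ≤ q1 := by exact_mod_cast hq1n
  have hq1e : (q1 : ℝ) ≤ Real.exp (Λ / 16) := by rwa [Real.log_le_iff_le_exp hq10] at hq1Λ
  refine ⟨Λ, κ, β, q1, hNq1, χ, hΛs, hΛl, hκ0, hκ1, hβ1, hβh, hχ, ?_, ?_⟩
  · rcases hcase with h | h
    · exact Or.inl h.1
    · exact Or.inr ⟨h.1, h.2.2.1, h.2.2.2⟩
  intro N hN1 hN2 α
  have hN0 : (0 : ℝ) < N := (Real.exp_pos _).trans_le hN1
  set R := Real.exp (Λ / 4) with hR
  have hR0 : 0 < R := Real.exp_pos _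
  have hR1 : 1 ≤ R := Real.one_le_exp (by linarith)
  have hRl : R ≤ Real.exp l := by
    apply Real.exp_le_exp.2; linarith
  have hNR : 1 ≤ (N : ℝ) / R := by
    rw [le_div_iff₀ hR0, one_mul]
    refine hRl.trans (le_trans ?_ hN1)
    apply Real.exp_le_exp.2
    exact le_self_pow₀ hlone (by norm_num)
  set Q : ℕ := ⌊(N : ℝ) / R⌋₊ with hQ
  have hQpos : 0 < Q := by
    rw [hQ, Nat.floor_pos]
    exact hNR
  choose r hr1 hr2 using fun b : ℕ => Real.exists_rat_abs_sub_le_and_den_le (α + (b : ℝ) / q1) hQpos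
  have hrq : ∀ b, ((r b : ℚ) : ℝ) = ((r b).num : ℝ) / ((r b).den : ℝ) := by
    intro b
    exact_mod_cast (Rat.num_div_den (r b)).symm
  have hden1 : ∀ b, 1 ≤ (r b).den := fun b => (r b).den_pos
  have hdenr : ∀ b, (1 : ℝ) ≤ (r b).den := fun b => by exact_mod_cast hden1 b
  have hgap : ∀ b : ℕ, |α + (b : ℝ) / q1 - ((r b).num : ℝ) / ((r b).den : ℝ)| * N ≤ R := by
    intro b
    have h4 := hr1 b
    rw [hrq] at h4
    have h5 : (N : ℝ) / R ≤ (Q : ℝ) + 1 := (Nat.lt_floor_add_one _).le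
    rw [div_le_iff₀ hR0] at h5
    have h6 : 0 < ((Q : ℝ) + 1) * ((r b).den : ℝ) := by
      have := hdenr b
      positivity
    have h7 : |α + (b : ℝ) / q1 - ((r b).num : ℝ) / ((r b).den : ℝ)| * (((Q : ℝ) + 1) * ((r b).den : ℝ)) ≤ 1 := by
      rwa [le_div_iff₀ h6] at h4
    have h8 : 0 ≤ |α + (b : ℝ) / q1 - ((r b).num : ℝ) / ((r b).den : ℝ)| := abs_nonneg _
    have h9 : ((Q : ℝ) + 1) ≤ ((Q : ℝ) + 1) * ((r b).den : ℝ) := le_mul_of_one_le_right (by positivity) (hdenr b)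
    calc |α + (b : ℝ) / q1 - ((r b).num : ℝ) / ((r b).den : ℝ)| * N ≤
        |α + (b : ℝ) / q1 - ((r b).num : ℝ) / ((r b).den : ℝ)| * ((((Q : ℝ) + 1) * ((r b).den : ℝ)) * R) := by
          apply mul_le_mul_of_nonneg_left _ h8
          exact h5.trans (mul_le_mul_of_nonneg_right h9 hR0.le)
      _ = (|α + (b : ℝ) / q1 - ((r b).num : ℝ) / ((r b).den : ℝ)| * (((Q : ℝ) + 1) * ((r b).den : ℝ))) * R := by ring
      _ ≤ 1 * R := mul_le_mul_of_nonneg_right h7 hR0.le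
      _ = R := one_mul R
  by_cases hmaj : ∃ b : ℕ, ((r b).den : ℝ) < R
  · -- major arcs
    obtain ⟨b, hb⟩ := hmaj
    set q := (r b).den with hq
    set a := (r b).num with ha
    have hq0 : (0 : ℝ) < q := by linarith [hdenr b]
    have hg := hgap b
    have e1 : α + (b : ℝ) / q1 - (a : ℝ) / q = α - ((a * q1 - b * q : ℤ) : ℝ) / ((q * q1 : ℕ) : ℝ) := by
      push_cast
      field_simp
      ring
    rw [← ha, ← hq, e1] at hg
    have hlog : Real.log ((q * q1 : ℕ) : ℝ) ≤ 5 * Λ / 16 := by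
      push_cast
      rw [Real.log_mul hq0.ne' hq10.ne']
      have h4 : Real.log q ≤ Λ / 4 := by
        rw [Real.log_le_iff_le_exp hq0]; exact hb.le
      linarith
    have hqq0 : (0 : ℝ) < ((q * q1 : ℕ) : ℝ) := by push_cast; positivity
    have hqqe : ((q * q1 : ℕ) : ℝ) ≤ Real.exp (5 * Λ / 16) := by rwa [Real.log_le_iff_le_exp hqq0] at hlog
    have h4 := h2 l hl2 Λ κ q1 χ β (by linarith) hχ hclose N hN1 hN2 (q * q1) (Nat.mul_pos (hden1 b) hq1n) (by linarith)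
      (a * q1 - b * q) α R hg
    refine h4.trans ?_
    have h8e : (8 : ℝ) ≤ Real.exp 7 := by
      have := Real.add_one_le_exp (7 : ℝ)
      linarith
    calc ((q * q1 : ℕ) : ℝ) * (N * Real.exp (-(l / 6))) * (1 + 7 * R) ≤
        Real.exp (5 * Λ / 16) * (N * Real.exp (-(l / 6))) * (8 * R) := by
          gcongr
          linarith
      _ = N * (8 * (Real.exp (5 * Λ / 16) * Real.exp (-(l / 6)) * R)) := by ring
      _ ≤ N * (Real.exp 7 * (Real.exp (5 * Λ / 16) * Real.exp (-(l / 6)) * R)) := by gcongr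
      _ = N * Real.exp (7 + (5 * Λ / 16 + -(l / 6) + Λ / 4)) := by
          rw [hR, ← Real.exp_add, ← Real.exp_add, ← Real.exp_add]
      _ ≤ N * Real.exp (-(Λ / 10)) := by
          gcongr
          linarith
  · -- minor arcs
    push Not at hmaj
    have hcop : ∀ b, IsCoprime (r b).num (((r b).den : ℕ) : ℤ) := by
      intro b
      rw [Int.isCoprime_iff_gcd_eq_one]
      have := (r b).reduced
      rw [Nat.Coprime] at this
      rw [Int.gcd]
      simpa using this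
    have hqQ : ∀ b, ((r b).den : ℝ) ≤ N / R := by
      intro b
      have h1 : ((r b).den : ℝ) ≤ Q := by exact_mod_cast hr2 b
      exact h1.trans (Nat.floor_le (by positivity))
    have happ : ∀ b : ℕ, |α + (b : ℝ) / q1 - ((r b).num : ℝ) / ((r b).den : ℝ)| ≤ 1 / ((r b).den : ℝ) ^ 2 := by
      intro b
      have h4 := hr1 b
      rw [hrq] at h4
      refine h4.trans ?_
      rw [pow_two]
      have h5 := hdenr b
      apply one_div_le_one_div_of_le (by positivity)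
      apply mul_le_mul_of_nonneg_right _ (by linarith)
      have h1 : ((r b).den : ℝ) ≤ Q := by exact_mod_cast hr2 b
      linarith
    have hlN : l ≤ Real.log N := by
      rw [Real.le_log_iff_exp_le hN0]
      refine le_trans ?_ hN1
      apply Real.exp_le_exp.2
      exact le_self_pow₀ hlone (by norm_num)
    have hlN2 : Real.log N ≤ l ^ 41 := by
      rw [Real.log_le_iff_le_exp hN0]; exact hN2
    have hN16 : 16 ≤ N := by
      have h4 : Real.exp l ≤ N := by rwa [Real.le_log_iff_exp_le hN0] at hlN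
      have h5 := Real.add_one_le_exp l
      have : (16 : ℝ) ≤ N := by linarith
      exact_mod_cast this
    have hRV : R ≤ (Nat.sqrt (Nat.sqrt N) : ℝ) := hRl.trans (sqrt_sqrt_big l (by linarith) N hN1)
    -- the von Mangoldt function
    have g1 := minor_R N hN16 (by linarith) R hR1 hRV (r 0).den (hmaj 0) (hqQ 0) (r 0).num (hcop 0) (α + ((0 : ℕ) : ℝ) / q1) (happ 0)
    rw [Nat.cast_zero, zero_div, add_zero] at g1
    -- the model
    have g2 : ∀ b : ℕ, ∀ y : ℕ, y ≤ N → ‖∑ n ∈ Icc 1 y, ((lamz (zl l) n : ℝ) : ℂ) * ee ((n : ℝ) * (α + (b : ℝ) / q1))‖ ≤ C * l ^ 84 * (N / R) :=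
      fun b y hy => h3 l (by linarith) N hN1 hN2 R hR1 hRl (r b).den (hmaj b) (hqQ b) (r b).num (hcop b) _ (happ b) y hy
    have g3 : ∀ y : ℕ, y ≤ N → ‖∑ n ∈ Icc 1 y, (((lamz (zl l) n : ℝ) : ℂ) * ee ((n : ℝ) * α)) * χ (n : ZMod q1)‖ ≤ q1 * (C * l ^ 84 * (N / R)) := by
      intro y hy
      apply char_of_add q1 hq1n (fun n => χ (n : ZMod q1)) (fun n => χ.norm_le_one _) (fun n => by
        simp) _ y
      intro b
      have h4 := g2 b y hy
      refine le_trans (le_of_eq ?_) h4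
      congr 1
      apply sum_congr rfl
      intro n _
      rw [mul_assoc, ← ee_add]
      congr 2
      ring
    have g4 := abel_mono (fun n => (((lamz (zl l) n : ℝ) : ℂ) * ee ((n : ℝ) * α)) * χ (n : ZMod q1)) (fun n => (n : ℝ) ^ (β - 1)) _ N
      (by simp) (fun n _ => by positivity) (fun n hn => rpow_anti β hβ1.le n hn) g3 N le_rfl
    have g5 := g2 0 N le_rfl
    rw [Nat.cast_zero, zero_div, add_zero] at g5
    have esplit : ∑ n ∈ Icc 1 N, ((ArithmeticFunction.vonMangoldt n - Gr l κ χ β n : ℝ) : ℂ) * ee ((n : ℝ) * α) =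
        ∑ n ∈ Icc 1 N, ((ArithmeticFunction.vonMangoldt n : ℝ) : ℂ) * ee ((n : ℝ) * α) -
        ∑ n ∈ Icc 1 N, ((lamz (zl l) n : ℝ) : ℂ) * ee ((n : ℝ) * α) +
        κ * ∑ n ∈ Icc 1 N, ((((lamz (zl l) n : ℝ) : ℂ) * ee ((n : ℝ) * α)) * χ (n : ZMod q1)) * (((n : ℝ) ^ (β - 1) : ℝ) : ℂ) := by
      rw [mul_sum, ← sum_sub_distrib, ← sum_add_distrib]
      apply sum_congr rfl
      intro n _
      rw [Complex.ofReal_sub, ← Gc_eq l κ χ hχ]
      unfold Gc
      ring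
    rw [esplit]
    have g6 : ‖(κ : ℂ) * ∑ n ∈ Icc 1 N, ((((lamz (zl l) n : ℝ) : ℂ) * ee ((n : ℝ) * α)) * χ (n : ZMod q1)) * (((n : ℝ) ^ (β - 1) : ℝ) : ℂ)‖ ≤
        q1 * (C * l ^ 84 * (N / R)) := by
      rw [norm_mul, Complex.norm_real, Real.norm_of_nonneg hκ0]
      calc κ * ‖_‖ ≤ 1 * ‖_‖ := mul_le_mul_of_nonneg_right hκ1 (norm_nonneg _)
        _ ≤ _ := by rw [one_mul]; exact g4
    refine (norm_add_le _ _).trans ((add_le_add ((norm_sub_le _ _).trans (add_le_add g1 g5)) g6).trans ?_)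
    -- numerical part
    have hsR : √R = Real.exp (Λ / 8) := by
      rw [hR, show Λ / 4 = Λ / 8 + Λ / 8 by ring, Real.exp_add, Real.sqrt_mul_self (Real.exp_pos _).le]
    have hE0 : 0 < Real.exp (-(Λ / 8)) := Real.exp_pos _
    have n1 : (N : ℝ) * Real.log N ^ 8 / √R ≤ N * (l ^ 328 * Real.exp (-(Λ / 8))) := by
      rw [hsR, Real.exp_neg, mul_div_assoc, div_eq_mul_inv]
      have : Real.log N ^ 8 ≤ (l ^ 41) ^ 8 := by
        gcongr
      have e : (l ^ 41) ^ 8 = l ^ 328 := by ring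
      rw [e] at this
      gcongr
    have hNRe : (N : ℝ) / R = N * Real.exp (-(Λ / 4)) := by
      rw [hR, Real.exp_neg, div_eq_mul_inv]
    have n2 : C * l ^ 84 * ((N : ℝ) / R) ≤ N * (C * l ^ 328 * Real.exp (-(Λ / 8))) := by
      rw [hNRe]
      have e1 : Real.exp (-(Λ / 4)) ≤ Real.exp (-(Λ / 8)) := by
        apply Real.exp_le_exp.2; linarith
      have e2 : l ^ 84 ≤ l ^ 328 := pow_le_pow_right₀ hlone (by norm_num)
      calc C * l ^ 84 * (N * Real.exp (-(Λ / 4))) ≤ C * l ^ 328 * (N * Real.exp (-(Λ / 8))) := by gcongr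
        _ = _ := by ring
    have n3 : q1 * (C * l ^ 84 * ((N : ℝ) / R)) ≤ N * (C * l ^ 328 * Real.exp (-(Λ / 8))) := by
      rw [hNRe]
      have e2 : l ^ 84 ≤ l ^ 328 := pow_le_pow_right₀ hlone (by norm_num)
      calc q1 * (C * l ^ 84 * (N * Real.exp (-(Λ / 4)))) ≤ Real.exp (Λ / 16) * (C * l ^ 328 * (N * Real.exp (-(Λ / 4)))) := by gcongr
        _ = N * (C * l ^ 328 * (Real.exp (Λ / 16) * Real.exp (-(Λ / 4)))) := by ring
        _ = N * (C * l ^ 328 * Real.exp (Λ / 16 + -(Λ / 4))) := by rw [← Real.exp_add]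
        _ ≤ _ := by
            gcongr
            linarith
    have n4 : 3 * C * l ^ 328 ≤ Real.exp (Λ / 40) := by
      calc 3 * C * l ^ 328 = 3 * C * s ^ 656 := by rw [← hss]; ring
        _ ≤ Real.exp (1 / 40 * s) := hD
        _ ≤ _ := by
            apply Real.exp_le_exp.2
            linarith
    calc (N : ℝ) * Real.log N ^ 8 / √R + C * l ^ 84 * (N / R) + q1 * (C * l ^ 84 * (N / R)) ≤
        N * (l ^ 328 * Real.exp (-(Λ / 8))) + N * (C * l ^ 328 * Real.exp (-(Λ / 8))) + N * (C * l ^ 328 * Real.exp (-(Λ / 8))) := by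
          linarith
      _ ≤ N * (C * l ^ 328 * Real.exp (-(Λ / 8))) + N * (C * l ^ 328 * Real.exp (-(Λ / 8))) + N * (C * l ^ 328 * Real.exp (-(Λ / 8))) := by
          have e3 : l ^ 328 ≤ C * l ^ 328 := le_mul_of_one_le_left (by positivity) hC1
          gcongr
      _ = N * (3 * C * l ^ 328 * Real.exp (-(Λ / 8))) := by ring
      _ ≤ N * (Real.exp (Λ / 40) * Real.exp (-(Λ / 8))) := by gcongr
      _ = N * Real.exp (-(Λ / 10)) := by
          rw [← Real.exp_add]; congr 2; ring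

end

end Run7.h402.PT
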