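import Mathlib
import Pool.Agent.H373R2.T7.BilF
import Pool.Agent.H373R2.T7.Telesc
import Pool.Agent.Run7.h402.PT.B7

/-!
# From exponential sums to shifted correlations on average
-/

set_option autoImplicit false

namespace Run7.h402.PT

open Finset
open Pool.Agent.H807R2.Dav
open Pool.Agent.H373R2.T7
open Pool.Agent.N475.SP (dom)

noncomputable section

/-- the weighted indicator of the primes -/
def Fp (n : ℕ) : ℝ := if n.Prime then Real.log n else 0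

theorem Fp_nonneg (n : ℕ) : 0 ≤ Fp n := by
  unfold Fp
  split_ifs
  · exact Real.log_natCast_nonneg n
  · exact le_rfl

theorem lam_sub_Fp (n : ℕ) : ArithmeticFunction.vonMangoldt n - Fp n = if n.Prime then 0 else ArithmeticFunction.vonMangoldt n := by
  unfold Fp
  split_ifs with h
  · rw [ArithmeticFunction.vonMangoldt_apply_prime h, sub_self]
  · rw [sub_zero]

theorem lam_sub_Fp_nonneg (n : ℕ) : 0 ≤ ArithmeticFunction.vonMangoldt n - Fp n := by
  rw [lam_sub_Fp]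
  split_ifs
  · exact le_rfl
  · exact ArithmeticFunction.vonMangoldt_nonneg

theorem sum_lam_sub_Fp (N : ℕ) (hN : 1 ≤ N) :
    ∑ n ∈ Icc 1 N, (ArithmeticFunction.vonMangoldt n - Fp n) ≤ 2 * √(N : ℝ) * Real.log N := by
  have h1 := Chebyshev.psi_sub_theta_le (x := (N : ℝ)) (by exact_mod_cast hN)
  rw [Chebyshev.psi_sub_theta_eq_sum_not_prime, Nat.floor_natCast] at h1
  refine le_trans (le_of_eq ?_) h1
  rw [sum_filter]
  apply sum_congr
  · ext n; rw [mem_Icc, mem_Ioc]; omega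
  · intro n _
    rw [lam_sub_Fp]
    split_ifs <;> simp_all

/-- removing the prime powers -/
theorem Fp_sup : ∃ l0 : ℝ, ∀ l : ℝ, l0 ≤ l → ∀ N : ℕ, Real.exp (l ^ 23) ≤ N → (N : ℝ) ≤ Real.exp (l ^ 41) → ∀ α : ℝ,
    ‖∑ n ∈ Icc 1 N, ((ArithmeticFunction.vonMangoldt n - Fp n : ℝ) : ℂ) * ee ((n : ℝ) * α)‖ ≤ N * Real.exp (-l) := by
  obtain ⟨a1, ha1⟩ := dom 2 1 41 one_pos
  refine ⟨max a1 2, fun l hl N hN1 hN2 α => ?_⟩
  have hD := ha1 l ((le_max_left _ _).trans hl)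
  rw [one_mul] at hD
  have hl2 : 2 ≤ l := (le_max_right _ _).trans hl
  have hl0 : 0 < l := by linarith
  have hN0 : (0 : ℝ) < N := (Real.exp_pos _).trans_le hN1
  have hN1n : 1 ≤ N := by exact_mod_cast hN0
  refine (norm_sum_le _ _).trans ?_
  have h1 : ∑ n ∈ Icc 1 N, ‖((ArithmeticFunction.vonMangoldt n - Fp n : ℝ) : ℂ) * ee ((n : ℝ) * α)‖ =
      ∑ n ∈ Icc 1 N, (ArithmeticFunction.vonMangoldt n - Fp n) := by
    apply sum_congr rfl
    intro n _
    rw [norm_mul, norm_ee, mul_one, Complex.norm_real, Real.norm_of_nonneg (lam_sub_Fp_nonneg n)]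
  rw [h1]
  refine (sum_lam_sub_Fp N hN1n).trans ?_
  have hlog : Real.log N ≤ l ^ 41 := by
    rw [Real.log_le_iff_le_exp hN0]; exact hN2
  have hs : Real.exp (l ^ 23 / 2) ≤ √(N : ℝ) := by
    apply Real.le_sqrt_of_sq_le
    rw [← Real.exp_nat_mul]
    refine le_trans (le_of_eq ?_) hN1
    congr 1
    push_cast
    ring
  have hp : 2 * l ≤ l ^ 23 / 2 := by
    have h4 : l ^ 3 ≤ l ^ 23 := pow_le_pow_right₀ (by linarith) (by norm_num)
    nlinarith [sq_nonneg l, mul_pos hl0 hl0]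
  calc 2 * √(N : ℝ) * Real.log N ≤ √(N : ℝ) * (2 * l ^ 41) := by
        have h0 : 0 ≤ √(N : ℝ) := Real.sqrt_nonneg _
        nlinarith
    _ ≤ √(N : ℝ) * Real.exp l := by gcongr
    _ = √(N : ℝ) * (Real.exp (2 * l) * Real.exp (-l)) := by
        rw [← Real.exp_add]; congr 2; ring
    _ ≤ √(N : ℝ) * (Real.exp (l ^ 23 / 2) * Real.exp (-l)) := by gcongr
    _ ≤ √(N : ℝ) * (√(N : ℝ) * Real.exp (-l)) := by gcongr
    _ = N * Real.exp (-l) := by
        rw [← mul_assoc, Real.mul_self_sqrt hN0.le]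

/-- a bilinear estimate from the supremum of the exponential sum -/
theorem bil_sq (H : ℕ) (d : ℕ → ℝ) (δ : ℝ)
    (hd : ∀ α : ℝ, ‖∑ n ∈ Icc 1 (2 * H), ((d n : ℝ) : ℂ) * ee ((n : ℝ) * α)‖ ≤ δ)
    (g c : ℕ → ℂ) (hg : ∀ a, ‖g a‖ ≤ 1) (hc : ∀ m, ‖c m‖ ≤ 1) :
    ‖∑ n ∈ Icc 1 H, ∑ v ∈ Icc 1 (H + 1), g n * c v * ((d (n + v - 1) : ℝ) : ℂ)‖ ≤ δ * (H + 1) := by
  have hδ : 0 ≤ δ := (norm_nonneg _).trans (hd 0)
  set M : ℕ := 2 * H + 1 with hM
  have hM1 : 1 ≤ M := by omega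
  have hM0 : (0 : ℝ) < M := by exact_mod_cast hM1
  set fh : ℕ → ℂ := fun t => ∑ m ∈ Icc 1 (2 * H), ((d m : ℝ) : ℂ) * ee (-((t : ℝ) * (((m : ℝ) + 1) / M))) with hfh
  set Gh : ℕ → ℂ := fun t => ∑ a ∈ Icc 1 H, g a * ee ((t : ℝ) * ((((1 : ℤ) * a : ℤ) : ℝ) / M)) with hGh
  set Ch : ℕ → ℂ := fun t => ∑ a ∈ Icc 1 (H + 1), c a * ee ((t : ℝ) * ((((1 : ℤ) * a : ℤ) : ℝ) / M)) with hCh
  have hid : (M : ℂ) * ∑ n ∈ Icc 1 H, ∑ v ∈ Icc 1 (H + 1), g n * c v * ((d (n + v - 1) : ℝ) : ℂ) =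
      ∑ t ∈ range M, fh t * Gh t * Ch t := by
    have h1 : ∀ t ∈ range M, fh t * Gh t * Ch t = ∑ n ∈ Icc 1 H, ∑ v ∈ Icc 1 (H + 1), ∑ m ∈ Icc 1 (2 * H),
        g n * c v * ((d m : ℝ) : ℂ) * ee ((t : ℝ) * ((((n : ℤ) + v - (m + 1) : ℤ) : ℝ) / M)) := by
      intro t _
      rw [hfh, hGh, hCh]
      simp only
      rw [← triple]
      apply sum_congr rfl
      intro n _
      apply sum_congr rfl
      intro v _
      apply sum_congr rfl
      intro m _
      have h2 : ee ((t : ℝ) * ((((n : ℤ) + v - (m + 1) : ℤ) : ℝ) / M)) =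
          ee ((t : ℝ) * ((((1 : ℤ) * n : ℤ) : ℝ) / M)) * ee (-((t : ℝ) * (((m : ℝ) + 1) / M))) * ee ((t : ℝ) * ((((1 : ℤ) * v : ℤ) : ℝ) / M)) := by
        rw [← ee_add, ← ee_add]
        congr 1
        push_cast
        ring
      rw [h2]
      ring
    rw [sum_congr rfl h1]
    symm
    rw [sum_comm, mul_sum]
    apply sum_congr rfl
    intro n hn
    rw [sum_comm, mul_sum]
    apply sum_congr rfl
    intro v hv
    rw [sum_comm]
    have h2 : ∀ m ∈ Icc 1 (2 * H), ∑ t ∈ range M, g n * c v * ((d m : ℝ) : ℂ) * ee ((t : ℝ) * ((((n : ℤ) + v - (m + 1) : ℤ) : ℝ) / M)) =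
        if m = n + v - 1 then (M : ℂ) * (g n * c v * ((d m : ℝ) : ℂ)) else 0 := by
      intro m hm
      rw [← mul_sum, orth M hM1]
      rw [mem_Icc] at hn hv hm
      by_cases h3 : m = n + v - 1
      · rw [if_pos h3, if_pos]
        · ring
        · have : (n : ℤ) + v - (m + 1) = 0 := by omega
          rw [this]
          exact dvd_zero _
      · rw [if_neg h3, if_neg, mul_zero]
        intro hdv
        apply h3
        have h4 : |(n : ℤ) + v - (m + 1)| < M := by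
          rw [abs_lt]
          constructor <;> omega
        have := Int.eq_zero_of_abs_lt_dvd hdv h4
        omega
    rw [sum_congr rfl h2, sum_ite_eq' (Icc 1 (2 * H)) (n + v - 1)]
    rw [mem_Icc] at hn hv
    rw [if_pos (by rw [mem_Icc]; omega)]
  have hfh1 : ∀ t, ‖fh t‖ ≤ δ := by
    intro t
    have h1 : fh t = ee (-((t : ℝ) / M)) * ∑ n ∈ Icc 1 (2 * H), ((d n : ℝ) : ℂ) * ee ((n : ℝ) * (-(t : ℝ) / M)) := by
      rw [hfh, mul_sum]
      apply sum_congr rfl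
      intro m _
      have : ee (-((t : ℝ) * (((m : ℝ) + 1) / M))) = ee (-((t : ℝ) / M)) * ee ((m : ℝ) * (-(t : ℝ) / M)) := by
        rw [← ee_add]
        congr 1
        ring
      rw [this]
      ring
    rw [h1, norm_mul, norm_ee, one_mul]
    exact hd _
  have hbound : ‖∑ t ∈ range M, fh t * Gh t * Ch t‖ ≤ δ * (M * (H + 1)) := by
    refine (norm_sum_le _ _).trans ?_
    have h1 : ∀ t ∈ range M, ‖fh t * Gh t * Ch t‖ ≤ δ * (‖Gh t‖ * ‖Ch t‖) := by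
      intro t _
      rw [norm_mul, norm_mul, mul_assoc]
      exact mul_le_mul_of_nonneg_right (hfh1 t) (by positivity)
    refine (sum_le_sum h1).trans ?_
    rw [← mul_sum]
    apply mul_le_mul_of_nonneg_left _ hδ
    have h2 := sum_mul_sq_le_sq_mul_sq (range M) (fun t => ‖Gh t‖) (fun t => ‖Ch t‖)
    have h3 : ∑ t ∈ range M, ‖Gh t‖ ^ 2 ≤ M * (H + 1) := by
      have h4 := parseval_Icc H M hM1 (by omega) g 1 (Or.inl rfl)
      rw [hGh]
      simp only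
      rw [h4]
      apply mul_le_mul_of_nonneg_left _ hM0.le
      have h5 : ∀ a ∈ Icc 1 H, ‖g a‖ ^ 2 ≤ 1 := fun a _ => pow_le_one₀ (norm_nonneg _) (hg a)
      refine (sum_le_sum h5).trans ?_
      rw [sum_const, Nat.card_Icc, nsmul_eq_mul]
      simp
    have h3' : ∑ t ∈ range M, ‖Ch t‖ ^ 2 ≤ M * (H + 1) := by
      have h4 := parseval_Icc (H + 1) M hM1 (by
        rcases Nat.eq_zero_or_pos H with h | h
        · omega
        · omega) c 1 (Or.inl rfl)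
      rw [hCh]
      simp only
      rw [h4]
      apply mul_le_mul_of_nonneg_left _ hM0.le
      have h5 : ∀ a ∈ Icc 1 (H + 1), ‖c a‖ ^ 2 ≤ 1 := fun a _ => pow_le_one₀ (norm_nonneg _) (hc a)
      refine (sum_le_sum h5).trans ?_
      rw [sum_const, Nat.card_Icc, nsmul_eq_mul]
      simp
    have h4 : (∑ t ∈ range M, ‖Gh t‖ * ‖Ch t‖) ^ 2 ≤ ((M : ℝ) * (H + 1)) ^ 2 := by
      refine h2.trans ?_
      rw [pow_two]
      exact mul_le_mul h3 h3' (sum_nonneg fun _ _ => by positivity) (by positivity)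
    exact (le_abs_self _).trans (abs_le_of_sq_le_sq h4 (by positivity))
  have h1 : ‖(M : ℂ) * ∑ n ∈ Icc 1 H, ∑ v ∈ Icc 1 (H + 1), g n * c v * ((d (n + v - 1) : ℝ) : ℂ)‖ ≤ δ * (M * (H + 1)) := by
    rw [hid]; exact hbound
  rw [norm_mul, Complex.norm_natCast] at h1
  have h2 : (M : ℝ) * ‖∑ n ∈ Icc 1 H, ∑ v ∈ Icc 1 (H + 1), g n * c v * ((d (n + v - 1) : ℝ) : ℂ)‖ ≤ M * (δ * (H + 1)) := by
    linarith
  exact le_of_mul_le_mul_left h2 hM0

/-- several shifts at once -/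
theorem tuple_avg (k H : ℕ) (f g : ℕ → ℝ) (B δ : ℝ) (hB : 1 ≤ B)
    (hf : ∀ n, 1 ≤ n → n ≤ 2 * H → |f n| ≤ B) (hg : ∀ n, 1 ≤ n → n ≤ 2 * H → |g n| ≤ B)
    (hd : ∀ α : ℝ, ‖∑ n ∈ Icc 1 (2 * H), ((f n - g n : ℝ) : ℂ) * ee ((n : ℝ) * α)‖ ≤ δ) :
    ∑ v ∈ Fintype.piFinset (fun _ : Fin k => Icc 1 (H + 1)),
      |∑ n ∈ Icc 1 H, (∏ i, f (n + v i - 1) - ∏ i, g (n + v i - 1))| ≤ k * (B ^ k * δ) * ((H : ℝ) + 1) ^ k := by
  have hδ : 0 ≤ δ := (norm_nonneg _).trans (hd 0)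
  have h := tele (k := k) H (fun _ => H + 1) (fun _ => by omega) (fun _ n v => f (n + v - 1)) (fun _ n v => g (n + v - 1)) B δ hB hδ
    (fun i n hn v hv => by
      rw [mem_Icc] at hn hv
      exact hf _ (by omega) (by omega))
    (fun i n hn v hv => by
      rw [mem_Icc] at hn hv
      exact hg _ (by omega) (by omega))
    (fun i K hK G hG => by
      have h1 := l1_of_bil H (H + 1) (fun n v => f (n + v - 1) - g (n + v - 1)) (δ * (H + 1)) K hK
        (fun G c hG hc => bil_sq H (fun m => f m - g m) δ hd G c hG hc) G hG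
      push_cast
      exact h1) univ 1 one_pos (fun _ _ => 1) (fun n _ m _ => by simp) (fun _ _ _ _ _ => rfl)
  simp only [one_mul, card_univ, Fintype.card_fin, prod_const] at h
  refine h.trans (le_of_eq ?_)
  push_cast
  ring

end

end Run7.h402.PT
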