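import Mathlib
import Pool.Agent.H373R2.T7.Cnt
import Pool.Agent.Run7.h402.PT.B6

/-!
# Rough values of several shifts: a uniform lower bound
-/

set_option autoImplicit false

namespace Run7.h402.PT

open Finset
open Pool.Agent.H373R2.T7
open Pool.Agent.N475.SP (dom)

noncomputable section

/-- the forbidden classes -/
def Ap {k : ℕ} (a : Fin k → ℕ) (p b : ℕ) : Prop := ∃ i, p ∣ b + a i

instance {k : ℕ} (a : Fin k → ℕ) (p b : ℕ) : Decidable (Ap a p b) := by unfold Ap; infer_instance

theorem Ap_mod {k : ℕ} (a : Fin k → ℕ) (p n : ℕ) : Ap a p (n % p) ↔ Ap a p n := by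
  unfold Ap
  constructor
  · rintro ⟨i, hi⟩
    refine ⟨i, ?_⟩
    rw [Nat.dvd_iff_mod_eq_zero] at hi ⊢
    rw [Nat.add_mod, Nat.mod_mod, ← Nat.add_mod] at hi
    exact hi
  · rintro ⟨i, hi⟩
    refine ⟨i, ?_⟩
    rw [Nat.dvd_iff_mod_eq_zero] at hi ⊢
    rw [Nat.add_mod, Nat.mod_mod, ← Nat.add_mod]
    exact hi

/-- number of forbidden classes -/
def nup {k : ℕ} (a : Fin k → ℕ) (p : ℕ) : ℕ := ((range p).filter (fun b => Ap a p b)).card

theorem nup_le {k : ℕ} (a : Fin k → ℕ) (p : ℕ) (hp : 1 ≤ p) : nup a p ≤ k := by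
  unfold nup
  have h : (range p).filter (fun b => Ap a p b) ⊆ univ.image (fun i : Fin k => (p - a i % p) % p) := by
    intro b hb
    rw [mem_filter, mem_range] at hb
    obtain ⟨hb1, i, hi⟩ := hb
    rw [mem_image]
    refine ⟨i, mem_univ _, ?_⟩
    have h1 : a i % p < p := Nat.mod_lt _ hp
    have h2 : p ∣ b + a i % p := by
      rw [Nat.dvd_iff_mod_eq_zero] at hi ⊢
      rw [Nat.add_mod, Nat.mod_mod, ← Nat.add_mod]
      exact hi
    obtain ⟨c, hc⟩ := h2
    have hc2 : c < 2 := by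
      by_contra hcon
      push Not at hcon
      have : p * 2 ≤ p * c := Nat.mul_le_mul_left _ hcon
      omega
    interval_cases c
    · have e1 : b = 0 := by omega
      have e2 : a i % p = 0 := by omega
      rw [e1, e2, Nat.sub_zero, Nat.mod_self]
    · have e1 : p - a i % p = b := by omega
      rw [e1, Nat.mod_eq_of_lt hb1]
  refine (card_le_card h).trans (card_image_le.trans ?_)
  rw [card_univ, Fintype.card_fin]

theorem nup_lt {k : ℕ} (a : Fin k → ℕ) (p : ℕ) (hp : 1 ≤ p) (h : ∃ r, r < p ∧ ∀ i, a i % p ≠ r) : nup a p + 1 ≤ p := by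
  obtain ⟨r, hr, hra⟩ := h
  unfold nup
  have h1 : (range p).filter (fun b => Ap a p b) ⊆ (range p).erase ((p - r) % p) := by
    intro b hb
    rw [mem_filter, mem_range] at hb
    obtain ⟨hb1, i, hi⟩ := hb
    rw [mem_erase, mem_range]
    refine ⟨?_, hb1⟩
    intro hb2
    apply hra i
    have h2 : p ∣ b + r := by
      rw [hb2]
      rcases Nat.eq_zero_or_pos r with h0 | h0
      · rw [h0, Nat.sub_zero, Nat.mod_self]
        exact dvd_zero _
      · rw [Nat.mod_eq_of_lt (by omega)]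
        have : p - r + r = p := by omega
        rw [this]
    have h3 : b + a i ≡ b + r [MOD p] := by
      unfold Nat.ModEq
      rw [Nat.dvd_iff_mod_eq_zero] at hi h2
      rw [hi, h2]
    have h4 : a i ≡ r [MOD p] := Nat.ModEq.add_left_cancel' b h3
    unfold Nat.ModEq at h4
    rw [h4, Nat.mod_eq_of_lt hr]
  have h2 := card_le_card h1
  rw [card_erase_of_mem (mem_range.2 (Nat.mod_lt _ hp)), card_range] at h2
  omega

theorem bern (k : ℕ) (x : ℝ) (hx : 0 ≤ x) (h : 2 * (k : ℝ) * x ≤ 1) : (1 - x) ^ (2 * k) ≤ 1 - k * x := by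
  induction k with
  | zero => simp
  | succ k ih =>
    push_cast at h ⊢
    have h1 : 2 * (k : ℝ) * x ≤ 1 := by nlinarith
    have h2 := ih h1
    have hk : (0 : ℝ) ≤ k := Nat.cast_nonneg k
    have e : (1 - x) ^ (2 * (k + 1)) = (1 - x) ^ (2 * k) * (1 - x) ^ 2 := by
      rw [← pow_add]; congr 1
    rw [e]
    calc (1 - x) ^ (2 * k) * (1 - x) ^ 2 ≤ (1 - k * x) * (1 - x) ^ 2 := mul_le_mul_of_nonneg_right h2 (sq_nonneg _)
      _ ≤ 1 - (k + 1) * x := by
          have h3 : 0 ≤ x * (1 - x - 2 * k * x + k * x ^ 2) := by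
            apply mul_nonneg hx
            have : 0 ≤ (k : ℝ) * x ^ 2 := by positivity
            nlinarith
          nlinarith

/-- the singular product is not too small -/
theorem sing_low {k : ℕ} (a : Fin k → ℕ) (hadm : ∀ p : ℕ, p.Prime → ∃ r, r < p ∧ ∀ i, a i % p ≠ r) (z : ℕ) :
    (1 / 4 : ℝ) ^ (2 * k) * Vz z ^ (2 * k) ≤ ∏ p ∈ pz z, (1 - (nup a p : ℝ) / p) := by
  have h1 : ∏ p ∈ pz z, ((if p ≤ 2 * k then 1 / (p : ℝ) else 1) * (1 - 1 / (p : ℝ)) ^ (2 * k)) ≤ ∏ p ∈ pz z, (1 - (nup a p : ℝ) / p) := by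
    apply prod_le_prod
    · intro p hp
      have hp2 : (2 : ℝ) ≤ p := by exact_mod_cast (mem_pz.1 hp).2.two_le
      apply mul_nonneg
      · split_ifs
        · positivity
        · norm_num
      · apply pow_nonneg
        rw [sub_nonneg, div_le_one (by linarith)]
        linarith
    · intro p hp
      have hpp := (mem_pz.1 hp).2
      have hp2 : (2 : ℝ) ≤ p := by exact_mod_cast hpp.two_le
      have hp0 : (0 : ℝ) < p := by linarith
      split_ifs with h
      · have h2 := nup_lt a p hpp.one_le (hadm p hpp)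
        have h3 : (nup a p : ℝ) + 1 ≤ p := by exact_mod_cast h2
        have h4 : 1 / (p : ℝ) ≤ 1 - (nup a p : ℝ) / p := by
          rw [le_sub_iff_add_le, ← add_div, div_le_one hp0]
          linarith
        have h5 : (1 - 1 / (p : ℝ)) ^ (2 * k) ≤ 1 := by
          apply pow_le_one₀
          · rw [sub_nonneg, div_le_one hp0]; linarith
          · have : 0 ≤ 1 / (p : ℝ) := by positivity
            linarith
        calc 1 / (p : ℝ) * (1 - 1 / (p : ℝ)) ^ (2 * k) ≤ 1 / (p : ℝ) * 1 := mul_le_mul_of_nonneg_left h5 (by positivity)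
          _ ≤ _ := by rw [mul_one]; exact h4
      · push Not at h
        rw [one_mul]
        have h2 : ((2 * k : ℕ) : ℝ) < p := by exact_mod_cast h
        push_cast at h2
        have h3 := bern k (1 / (p : ℝ)) (by positivity) (by
          rw [mul_one_div, div_le_one hp0]; exact h2.le)
        refine h3.trans ?_
        have h4 : (nup a p : ℝ) ≤ k := by exact_mod_cast nup_le a p hpp.one_le
        have h5 : (nup a p : ℝ) / p ≤ k * (1 / (p : ℝ)) := by
          rw [mul_one_div]
          exact div_le_div_of_nonneg_right h4 hp0.le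
        linarith
  refine le_trans ?_ h1
  rw [prod_mul_distrib, prod_pow]
  have h2 : (1 / 4 : ℝ) ^ (2 * k) ≤ ∏ p ∈ pz z, (if p ≤ 2 * k then 1 / (p : ℝ) else 1) := by
    rw [← prod_filter]
    have h3 : ∏ p ∈ (pz z).filter (fun p => p ≤ 2 * k), p ≤ 4 ^ (2 * k) := by
      refine le_trans ?_ (primorial_le_four_pow (2 * k))
      unfold primorial
      apply prod_le_prod_of_subset_of_one_le'
      · intro p hp
        rw [mem_filter, mem_pz] at hp
        rw [mem_filter, mem_range]
        exact ⟨by omega, hp.1.2⟩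
      · intro p hp _
        rw [mem_filter] at hp
        exact hp.2.one_le
    have h4 : ∏ p ∈ (pz z).filter (fun p => p ≤ 2 * k), (1 / (p : ℝ)) = 1 / ((∏ p ∈ (pz z).filter (fun p => p ≤ 2 * k), p : ℕ) : ℝ) := by
      rw [prod_div_distrib, prod_const_one]
      push_cast
      rfl
    rw [h4, one_div_pow]
    apply one_div_le_one_div_of_le
    · exact_mod_cast Nat.pos_of_ne_zero (prod_ne_zero_iff.2 fun p hp => (mem_pz.1 (mem_filter.1 hp).1).2.ne_zero)
    · exact_mod_cast h3
  apply mul_le_mul h2 (le_of_eq rfl) (pow_nonneg (Vz_pos z).le _)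
  apply prod_nonneg
  intro p _
  split_ifs
  · positivity
  · norm_num

/-- the pure sieve for several shifts -/
theorem multi_sieve {k : ℕ} (hk : 1 ≤ k) (a : Fin k → ℕ) (H z r : ℕ) (hz : 1 ≤ z) :
    |((((Icc 1 H).filter (fun n => ∀ p ∈ pz z, ¬ Ap a p n)).card : ℕ) : ℝ) - H * ∏ p ∈ pz z, (1 - (nup a p : ℝ) / p)| ≤
      (((z : ℝ) + 1) * k) ^ r + 2 * H * Real.exp (3 * (k * (1 + Real.log z)) - r) := by
  have hk1 : (1 : ℝ) ≤ k := by exact_mod_cast hk
  have key := sieve_gen' (Icc 1 H) (fun _ => (1 : ℝ)) (fun _ _ => zero_le_one)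
    (fun p n => Ap a p n) (pz z) (fun p => (nup a p : ℝ) / p) (fun p hp => by
      have hpp := (mem_pz.1 hp).2
      have hp0 : (0 : ℝ) < p := by exact_mod_cast hpp.pos
      constructor
      · positivity
      · rw [div_le_one hp0]
        have : nup a p ≤ p := by
          unfold nup
          refine (card_filter_le _ _).trans ?_
          rw [card_range]
        exact_mod_cast this) (H : ℝ) (by positivity) (fun _ => (k : ℝ) ^ r) r (by
      intro S hS hSr
      have hSp : ∀ p ∈ S, p.Prime := fun p hp => (mem_pz.1 (hS hp)).2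
      have h := count_sys (fun p b => Ap a p b) H S hSp 1 le_rfl (fun p hp => by
        intro h1
        exact (hSp p hp).one_lt.ne' (Nat.dvd_one.1 h1)) 0
      have h3 : ∑ i ∈ (Icc 1 H) with ∀ p ∈ S, Ap a p i, (1 : ℝ) =
          (((Icc 1 H).filter (fun n => n ≡ 0 [MOD 1] ∧ ∀ p ∈ S, Ap a p (n % p))).card : ℝ) := by
        rw [sum_const, nsmul_eq_mul, mul_one]
        congr 2
        apply filter_congr
        intro n _
        simp only [Ap_mod, Nat.modEq_one, true_and]
      rw [h3]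
      rw [Nat.cast_one, div_one] at h
      refine h.trans ?_
      calc ∏ p ∈ S, (((range p).filter (fun b => Ap a p b)).card : ℝ) ≤ ∏ _p ∈ S, (k : ℝ) := by
            apply prod_le_prod (fun _ _ => by positivity)
            intro p hp
            exact_mod_cast nup_le a p (hSp p hp).one_le
        _ = (k : ℝ) ^ S.card := by rw [prod_const]
        _ ≤ (k : ℝ) ^ r := pow_le_pow_right₀ hk1 hSr)
  have e2 : ∑ i ∈ (Icc 1 H) with ∀ p ∈ pz z, ¬ Ap a p i, (1 : ℝ) =
      ((((Icc 1 H).filter (fun n => ∀ p ∈ pz z, ¬ Ap a p n)).card : ℕ) : ℝ) := by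
    rw [sum_const, nsmul_eq_mul, mul_one]
  rw [e2] at key
  refine key.trans ?_
  have h4 : ∑ j ∈ range (r + 1), ∑ S ∈ (pz z).powersetCard j, (k : ℝ) ^ r ≤ (((z : ℝ) + 1) * k) ^ r := by
    have h5 := card_small (pz z) r
    have h6 : ∑ j ∈ range (r + 1), ∑ S ∈ (pz z).powersetCard j, (k : ℝ) ^ r = ((∑ j ∈ range (r + 1), ((pz z).powersetCard j).card : ℕ) : ℝ) * (k : ℝ) ^ r := by
      push_cast
      rw [sum_mul]
      apply sum_congr rfl
      intro j _
      rw [sum_const, nsmul_eq_mul]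
    rw [h6, mul_pow]
    apply mul_le_mul_of_nonneg_right _ (by positivity)
    refine h5.trans ?_
    have h7 : ((pz z).card : ℝ) ≤ z := by exact_mod_cast (card_pz_le z)
    gcongr
  have h5 : es (fun p => (nup a p : ℝ) / p) (pz z) r ≤ Real.exp (3 * (k * (1 + Real.log z)) - r) := by
    refine (es_le (fun p _ => by positivity) r).trans ?_
    apply Real.exp_le_exp.2
    have h6 : ∑ p ∈ pz z, (nup a p : ℝ) / p ≤ k * ∑ p ∈ pz z, 1 / (p : ℝ) := by
      rw [mul_sum]
      apply sum_le_sum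
      intro p hp
      rw [mul_one_div]
      apply div_le_div_of_nonneg_right _ (Nat.cast_nonneg _)
      exact_mod_cast nup_le a p (mem_pz.1 hp).2.one_le
    have h7 : (k : ℝ) * ∑ p ∈ pz z, 1 / (p : ℝ) ≤ k * (1 + Real.log z) := mul_le_mul_of_nonneg_left (sum_pz_le z) (by positivity)
    linarith
  have h8 : 0 ≤ es (fun p => (nup a p : ℝ) / p) (pz z) r := es_nonneg (fun p _ => by positivity) r
  have h7 : 2 * (H : ℝ) * es (fun p => (nup a p : ℝ) / p) (pz z) r ≤ 2 * H * Real.exp (3 * (k * (1 + Real.log z)) - r) := by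
    gcongr
  linarith

end

end Run7.h402.PT
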