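import Mathlib
import Pool.Agent.Run7.h402.PT.B7
import Pool.Agent.Run7.h402.PT.C2

/-!
# Lower bound for the correlations of the corrected model
-/

set_option autoImplicit false

namespace Run7.h402.PT

open Finset
open Pool.Agent.H373R2.T7 (pz Vz lamz mem_pz Vz_pos Vz_inv_le Vz_le_one lamz_nonneg)
open Pool.Agent.N475.SP (dom)

noncomputable section

/-- growth of the parameters -/
theorem grow (D ε : ℝ) (hD : 1 ≤ D) (hε : 0 < ε) : ∃ l0 : ℝ, ∀ l : ℝ, l0 ≤ l → ∀ k : ℕ, (k : ℝ) ≤ l ^ (12 / 25 : ℝ) →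
    (D * l ^ 50) ^ k ≤ Real.exp (ε * √l) ∧ Real.exp (2 * √l * k) ≤ Real.exp (ε * l) ∧ (k : ℝ) ≤ √l := by
  have h1 : ∀ᶠ l : ℝ in Filter.atTop, 50 * Real.log l ≤ ε / 2 * l ^ (1 / 50 : ℝ) := by
    have h := (isLittleO_log_rpow_atTop (show (0 : ℝ) < 1 / 50 by norm_num)).bound (show 0 < ε / 100 by positivity)
    filter_upwards [h, Filter.eventually_ge_atTop 1] with l hl hl1
    rw [Real.norm_of_nonneg (Real.log_nonneg hl1), Real.norm_of_nonneg (by positivity)] at hl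
    linarith
  have h2 : ∀ᶠ l : ℝ in Filter.atTop, Real.log D ≤ ε / 2 * l ^ (1 / 50 : ℝ) := by
    have h := (tendsto_rpow_atTop (show (0 : ℝ) < 1 / 50 by norm_num)).eventually_ge_atTop (Real.log D / (ε / 2))
    filter_upwards [h] with l hl
    rw [div_le_iff₀ (by positivity)] at hl
    linarith
  have h3 : ∀ᶠ l : ℝ in Filter.atTop, 2 ≤ ε * l ^ (1 / 50 : ℝ) := by
    have h := (tendsto_rpow_atTop (show (0 : ℝ) < 1 / 50 by norm_num)).eventually_ge_atTop (2 / ε)
    filter_upwards [h] with l hl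
    rw [div_le_iff₀ hε] at hl
    linarith
  obtain ⟨l0, h0⟩ := Filter.eventually_atTop.1 (h1.and (h2.and (h3.and (Filter.eventually_ge_atTop (1 : ℝ)))))
  refine ⟨l0, fun l hl k hk => ?_⟩
  obtain ⟨g1, g2, g3, g4⟩ := h0 l hl
  have hl0 : 0 < l := by linarith
  have hs : l ^ (12 / 25 : ℝ) * l ^ (1 / 50 : ℝ) = √l := by
    rw [← Real.rpow_add hl0, Real.sqrt_eq_rpow]
    norm_num
  have hs2 : √l * √l = l := Real.mul_self_sqrt hl0.le
  have hp : (1 : ℝ) ≤ l ^ (1 / 50 : ℝ) := Real.one_le_rpow g4 (by norm_num)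
  have hq : (0 : ℝ) < l ^ (12 / 25 : ℝ) := by positivity
  refine ⟨?_, ?_, ?_⟩
  · have hDl : 1 ≤ D * l ^ 50 := by
      have : 1 ≤ l ^ 50 := one_le_pow₀ g4
      nlinarith
    have e : (D * l ^ 50) ^ k = Real.exp (k * Real.log (D * l ^ 50)) := by
      rw [Real.exp_nat_mul, Real.exp_log (by linarith)]
    rw [e]
    apply Real.exp_le_exp.2
    have hlog : Real.log (D * l ^ 50) = Real.log D + 50 * Real.log l := by
      rw [Real.log_mul (by linarith) (by positivity), Real.log_pow]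
      push_cast
      ring
    have h5 : 0 ≤ Real.log (D * l ^ 50) := Real.log_nonneg hDl
    calc (k : ℝ) * Real.log (D * l ^ 50) ≤ l ^ (12 / 25 : ℝ) * Real.log (D * l ^ 50) := mul_le_mul_of_nonneg_right hk h5
      _ ≤ l ^ (12 / 25 : ℝ) * (ε * l ^ (1 / 50 : ℝ)) := by
          apply mul_le_mul_of_nonneg_left _ hq.le
          rw [hlog]
          linarith
      _ = ε * √l := by rw [← hs]; ring
  · apply Real.exp_le_exp.2
    have hs0 : 0 ≤ √l := Real.sqrt_nonneg _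
    calc 2 * √l * (k : ℝ) ≤ (ε * l ^ (1 / 50 : ℝ)) * √l * l ^ (12 / 25 : ℝ) := by gcongr
      _ = ε * ((l ^ (12 / 25 : ℝ) * l ^ (1 / 50 : ℝ)) * √l) := by ring
      _ = ε * l := by rw [hs, hs2]
  · rw [← hs]
    refine hk.trans ?_
    exact le_mul_of_one_le_right hq.le hp

/-- the corrected model on rough integers -/
theorem Gr_low (l κ β : ℝ) {q1 : ℕ} (χ : DirichletCharacter ℂ q1) (hχ : χ ^ 2 = 1) (hβ : β < 1) (hβh : 1 / 2 ≤ β)
    (hκ : κ = 0 ∨ (κ = 1 ∧ Real.exp (-(2 * √l)) ≤ 1 - β)) (m : ℕ) (hm : 2 ≤ m) (hr : ∀ p ∈ pz (zl l), ¬ p ∣ m) :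
    (if κ = 0 then 1 else Real.exp (-(2 * √l)) / 4) ≤ Gr l κ χ β m := by
  have hV : 1 ≤ (Vz (zl l))⁻¹ := (one_le_inv₀ (Vz_pos _)).2 (Vz_le_one _)
  unfold Gr
  have e : lamz (zl l) m = (Vz (zl l))⁻¹ := by
    unfold lamz
    rw [if_pos hr]
  rw [e]
  rcases hκ with h | ⟨h, h2⟩
  · rw [h, if_pos rfl]
    simpa using hV
  · rw [h, if_neg one_ne_zero]
    have h1 := abs_le.1 (real_char χ hχ (m : ZMod q1)).2
    have hm2 : (2 : ℝ) ≤ m := by exact_mod_cast hm
    have hm0 : (0 : ℝ) < m := by linarith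
    have h3 : (m : ℝ) ^ (β - 1) ≤ 1 - (1 - β) / 4 := by
      set t := (1 - β) * Real.log 2 with ht
      have hlog2 := Real.log_two_gt_d9
      have hlog2' := Real.log_two_lt_d9
      have ht0 : 0 ≤ t := by
        apply mul_nonneg <;> linarith
      have ht1 : t ≤ 1 / 2 := by
        rw [ht]; nlinarith
      have h4 : (m : ℝ) ^ (β - 1) ≤ Real.exp (-t) := by
        rw [Real.rpow_def_of_pos hm0]
        apply Real.exp_le_exp.2
        have h5 : Real.log 2 ≤ Real.log m := Real.log_le_log (by norm_num) hm2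
        rw [ht]
        nlinarith
      have h5 : Real.exp (-t) ≤ 1 - t / 2 := by
        have h6 := Real.exp_bound_div_one_sub_of_interval' (x := t)
        have h7 : Real.exp t ≥ 1 + t := by linarith [Real.add_one_le_exp t]
        have h8 : Real.exp (-t) ≤ 1 / (1 + t) := by
          rw [Real.exp_neg, ← one_div]
          exact one_div_le_one_div_of_le (by linarith) h7
        refine h8.trans ?_
        rw [div_le_iff₀ (by linarith)]
        nlinarith
      have h6 : (1 - β) / 4 ≤ t / 2 := by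
        rw [ht]
        nlinarith
      linarith
    have h4 : 0 ≤ (m : ℝ) ^ (β - 1) := by positivity
    have h5 : (χ (m : ZMod q1)).re * (m : ℝ) ^ (β - 1) ≤ (m : ℝ) ^ (β - 1) := by nlinarith
    have h6 : (1 - β) / 4 ≤ 1 - 1 * (χ (m : ZMod q1)).re * (m : ℝ) ^ (β - 1) := by linarith
    have h7 : 0 ≤ (1 - β) / 4 := by linarith
    calc Real.exp (-(2 * √l)) / 4 ≤ (1 - β) / 4 := by linarith
      _ ≤ 1 - 1 * (χ (m : ZMod q1)).re * (m : ℝ) ^ (β - 1) := h6
      _ ≤ (Vz (zl l))⁻¹ * (1 - 1 * (χ (m : ZMod q1)).re * (m : ℝ) ^ (β - 1)) := by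
          apply le_mul_of_one_le_left _ hV
          linarith

/-- many integers with all shifts rough -/
theorem rough_low : ∃ l0 : ℝ, ∀ l : ℝ, l0 ≤ l → ∀ H : ℕ, Real.exp (l ^ 23) ≤ H → ∀ k : ℕ, 1 ≤ k → (k : ℝ) ≤ l ^ (12 / 25 : ℝ) →
    ∀ a : Fin k → ℕ, (∀ p : ℕ, p.Prime → ∃ r, r < p ∧ ∀ i, a i % p ≠ r) →
      H * Real.exp (-(√l / 1000)) + 1 ≤ ((((Icc 1 H).filter (fun n => ∀ p ∈ pz (zl l), ¬ Ap a p n)).card : ℕ) : ℝ) := by
  obtain ⟨C, hC1, hV⟩ := Vz_scale
  obtain ⟨l1, h1⟩ := grow (16 * C ^ 2) (1 / 2000) (by nlinarith) (by norm_num)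
  refine ⟨max l1 100000000, fun l hl H hH k hk1 hkl a hadm => ?_⟩
  have hl1 : l1 ≤ l := (le_max_left _ _).trans hl
  have hl8 : 100000000 ≤ l := (le_max_right _ _).trans hl
  have hl0 : 0 < l := by linarith
  have hlone : 1 ≤ l := by linarith
  obtain ⟨g1, _, g3⟩ := h1 l hl1 k hkl
  have hV := hV l (by linarith)
  set s := √l with hs
  have hs0 : 0 < s := Real.sqrt_pos.2 hl0
  have hss : s * s = l := Real.mul_self_sqrt hl0.le
  have hs4 : 10000 ≤ s := by
    apply Real.le_sqrt_of_sq_le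
    norm_num
    exact hl8
  have hH0 : (0 : ℝ) < H := (Real.exp_pos _).trans_le hH
  set z := zl l with hz
  have hz1 : 1 ≤ z := zl_one l hl0.le
  have hz1r : (1 : ℝ) ≤ z := by exact_mod_cast hz1
  have hzl : (z : ℝ) ≤ Real.exp l := zl_le l
  have hlz : Real.log z ≤ l := by
    rw [Real.log_le_iff_le_exp (by linarith)]; exact hzl
  set r : ℕ := ⌈l ^ 2⌉₊ with hr
  have hr1 : l ^ 2 ≤ r := Nat.le_ceil _
  have hr2 : (r : ℝ) ≤ l ^ 2 + 1 := (Nat.ceil_lt_add_one (by positivity)).le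
  have key := multi_sieve hk1 a H z r hz1
  set E := ∏ p ∈ pz z, (1 - (nup a p : ℝ) / p) with hE
  have hElow : Real.exp (-(s / 2000)) ≤ E := by
    refine le_trans ?_ (sing_low a hadm z)
    have h2 : 1 / (C * l ^ 2) ≤ Vz z := by
      rw [div_le_iff₀ (by positivity)]
      have := (inv_le_iff_one_le_mul₀ (Vz_pos z)).1 hV
      linarith
    have h3 : (1 / 4 : ℝ) ^ (2 * k) * (1 / (C * l ^ 2)) ^ (2 * k) ≤ (1 / 4 : ℝ) ^ (2 * k) * Vz z ^ (2 * k) := by
      gcongr
    refine le_trans ?_ h3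
    have h4 : (1 / 4 : ℝ) ^ (2 * k) * (1 / (C * l ^ 2)) ^ (2 * k) = 1 / (16 * C ^ 2 * l ^ 4) ^ k := by
      rw [← mul_pow, pow_mul, ← one_div_pow]
      congr 1
      field_simp
      norm_num
    rw [h4, Real.exp_neg, ← one_div]
    apply one_div_le_one_div_of_le (by positivity)
    calc (16 * C ^ 2 * l ^ 4) ^ k ≤ (16 * C ^ 2 * l ^ 50) ^ k := by
          have : l ^ 4 ≤ l ^ 50 := pow_le_pow_right₀ hlone (by norm_num)
          gcongr
      _ ≤ Real.exp (1 / 2000 * s) := g1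
      _ = Real.exp (s / 2000) := by congr 1; ring
  have h8e : (8 : ℝ) ≤ Real.exp 7 := by
    have := Real.add_one_le_exp (7 : ℝ)
    linarith
  have hke : (k : ℝ) ≤ Real.exp l := by
    have h2 : s ≤ l := by nlinarith
    have h3 := Real.add_one_le_exp l
    linarith
  have err1 : (((z : ℝ) + 1) * k) ^ r * 8 ≤ H * Real.exp (-(s / 2000)) := by
    have hz1e : (z : ℝ) + 1 ≤ Real.exp (l + 1) := by
      rw [Real.exp_add]
      have h6 := Real.add_one_le_exp (1 : ℝ)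
      have h7 : 1 ≤ Real.exp l := Real.one_le_exp hl0.le
      nlinarith
    have h2 : ((z : ℝ) + 1) * k ≤ Real.exp (2 * l + 1) := by
      calc ((z : ℝ) + 1) * k ≤ Real.exp (l + 1) * Real.exp l := by gcongr
        _ = Real.exp (2 * l + 1) := by rw [← Real.exp_add]; congr 1; ring
    have hpoly : (2 * l + 1) * (l ^ 2 + 1) + 7 + l ≤ l ^ 23 := by
      have h7 : l ^ 5 ≤ l ^ 23 := pow_le_pow_right₀ hlone (by norm_num)
      have h8 : (2 * l + 1) * (l ^ 2 + 1) + 7 + l ≤ l ^ 5 := by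
        have a1 : 8 * l ≤ l ^ 2 := by nlinarith
        have a2 : 8 * l ^ 2 ≤ l ^ 3 := by nlinarith [sq_nonneg l]
        have a3 : 8 * l ^ 3 ≤ l ^ 4 := by nlinarith [pow_pos hl0 3]
        have a4 : 8 * l ^ 4 ≤ l ^ 5 := by nlinarith [pow_pos hl0 4]
        nlinarith
      exact h8.trans h7
    calc (((z : ℝ) + 1) * k) ^ r * 8 ≤ Real.exp (2 * l + 1) ^ r * Real.exp 7 := by gcongr
      _ = Real.exp (r * (2 * l + 1) + 7) := by rw [← Real.exp_nat_mul, ← Real.exp_add]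
      _ ≤ Real.exp (l ^ 23 + -(s / 2000)) := by
          apply Real.exp_le_exp.2
          have h9 : (r : ℝ) * (2 * l + 1) ≤ (l ^ 2 + 1) * (2 * l + 1) := by gcongr
          have h10 : s / 2000 ≤ l := by nlinarith
          linarith
      _ = Real.exp (l ^ 23) * Real.exp (-(s / 2000)) := Real.exp_add _ _
      _ ≤ H * Real.exp (-(s / 2000)) := by gcongr
  have err2 : 2 * H * Real.exp (3 * (k * (1 + Real.log z)) - r) * 8 ≤ H * Real.exp (-(s / 2000)) := by
    have h2 : 3 * ((k : ℝ) * (1 + Real.log z)) - r ≤ -(s / 2000) - 10 := by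
      have h3 : (k : ℝ) * (1 + Real.log z) ≤ s * (1 + l) := by gcongr
      have h4 : s * 10000 ≤ l := by nlinarith
      nlinarith
    have h16 : (16 : ℝ) ≤ Real.exp 10 := by
      have h5 : Real.exp 10 = Real.exp 5 * Real.exp 5 := by rw [← Real.exp_add]; norm_num
      have h6 := Real.add_one_le_exp (5 : ℝ)
      rw [h5]; nlinarith
    calc 2 * H * Real.exp (3 * (k * (1 + Real.log z)) - r) * 8 ≤ 2 * H * Real.exp (-(s / 2000) - 10) * 8 := by gcongr
      _ = H * (16 * Real.exp (-(s / 2000) - 10)) := by ring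
      _ ≤ H * (Real.exp 10 * Real.exp (-(s / 2000) - 10)) := by gcongr
      _ = H * Real.exp (-(s / 2000)) := by rw [← Real.exp_add]; congr 2; ring
  have h2 := (abs_le.1 key).1
  have h3 : H * Real.exp (-(s / 2000)) ≤ H * E := by gcongr
  have h4 : H * Real.exp (-(s / 2000)) * (3 / 4) ≤ ((((Icc 1 H).filter (fun n => ∀ p ∈ pz z, ¬ Ap a p n)).card : ℕ) : ℝ) := by
    linarith
  refine le_trans ?_ h4
  have h5 : H * Real.exp (-(s / 1000)) ≤ H * Real.exp (-(s / 2000)) * (1 / 2) := by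
    have h6 : Real.exp (-(s / 1000)) = Real.exp (-(s / 2000)) * Real.exp (-(s / 2000)) := by
      rw [← Real.exp_add]; congr 1; ring
    have h7 : Real.exp (-(s / 2000)) ≤ 1 / 2 := by
      rw [Real.exp_neg, inv_le_comm₀ (Real.exp_pos _) (by norm_num)]
      have := Real.add_one_le_exp (s / 2000)
      norm_num
      linarith
    rw [h6, mul_assoc]
    gcongr
  have h6 : 1 ≤ H * Real.exp (-(s / 2000)) * (1 / 4) := by
    have h7 : 4 ≤ H * Real.exp (-(s / 2000)) := by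
      have h9 : (4 : ℝ) ≤ Real.exp 3 := by
        have := Real.add_one_le_exp (3 : ℝ)
        linarith
      calc (4 : ℝ) ≤ Real.exp 3 := h9
        _ ≤ Real.exp (l ^ 23 + -(s / 2000)) := by
            apply Real.exp_le_exp.2
            have h10 : l ≤ l ^ 23 := le_self_pow₀ hlone (by norm_num)
            have h11 : s / 2000 ≤ l / 2 := by nlinarith
            linarith
        _ = Real.exp (l ^ 23) * Real.exp (-(s / 2000)) := Real.exp_add _ _
        _ ≤ _ := by gcongr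
    linarith
  linarith

/-- the correlations of the corrected model are not too small -/
theorem model_low : ∃ l0 : ℝ, ∀ l : ℝ, l0 ≤ l → ∀ (Λ κ β : ℝ) (q1 : ℕ) (χ : DirichletCharacter ℂ q1),
    √l ≤ Λ → 0 ≤ κ → κ ≤ 1 → β < 1 → 1 / 2 ≤ β → χ ^ 2 = 1 →
    (κ = 0 ∨ (κ = 1 ∧ Λ = l / 8 ∧ Real.exp (-(2 * √l)) ≤ 1 - β)) →
    ∀ H : ℕ, Real.exp (l ^ 23) ≤ H → ∀ k : ℕ, 1 ≤ k → (k : ℝ) ≤ l ^ (12 / 25 : ℝ) →
    ∀ a : Fin k → ℕ, (∀ p : ℕ, p.Prime → ∃ r, r < p ∧ ∀ i, a i % p ≠ r) →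
      H * Real.exp (-(Λ / 400)) ≤ ∑ n ∈ Icc 1 H, ∏ i, Gr l κ χ β (n + a i) := by
  obtain ⟨l1, h1⟩ := rough_low
  obtain ⟨l2, h2⟩ := grow 4 (1 / 16000) (by norm_num) (by norm_num)
  refine ⟨max (max l1 l2) 1, fun l hl Λ κ β q1 χ hΛ hκ0 hκ1 hβ hβh hχ hcase H hH k hk1 hkl a hadm => ?_⟩
  have hl1 : l1 ≤ l := ((le_max_left _ _).trans (le_max_left _ _)).trans hl
  have hl2 : l2 ≤ l := ((le_max_right _ _).trans (le_max_left _ _)).trans hl
  have hlone : 1 ≤ l := (le_max_right _ _).trans hl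
  have g := h1 l hl1 H hH k hk1 hkl a hadm
  obtain ⟨g1, g2, _⟩ := h2 l hl2 k hkl
  set s := √l with hs
  have hs0 : 0 ≤ s := Real.sqrt_nonneg _
  have hss : s * s = l := Real.mul_self_sqrt (by linarith)
  have hs1 : 1 ≤ s := by
    apply Real.le_sqrt_of_sq_le
    linarith
  have hsl : s ≤ l := by nlinarith
  have hH0 : (0 : ℝ) < H := (Real.exp_pos _).trans_le hH
  set ρ : ℝ := if κ = 0 then 1 else Real.exp (-(2 * s)) / 4 with hρ
  have hρ0 : 0 < ρ := by
    rw [hρ]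
    split_ifs <;> positivity
  have hρk : Real.exp (-(Λ / 1000)) ≤ ρ ^ k := by
    rcases hcase with h | ⟨h, hΛ2, _⟩
    · rw [hρ, if_pos h, one_pow]
      rw [Real.exp_le_one_iff]
      linarith
    · have h3 : ρ = Real.exp (-(2 * s)) / 4 := by
        rw [hρ, if_neg (by rw [h]; norm_num)]
      have h4 : ρ ^ k = (Real.exp (2 * s * k))⁻¹ * ((4 : ℝ) ^ k)⁻¹ := by
        rw [h3, div_pow, ← Real.exp_nat_mul, ← Real.exp_neg, div_eq_mul_inv]
        congr 2
        ring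
      have h5 : (4 : ℝ) ^ k ≤ Real.exp (1 / 16000 * s) := by
        refine le_trans ?_ g1
        have : (1 : ℝ) ≤ l ^ 50 := one_le_pow₀ hlone
        gcongr
        linarith
      rw [h4, ← mul_inv, Real.exp_neg]
      apply inv_anti₀ (by positivity)
      calc Real.exp (2 * s * k) * 4 ^ k ≤ Real.exp (1 / 16000 * l) * Real.exp (1 / 16000 * s) := by gcongr
        _ = Real.exp (1 / 16000 * l + 1 / 16000 * s) := (Real.exp_add _ _).symm
        _ ≤ Real.exp (Λ / 1000) := by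
            apply Real.exp_le_exp.2
            rw [hΛ2]
            linarith
  set S := (Icc 1 H).filter (fun n => ∀ p ∈ pz (zl l), ¬ Ap a p n) with hS
  have hcard : H * Real.exp (-(s / 1000)) ≤ ((S.erase 1).card : ℝ) := by
    have h3 : S.card ≤ (S.erase 1).card + 1 := by
      have := pred_card_le_card_erase (s := S) (a := 1)
      omega
    have h4 : (S.card : ℝ) ≤ (S.erase 1).card + 1 := by exact_mod_cast h3
    linarith
  have hκ' : κ = 0 ∨ (κ = 1 ∧ Real.exp (-(2 * s)) ≤ 1 - β) := by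
    rcases hcase with h | ⟨h, _, h'⟩
    · exact Or.inl h
    · exact Or.inr ⟨h, h'⟩
  have hpt : ∀ n ∈ S.erase 1, ρ ^ k ≤ ∏ i, Gr l κ χ β (n + a i) := by
    intro n hn
    rw [mem_erase, hS, mem_filter, mem_Icc] at hn
    have h3 : ∏ _i : Fin k, ρ ≤ ∏ i, Gr l κ χ β (n + a i) := by
      apply prod_le_prod (fun _ _ => hρ0.le)
      intro i _
      apply Gr_low l κ β χ hχ hβ hβh hκ' (n + a i) (by omega)
      intro p hp hd
      exact hn.2.2 p hp ⟨i, hd⟩
    rwa [prod_const, card_univ, Fintype.card_fin] at h3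
  have h3 : ((S.erase 1).card : ℝ) * ρ ^ k ≤ ∑ n ∈ Icc 1 H, ∏ i, Gr l κ χ β (n + a i) := by
    calc ((S.erase 1).card : ℝ) * ρ ^ k = ∑ n ∈ S.erase 1, ρ ^ k := by rw [sum_const, nsmul_eq_mul]
      _ ≤ ∑ n ∈ S.erase 1, ∏ i, Gr l κ χ β (n + a i) := sum_le_sum hpt
      _ ≤ _ := by
          apply sum_le_sum_of_subset_of_nonneg
          · intro n hn
            exact (mem_filter.1 (mem_of_mem_erase hn)).1
          · intro n hn _
            apply prod_nonneg
            intro i _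
            exact (Gr_bounds l κ hκ0 hκ1 χ hχ β hβ.le (n + a i) (by rw [mem_Icc] at hn; omega)).1
  refine le_trans ?_ h3
  calc H * Real.exp (-(Λ / 400)) ≤ H * (Real.exp (-(s / 1000)) * Real.exp (-(Λ / 1000))) := by
        rw [← Real.exp_add]
        gcongr
        linarith
    _ = (H * Real.exp (-(s / 1000))) * Real.exp (-(Λ / 1000)) := by ring
    _ ≤ ((S.erase 1).card : ℝ) * ρ ^ k := by gcongr

end

end Run7.h402.PT
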