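import Mathlib
import Pool.Agent.Run7.h402.PT.C1
import Pool.Agent.Run7.h402.PT.C3

/-!
# The primes and the corrected model: correlations of many shifts
-/

set_option autoImplicit false

namespace Run7.h402.PT

open Finset
open Pool.Agent.H807R2.Dav
open Pool.Agent.H373R2.T7 (pz Vz lamz mem_pz Vz_pos Vz_inv_le Vz_le_one lamz_nonneg)

noncomputable section

/-- the two facts about the model which are used in the counting argument -/
theorem model_facts : ∃ l0 : ℝ, ∀ l : ℝ, l0 ≤ l → ∃ (Λ : ℝ) (G : ℕ → ℝ), √l ≤ Λ ∧ Λ ≤ l / 8 ∧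
    (∀ n, 1 ≤ n → 0 ≤ G n) ∧
    ∀ H : ℕ, Real.exp (l ^ 23) ≤ H → ((2 * H : ℕ) : ℝ) ≤ Real.exp (l ^ 41) → ∀ k : ℕ, 1 ≤ k → (k : ℝ) ≤ l ^ (12 / 25 : ℝ) →
      (∑ v ∈ Fintype.piFinset (fun _ : Fin k => Icc 1 (H + 1)),
        |∑ n ∈ Icc 1 H, (∏ i, Fp (n + v i - 1) - ∏ i, G (n + v i - 1))| ≤ H * Real.exp (-(Λ / 12)) * ((H : ℝ) + 1) ^ k) ∧
      ∀ a : Fin k → ℕ, (∀ p : ℕ, p.Prime → ∃ r, r < p ∧ ∀ i, a i % p ≠ r) →
        H * Real.exp (-(Λ / 400)) ≤ ∑ n ∈ Icc 1 H, ∏ i, G (n + a i) := by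
  obtain ⟨l1, h1⟩ := sup_all
  obtain ⟨l2, h2⟩ := Fp_sup
  obtain ⟨l3, h3⟩ := model_low
  obtain ⟨C, hC1, hV⟩ := Vz_scale
  obtain ⟨l4, h4⟩ := grow (16 * C) (1 / 1000) (by linarith) (by norm_num)
  refine ⟨max (max l1 l2) (max (max l3 l4) 4), fun l hl => ?_⟩
  have hl1 : l1 ≤ l := ((le_max_left _ _).trans (le_max_left _ _)).trans hl
  have hl2 : l2 ≤ l := ((le_max_right _ _).trans (le_max_left _ _)).trans hl
  have hl3 : l3 ≤ l := (((le_max_left _ _).trans (le_max_left _ _)).trans (le_max_right _ _)).trans hl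
  have hl4 : l4 ≤ l := (((le_max_right _ _).trans (le_max_left _ _)).trans (le_max_right _ _)).trans hl
  have hl44 : 4 ≤ l := ((le_max_right _ _).trans (le_max_right _ _)).trans hl
  have hl0 : 0 < l := by linarith
  have hlone : 1 ≤ l := by linarith
  obtain ⟨Λ, κ, β, q1, hNq1, χ, hΛs, hΛl, hκ0, hκ1, hβ1, hβh, hχ, hcase, hsup⟩ := h1 l hl1
  have hV := hV l hl44
  refine ⟨Λ, Gr l κ χ β, hΛs, hΛl, fun n hn => (Gr_bounds l κ hκ0 hκ1 χ hχ β hβ1.le n hn).1, ?_⟩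
  intro H hH1 hH2 k hk1 hkl
  have hH0 : (0 : ℝ) < H := (Real.exp_pos _).trans_le hH1
  constructor
  · have hN1 : Real.exp (l ^ 23) ≤ ((2 * H : ℕ) : ℝ) := by
      push_cast
      linarith
    set B : ℝ := 2 * C * l ^ 41 with hB
    have hl41 : 1 ≤ l ^ 41 := one_le_pow₀ hlone
    have hB1 : 1 ≤ B := by rw [hB]; nlinarith
    have hN0 : (0 : ℝ) < ((2 * H : ℕ) : ℝ) := (Real.exp_pos _).trans_le hN1
    have hlogN : Real.log ((2 * H : ℕ) : ℝ) ≤ l ^ 41 := by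
      rw [Real.log_le_iff_le_exp hN0]; exact hH2
    have hfB : ∀ n, 1 ≤ n → n ≤ 2 * H → |Fp n| ≤ B := by
      intro n hn1 hn2
      rw [abs_of_nonneg (Fp_nonneg n)]
      have h5 : Fp n ≤ Real.log n := by
        unfold Fp
        split_ifs
        · exact le_rfl
        · exact Real.log_natCast_nonneg n
      have h6 : Real.log n ≤ Real.log ((2 * H : ℕ) : ℝ) := by
        apply Real.log_le_log (by exact_mod_cast hn1)
        exact_mod_cast hn2
      rw [hB]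
      nlinarith
    have hgB : ∀ n, 1 ≤ n → n ≤ 2 * H → |Gr l κ χ β n| ≤ B := by
      intro n hn1 _
      have h5 := Gr_bounds l κ hκ0 hκ1 χ hχ β hβ1.le n hn1
      rw [abs_of_nonneg h5.1]
      refine h5.2.trans ?_
      have h6 : l ^ 2 ≤ l ^ 41 := pow_le_pow_right₀ hlone (by norm_num)
      calc 2 * (Vz (zl l))⁻¹ ≤ 2 * (C * l ^ 2) := by gcongr
        _ ≤ 2 * (C * l ^ 41) := by gcongr
        _ = B := by rw [hB]; ring
    have hd : ∀ α : ℝ, ‖∑ n ∈ Icc 1 (2 * H), ((Fp n - Gr l κ χ β n : ℝ) : ℂ) * ee ((n : ℝ) * α)‖ ≤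
        4 * H * Real.exp (-(Λ / 10)) := by
      intro α
      have g1 := hsup (2 * H) hN1 hH2 α
      have g2 := h2 l hl2 (2 * H) hN1 hH2 α
      have e : ∑ n ∈ Icc 1 (2 * H), ((Fp n - Gr l κ χ β n : ℝ) : ℂ) * ee ((n : ℝ) * α) =
          ∑ n ∈ Icc 1 (2 * H), ((ArithmeticFunction.vonMangoldt n - Gr l κ χ β n : ℝ) : ℂ) * ee ((n : ℝ) * α) -
          ∑ n ∈ Icc 1 (2 * H), ((ArithmeticFunction.vonMangoldt n - Fp n : ℝ) : ℂ) * ee ((n : ℝ) * α) := by
        rw [← sum_sub_distrib]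
        apply sum_congr rfl
        intro n _
        push_cast
        ring
      rw [e]
      refine (norm_sub_le _ _).trans ((add_le_add g1 g2).trans ?_)
      have g3 : Real.exp (-l) ≤ Real.exp (-(Λ / 10)) := by
        apply Real.exp_le_exp.2; linarith
      push_cast
      have g4 : 2 * (H : ℝ) * Real.exp (-l) ≤ 2 * H * Real.exp (-(Λ / 10)) := by gcongr
      linarith
    have key := tuple_avg k H Fp (Gr l κ χ β) B (4 * H * Real.exp (-(Λ / 10))) hB1 hfB hgB hd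
    refine key.trans ?_
    apply mul_le_mul_of_nonneg_right _ (by positivity)
    obtain ⟨g1, _, _⟩ := h4 l hl4 k hkl
    have g2 : (k : ℝ) * (B ^ k * 4) ≤ Real.exp (1 / 1000 * √l) := by
      refine le_trans ?_ g1
      have e1 : (k : ℝ) ≤ 2 ^ k := by exact_mod_cast Nat.lt_two_pow_self.le
      have e2 : (4 : ℝ) ≤ 4 ^ k := by
        calc (4 : ℝ) = 4 ^ 1 := by norm_num
          _ ≤ 4 ^ k := pow_le_pow_right₀ (by norm_num) hk1
      have e3 : l ^ 41 ≤ l ^ 50 := pow_le_pow_right₀ hlone (by norm_num)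
      calc (k : ℝ) * (B ^ k * 4) ≤ 2 ^ k * (B ^ k * 4 ^ k) := by gcongr
        _ = (16 * C * l ^ 41) ^ k := by
            rw [← mul_pow, ← mul_pow, hB]; congr 1; ring
        _ ≤ (16 * C * l ^ 50) ^ k := by gcongr
    calc (k : ℝ) * (B ^ k * (4 * H * Real.exp (-(Λ / 10)))) = (k * (B ^ k * 4)) * (H * Real.exp (-(Λ / 10))) := by ring
      _ ≤ Real.exp (1 / 1000 * √l) * (H * Real.exp (-(Λ / 10))) := by gcongr
      _ = H * (Real.exp (1 / 1000 * √l) * Real.exp (-(Λ / 10))) := by ring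
      _ = H * Real.exp (1 / 1000 * √l + -(Λ / 10)) := by rw [← Real.exp_add]
      _ ≤ H * Real.exp (-(Λ / 12)) := by
          have : 0 ≤ √l := Real.sqrt_nonneg _
          gcongr
          linarith
  · intro a hadm
    exact h3 l hl3 Λ κ β q1 χ hΛs hκ0 hκ1 hβ1 hβh hχ hcase H hH1 k hk1 hkl a hadm

/-- many rough numbers -/
theorem rough_many : ∃ C l0 : ℝ, 1 ≤ C ∧ ∀ l : ℝ, l0 ≤ l → ∀ H : ℕ, Real.exp (l ^ 23) ≤ H →
    (H : ℝ) ≤ C * l ^ 2 * (((Icc 1 H).filter (fun n => ∀ p ∈ pz (zl l), ¬ p ∣ n)).card : ℝ) := by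
  obtain ⟨C, hC1, hV⟩ := Vz_scale
  refine ⟨2 * C, 8, by linarith, fun l hl H hH => ?_⟩
  have hH0 : (0 : ℝ) < H := (Real.exp_pos _).trans_le hH
  have h1 := lamz_cls l hl H hH 1 le_rfl (fun p hp h => by
    have := Nat.dvd_one.1 h
    exact absurd this hp.one_lt.ne') 0 H le_rfl
  rw [if_pos (Nat.coprime_one_right 0)] at h1
  simp only [Nat.totient_one, Nat.cast_one, div_one] at h1
  have h2 : ∑ n ∈ (Icc 1 H).filter (fun n => n ≡ 0 [MOD 1]), lamz (zl l) n =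
      (Vz (zl l))⁻¹ * (((Icc 1 H).filter (fun n => ∀ p ∈ pz (zl l), ¬ p ∣ n)).card : ℝ) := by
    have h3 : (Icc 1 H).filter (fun n => n ≡ 0 [MOD 1]) = Icc 1 H := by
      apply filter_true_of_mem
      intro n _
      exact Nat.modEq_one
    rw [h3]
    unfold lamz
    rw [← sum_filter, sum_const, nsmul_eq_mul, mul_comm]
  rw [h2] at h1
  have h3 := (abs_le.1 h1).1
  have h4 : Real.exp (-(3 * l)) ≤ 1 / 2 := by
    rw [Real.exp_neg, inv_le_comm₀ (Real.exp_pos _) (by norm_num)]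
    have := Real.add_one_le_exp (3 * l)
    norm_num
    linarith
  have h5 : (H : ℝ) * Real.exp (-(3 * l)) ≤ H * (1 / 2) := by gcongr
  have hV := hV l (by linarith)
  have h6 : (Vz (zl l))⁻¹ * (((Icc 1 H).filter (fun n => ∀ p ∈ pz (zl l), ¬ p ∣ n)).card : ℝ) ≤
      C * l ^ 2 * (((Icc 1 H).filter (fun n => ∀ p ∈ pz (zl l), ¬ p ∣ n)).card : ℝ) := by gcongr
  linarith

end

end Run7.h402.PT
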